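import Pool.Agent.Lib.MP_751085_ag.P7
import Pool.Agent.Lib.MP_751085_ag.Cd

/-! Norms on a curve with one place at infinity: vocabulary. -/

namespace Pool.Agent.Lib.MP_651af7_nt.Gm

open Polynomial Pool.Agent.HZ
open scoped TensorProduct

variable {K O : Type} [Field K] [CommRing O] [Algebra K O] {ν : ℕ}

/-- `u` has a pole of exact order `ν > 0`. -/
structure Pol (C : Crv K O) (u : O) (ν : ℕ) : Prop where
  pos : 0 < ν
  le : u ∈ C.Le0 ν
  ne : C.c0 (-(ν : ℤ)) u ≠ 0

/-- `b` generates `O` over `K[u]` and `M` is the matrix of multiplication. -/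
structure Bas (u : O) (b : Fin ν → O) (M : O →ₐ[K] Matrix (Fin ν) (Fin ν) K[X]) : Prop where
  mul : ∀ a i, a * b i = ∑ j, aeval u (M a j i) * b j
  span : ∀ a, ∃ f : Fin ν → K[X], a = ∑ i, aeval u (f i) * b i

/-- The matrix of multiplication after base change. -/
noncomputable def mx (M : O →ₐ[K] Matrix (Fin ν) (Fin ν) K[X]) (B : Type) [CommRing B]
    [Algebra K B] : Ob K O B →ₐ[B] Matrix (Fin ν) (Fin ν) B[X] :=
  Algebra.TensorProduct.lift (Algebra.ofId B _)
    ((mapAlgHom (Algebra.ofId K B)).mapMatrix.comp M) fun _ _ => Algebra.commutes _ _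

/-- The norm to `B[u]`. -/
noncomputable def nm (M : O →ₐ[K] Matrix (Fin ν) (Fin ν) K[X]) {B : Type} [CommRing B]
    [Algebra K B] (z : Ob K O B) : B[X] := (mx M B z).det

/-- A function with coefficients `r l`. -/
noncomputable def z1 (K : Type) {O B L : Type} [Field K] [CommRing O] [Algebra K O] [CommRing B]
    [Algebra K B] [Fintype L] (r : L → B) (x : L → O) : Ob K O B := ∑ l, r l ⊗ₜ[K] x l

/-- A polynomial in `T` whose coefficients are functions. -/
noncomputable def zz (K : Type) {O B L : Type} [Field K] [CommRing O] [Algebra K O] [CommRing B]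
    [Algebra K B] [Fintype L] {d : ℕ} (r : L → B) (x : Fin (d + 1) → L → O) : Ob K O B[X] :=
  ∑ i : Fin (d + 1), ∑ l, monomial i (r l) ⊗ₜ[K] x i l

/-- The polynomial with the coefficients `∑ l, r l * x i l`. -/
noncomputable def pz {B L : Type} [CommRing B] [Fintype L] {d : ℕ} (r : L → B)
    (x : Fin (d + 1) → L → B) : B[X] := ∑ i : Fin (d + 1), monomial i (∑ l, r l * x i l)

/-- Expansions `σ s` of `Λ` over `M` at places that differ from the place at infinity and from
each other, as seen on `θ`. -/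
structure Plc {Λ Ω S : Type} [Field Λ] [Algebra K Λ] [Field Ω] [Algebra K Ω] (I : Inf K Λ)
    (M : IntermediateField K Λ) (θ : Λ) (σ : S → Λ →+* HahnSeries ℤ Ω) : Prop where
  fix : ∀ s, ∀ z ∈ M, ∀ n, (σ s z).coeff n = algebraMap K Ω ((I.ι z).coeff n)
  uni : ∃ π ∈ M, I.ι π = HahnSeries.single 1 1
  mem : θ ∈ I.V
  reg : ∀ s, ∀ n < 0, (σ s θ).coeff n = 0
  ne : ∀ s, (σ s θ).coeff 0 ≠ algebraMap K Ω ((I.ι θ).coeff 0)
  inj : Function.Injective fun s => (σ s θ).coeff 0

/-- The output of the curve argument: norms `c t * N` with top coefficients `κ * a t ^ ν`. -/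
structure Out (K : Type) {E T L : Type} [Field K] [Field E] [Algebra K E] (r : L → E)
    (a : T → E[X]) (ν γ δ D : ℕ) (κ : E) (c : T → E[X]) (N : E[X][X]) : Prop where
  ne : κ ≠ 0
  dc : ∀ t, (c t).natDegree ≤ γ
  dN : N.natDegree ≤ δ
  dT : ∀ i, (N.coeff i).natDegree ≤ D
  mem : ∀ t i j, (((c t).map C * N).coeff i).coeff j ∈ Submodule.span K (Set.range r) ^ ν
  top : ∀ t, C ((c t).coeff γ) * N.coeff δ = C κ * a t ^ ν
  bot : N.coeff 0 ≠ 0

end Pool.Agent.Lib.MP_651af7_nt.Gm
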