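import Pool.Agent.Lib.MP_651af7_nt.Gm.CDefs

/-! The points given by the other expansions. -/

namespace Pool.Agent.Lib.MP_651af7_nt.Gm

open Polynomial Pool.Agent.HZ

theorem coa_W (F : Type) [Field F] : ∃ W : ValuationSubring (HahnSeries ℤ F),
    ∀ f, f ∈ W ↔ ∀ i < 0, f.coeff i = 0 :=
  ⟨(Valued.v : Valuation (LaurentSeries F) (WithZero (Multiplicative ℤ))).valuationSubring,
    fun f => by
      rw [← LaurentSeries.valuation_le_iff_coeff_lt_eq_zero F, neg_zero, WithZero.exp_zero]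
      exact Valuation.mem_valuationSubring_iff _ _⟩

theorem coa_mul {F : Type} [Field F] {x y : HahnSeries ℤ F} (hx : ∀ i < 0, x.coeff i = 0)
    (hy : ∀ i < 0, y.coeff i = 0) : (x * y).coeff 0 = x.coeff 0 * y.coeff 0 := by
  rw [HahnSeries.coeff_mul, Finset.sum_eq_single ((0 : ℤ), (0 : ℤ))]
  · intro b hb hne
    have h0 : b.1 + b.2 = 0 := (Finset.mem_antidiagonal.1 hb).2.2
    by_cases h1 : b.1 < 0
    · rw [hx _ h1, zero_mul]
    · have h2 : b.2 < 0 := by
        by_contra h2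
        exact hne (Prod.ext (by simp only; omega) (by simp only; omega))
      rw [hy _ h2, mul_zero]
  · intro h
    by_contra hne
    exact h (Finset.mem_antidiagonal.2 ⟨left_ne_zero_of_mul hne, right_ne_zero_of_mul hne,
      add_zero _⟩)

theorem coa_inv {F : Type} [Field F] {x : HahnSeries ℤ F} (hx : ∀ i < 0, x.coeff i = 0)
    (h0 : x.coeff 0 ≠ 0) : ∀ i < 0, x⁻¹.coeff i = 0 := by
  have hne : x ≠ 0 := fun e => h0 (by rw [e, HahnSeries.coeff_zero])
  have h1 : x.orderTop = ((0 : ℤ) : WithTop ℤ) :=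
    le_antisymm (HahnSeries.orderTop_le_of_coeff_ne_zero h0)
      (HahnSeries.le_orderTop_iff_forall.2 fun j hj => hx j (by exact_mod_cast hj))
  have h2 := HahnSeries.orderTop_mul x x⁻¹
  rw [mul_inv_cancel₀ hne, HahnSeries.orderTop_one, h1, WithTop.coe_zero, zero_add] at h2
  intro i hi
  exact HahnSeries.coeff_eq_zero_of_lt_orderTop (by rw [← h2]; exact_mod_cast hi)

theorem coa_ne {F : Type} [Field F] {x : HahnSeries ℤ F} (h0 : x ≠ 0)
    (hx : ∀ i < 0, x.coeff i = 0) (hy : ∀ i < 0, x⁻¹.coeff i = 0) : x.coeff 0 ≠ 0 := by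
  intro h
  have h1 := coa_mul hx hy
  rw [mul_inv_cancel₀ h0, h, zero_mul, HahnSeries.coeff_one, if_pos rfl] at h1
  exact one_ne_zero h1

variable {K Λ Ω S : Type} [Field K] [Field Λ] [Algebra K Λ] [Field Ω] [Algebra K Ω] {I : Inf K Λ}
  {M : IntermediateField K Λ} {θ : Λ} {σ : S → Λ →+* HahnSeries ℤ Ω}

theorem coa_C (P : Plc I M θ σ) (s : S) (c : K) :
    σ s (algebraMap K Λ c) = HahnSeries.C (algebraMap K Ω c) := by
  ext n
  rw [P.fix s _ (M.algebraMap_mem c), I.ιC, HahnSeries.C_apply, HahnSeries.C_apply,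
    HahnSeries.coeff_single, HahnSeries.coeff_single]
  split_ifs
  · rfl
  · exact map_zero _

theorem Plc.reg_O (P : Plc I M θ σ) (s : S) (a : Oo K I.V) : ∀ n < 0, (σ s a).coeff n = 0 := by
  obtain ⟨W, hW⟩ := coa_W Ω
  have hK : ∀ c : K, algebraMap K Λ c ∈ W.comap (σ s) := fun c =>
    (hW (σ s (algebraMap K Λ c))).2 fun i hi => by
      rw [coa_C P, HahnSeries.C_apply, HahnSeries.coeff_single_of_ne hi.ne]
  refine (hW (σ s a)).1 (a.2 (W.comap (σ s)) hK fun e => ?_)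
  have h1 : θ - algebraMap K Λ ((I.ι θ).coeff 0) ∈ W.comap (σ s) :=
    sub_mem (e ▸ P.mem) (hK _)
  have h2 : (σ s (θ - algebraMap K Λ ((I.ι θ).coeff 0))).coeff 0 ≠ 0 := by
    rw [map_sub, HahnSeries.coeff_sub, coa_C P, HahnSeries.C_apply, HahnSeries.coeff_single_same]
    exact sub_ne_zero.2 (P.ne s)
  have h3 : (I.ι (θ - algebraMap K Λ ((I.ι θ).coeff 0))).coeff 0 = 0 := by
    rw [map_sub, HahnSeries.coeff_sub, I.ιC, HahnSeries.C_apply, HahnSeries.coeff_single_same,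
      sub_self]
  generalize θ - algebraMap K Λ ((I.ι θ).coeff 0) = z at h1 h2 h3
  have h0 : z ≠ 0 := fun e => h2 (by rw [e, map_zero, HahnSeries.coeff_zero])
  have h4 : z⁻¹ ∈ W.comap (σ s) := (hW (σ s z⁻¹)).2 (by
    rw [map_inv₀]
    exact coa_inv ((hW _).1 h1) h2)
  rw [e, I.mem] at h1 h4
  rw [map_inv₀] at h4
  exact coa_ne ((map_ne_zero I.ι).2 h0) h1 h4 h3

theorem Plc.exists_pts (P : Plc I M θ σ) [IsFractionRing (Oo K I.V) Λ] (C : Crv K (Oo K I.V)) :
    ∃ p : S → Oo K I.V →ₐ[K] Ω, Function.Injective p ∧ ∀ s a, p s a = (σ s a).coeff 0 := by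
  have := C.ded0
  obtain ⟨W, hW⟩ := coa_W Ω
  let p : S → Oo K I.V →ₐ[K] Ω := fun s =>
    { toFun := fun a => (σ s a).coeff 0
      map_one' := by simp
      map_mul' := fun a b => by
        rw [MulMemClass.coe_mul, map_mul, coa_mul (P.reg_O s a) (P.reg_O s b)]
      map_zero' := by simp
      map_add' := fun a b => by simp
      commutes' := fun c => by
        rw [Subalgebra.coe_algebraMap, coa_C P, HahnSeries.C_apply, HahnSeries.coeff_single_same] }
  refine ⟨p, fun s s' e => P.inj ?_, fun _ _ => rfl⟩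
  have hV : W.comap (σ s) ≠ ⊤ := fun h => by
    obtain ⟨π, hπ, h1⟩ := P.uni
    have h2 := (hW (σ s π⁻¹)).1 (h ▸ ValuationSubring.mem_top π⁻¹ : π⁻¹ ∈ W.comap (σ s)) (-1)
      (by omega)
    rw [P.fix s _ (inv_mem hπ), map_inv₀, h1, HahnSeries.inv_single,
      HahnSeries.coeff_single_same, inv_one, map_one] at h2
    exact one_ne_zero h2
  have hO : ∀ a : Oo K I.V, algebraMap (Oo K I.V) Λ a ∈ W.comap (σ s) := fun a =>
    (hW (σ s a)).2 (P.reg_O s a)
  obtain ⟨q, hq, -, h1⟩ := val_eq_loc hO hV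
  obtain ⟨y, hy, x, hxy⟩ := h1 θ ((hW (σ s θ)).2 (P.reg s))
  have hv : (W.comap (σ s)).valuation (y : Λ) = 1 :=
    le_antisymm (((W.comap (σ s)).valuation_le_one_iff _).2 (hO y))
      (not_lt.1 fun h => hy ((hq y).2 h))
  have hy0 : (y : Λ) ≠ 0 := fun h => by
    rw [h, map_zero] at hv
    exact zero_ne_one hv
  have hi : (y : Λ)⁻¹ ∈ W.comap (σ s) := by
    rw [← ValuationSubring.valuation_le_one_iff, map_inv₀, hv, inv_one]
  have hp : p s y ≠ 0 := coa_ne ((map_ne_zero (σ s)).2 hy0) (P.reg_O s y) (by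
    rw [← map_inv₀]
    exact (hW _).1 hi)
  have key : ∀ t, p t y * (σ t θ).coeff 0 = p t x := fun t => by
    have h2 : (y : Λ) * θ = x := hxy
    exact (coa_mul (P.reg_O t y) (P.reg t)).symm.trans (by rw [← map_mul, h2]; rfl)
  have h3 := key s'
  rw [← e, ← key s] at h3
  exact (mul_left_cancel₀ hp h3).symm

end Pool.Agent.Lib.MP_651af7_nt.Gm
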