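import Pool.Agent.Lib.MP_651af7_nt.Gm.CDefs

/-! Scalings of finite families of functions. -/

namespace Pool.Agent.Lib.MP_651af7_nt.Gm

open Polynomial Pool.Agent.HZ

theorem cob1_mul {K : Type} [Field K] {f g : HahnSeries ℤ K} {p q : ℤ}
    (hf : ∀ i < p, f.coeff i = 0) (hg : ∀ i < q, g.coeff i = 0) :
    (∀ i < p + q, (f * g).coeff i = 0) ∧ (f * g).coeff (p + q) = f.coeff p * g.coeff q := by
  have key : ∀ a b : ℤ, a + b ≤ p + q → (a, b) ≠ (p, q) → f.coeff a * g.coeff b = 0 :=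
    fun a b h h' => by
      rcases lt_or_ge a p with c | c
      · rw [hf a c, zero_mul]
      rcases lt_or_ge b q with c' | c'
      · rw [hg b c', mul_zero]
      exact absurd (Prod.ext (by simp only; omega) (by simp only; omega)) h'
  refine ⟨fun i hi => ?_, ?_⟩ <;> rw [HahnSeries.coeff_mul]
  · refine Finset.sum_eq_zero fun x hx => ?_
    have h := (Finset.mem_antidiagonal.1 hx).2.2
    refine key x.1 x.2 (by omega) fun e => ?_
    obtain ⟨e1, e2⟩ := Prod.ext_iff.1 e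
    simp only at e1 e2
    omega
  · refine Finset.sum_eq_single (p, q)
      (fun x hx h => key x.1 x.2 (Finset.mem_antidiagonal.1 hx).2.2.le h) fun h => ?_
    by_contra c
    exact h (Finset.mem_antidiagonal.2
      ⟨left_ne_zero_of_mul c, right_ne_zero_of_mul c, rfl⟩)

theorem exists_lam {K Λ J : Type} [Field K] [Field Λ] [Algebra K Λ] [Fintype J] {I : Inf K Λ}
    [IsFractionRing (Oo K I.V) Λ] (C : Crv K (Oo K I.V)) (hC : ∀ a, C.ι a = I.ι a) {y : J → Λ}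
    (hy : ∀ j, y j ∈ I.V) : ∃ (γ : ℕ) (c : Λ) (x : J → Oo K I.V), C.g0 ≤ γ ∧ ∀ j,
      (x j : Λ) = c * y j ∧ x j ∈ C.Le0 γ ∧ C.c0 (-(γ : ℤ)) (x j) = (I.ι (y j)).coeff 0 := by
  obtain ⟨⟨d, hd⟩, h1⟩ :=
    IsLocalization.exist_integer_multiples_of_finite (nonZeroDivisors (Oo K I.V)) y
  choose w hw using h1
  have h0 : d ≠ 0 := nonZeroDivisors.ne_zero hd
  have h2 : C.ι d ≠ 0 := fun e => h0 (C.neg d fun i _ => by rw [e, HahnSeries.coeff_zero])
  have h3 : (C.ι d).order ≤ 0 := not_lt.1 fun c =>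
    h0 (C.neg d fun i hi => HahnSeries.coeff_eq_zero_of_lt_order (hi.trans_lt c))
  obtain ⟨m, hm⟩ : ∃ m : ℕ, (C.ι d).order = -(m : ℤ) := ⟨(-(C.ι d).order).toNat, by omega⟩
  have h4 : (C.ι d).coeff (-(m : ℤ)) ≠ 0 := hm ▸ fun e => h2 (HahnSeries.coeff_order_eq_zero.1 e)
  obtain ⟨a, a1, a2⟩ := C.big C.g0 le_rfl
  obtain ⟨b1, b2⟩ := cob1_mul (g := C.ι d) (q := -(m : ℤ)) a2
    fun i hi => HahnSeries.coeff_eq_zero_of_lt_order (hi.trans_eq hm.symm)
  rw [a1, one_mul] at b2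
  have h5 : -(C.g0 : ℤ) + -(m : ℤ) = -((C.g0 + m : ℕ) : ℤ) + 0 := by omega
  refine ⟨C.g0 + m, algebraMap K Λ ((C.ι d).coeff (-(m : ℤ)))⁻¹ * (a * d),
    fun j => ((C.ι d).coeff (-(m : ℤ)))⁻¹ • (a * w j), Nat.le_add_right _ _, fun j => ?_⟩
  have h6 : (w j : Λ) = d * y j := hw j
  have h7 : C.ι (a * w j) = C.ι a * C.ι d * I.ι (y j) := by
    rw [map_mul, hC (w j), h6, map_mul, ← hC, mul_assoc]
  obtain ⟨c1, c2⟩ := cob1_mul b1 ((I.mem _).1 (hy j))
  rw [← h7, b2, add_zero, h5, add_zero] at c2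
  rw [← h7, add_zero, h5, add_zero] at c1
  refine ⟨?_, Submodule.smul_mem _ _ ((Submodule.mem_iInf _).2 fun i => c1 i.1 i.2), ?_⟩
  · rw [Subalgebra.coe_smul, Subalgebra.coe_mul, h6, Algebra.smul_def]
    ring
  · rw [map_smul, smul_eq_mul]
    exact (congrArg _ c2).trans (inv_mul_cancel_left₀ h4 _)

theorem exists_cop {O Λ J : Type} [CommRing O] [IsDedekindDomain O] [Field Λ] [Algebra O Λ]
    [IsFractionRing O Λ] [Fintype J] {y : J → Λ} (hy : y ≠ 0) {u : O} (hu : u ≠ 0) :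
    ∃ (c : Λ) (x : J → O), (∀ j, algebraMap O Λ (x j) = c * y j) ∧
      Ideal.span (Set.range x) ⊔ Ideal.span {u} = ⊤ := by
  obtain ⟨⟨d, hd⟩, h1⟩ := IsLocalization.exist_integer_multiples_of_finite (nonZeroDivisors O) y
  choose w hw using h1
  have h2 : ∀ j, algebraMap O Λ (w j) = algebraMap O Λ d * y j := fun j =>
    (hw j).trans (Algebra.smul_def d (y j))
  have inj : ∀ {a : O}, a ≠ 0 → algebraMap O Λ a ≠ 0 := fun h e =>
    h (IsFractionRing.to_map_eq_zero_iff.1 e)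
  obtain ⟨j0, hj⟩ := Function.ne_iff.1 hy
  have he : w j0 ≠ 0 := fun e =>
    mul_ne_zero (inj (nonZeroDivisors.ne_zero hd)) hj (by rw [← h2, e, map_zero])
  obtain ⟨B, hB⟩ : Ideal.span (Set.range w) ∣ Ideal.span {w j0} :=
    Ideal.dvd_iff_le.2 (Ideal.span_mono (Set.singleton_subset_iff.2 ⟨j0, rfl⟩))
  have h3 : Ideal.span {w j0} ≠ 0 := Ideal.span_singleton_eq_bot.not.2 he
  obtain ⟨a, ha⟩ := IsDedekindDomain.exists_sup_span_eq (I := Ideal.span {u} * B) (J := B)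
    Ideal.mul_le_right (mul_ne_zero (Ideal.span_singleton_eq_bot.not.2 hu)
      (right_ne_zero_of_mul (hB ▸ h3)))
  have h4 : a ∈ B := ha ▸ Ideal.mem_sup_right (Ideal.mem_span_singleton_self a)
  choose x hx using fun j => Ideal.mem_span_singleton'.1
    (hB.ge (Ideal.mul_mem_mul (Ideal.subset_span ⟨j, rfl⟩) h4))
  refine ⟨algebraMap O Λ d * algebraMap O Λ a / algebraMap O Λ (w j0), x, fun j => ?_, ?_⟩
  · rw [div_mul_eq_mul_div, eq_div_iff (inj he), ← map_mul, hx, map_mul, h2]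
    ring
  · have h5 : Ideal.span (Set.range x) * Ideal.span {w j0} =
        Ideal.span (Set.range w) * Ideal.span {a} := by
      rw [Ideal.span_mul_span', Ideal.span_mul_span', Set.mul_singleton, Set.mul_singleton,
        ← Set.range_comp, ← Set.range_comp]
      exact congrArg (fun f => Ideal.span (Set.range f)) (funext hx)
    refine mul_right_cancel₀ h3 ?_
    rw [Ideal.sup_mul, h5, Ideal.top_mul, hB, mul_left_comm, ← Ideal.mul_sup, sup_comm, ha]

end Pool.Agent.Lib.MP_651af7_nt.Gm
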