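import Pool.Agent.Lib.MP_651af7_nt.Gm.NmC
import Pool.Agent.Lib.MP_651af7_nt.Gm.CoB1

/-! Scalings, and the value of the norm at zero. -/

namespace Pool.Agent.Lib.MP_651af7_nt.Gm

open Polynomial Pool.Agent.HZ

variable {K O : Type} [Field K] [CommRing O] [Algebra K O] {ν : ℕ} {C : Crv K O} {u : O}
  {b : Fin ν → O} {M : O →ₐ[K] Matrix (Fin ν) (Fin ν) K[X]}

theorem cob_ker {L A : Type} [Field L] [CommRing A] [Algebra L A] :
    Function.Injective fun ρ : A →ₐ[L] L => RingHom.ker ρ := by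
  intro ρ ρ' h
  ext z
  have h1 : z - algebraMap L A (ρ z) ∈ RingHom.ker ρ := by simp [RingHom.mem_ker]
  have h2 : z - algebraMap L A (ρ z) ∈ RingHom.ker ρ' := by
    simp only at h
    rwa [h] at h1
  simp only [RingHom.mem_ker, map_sub, AlgHom.commutes, Algebra.algebraMap_self,
    RingHom.id_apply] at h2
  exact (sub_eq_zero.1 h2).symm

open UniqueFactorizationMonoid in
theorem cob_count {L A : Type} [Field L] [CommRing A] [IsDedekindDomain A] [Algebra L A]
    [DecidableEq (A →ₐ[L] L)] {s : Multiset (A →ₐ[L] L)} {w : A} (hw : w ≠ 0)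
    (hs : (s.map fun ρ => RingHom.ker ρ).prod = Ideal.span {w}) {ρ : A →ₐ[L] L} {n : ℕ}
    (h : w ∈ RingHom.ker ρ ^ n) : n ≤ s.count ρ := by
  classical
  rcases Nat.eq_zero_or_pos n with rfl | hn
  · exact Nat.zero_le _
  have hw' : Ideal.span {w} ≠ ⊥ := by simpa using hw
  have hp : ∀ σ : A →ₐ[L] L, w ∈ RingHom.ker σ → Prime (RingHom.ker σ) := fun σ hσ =>
    Ideal.prime_of_isPrime (fun e => hw (by simpa [e] using hσ)) (RingHom.ker_isPrime σ)
  have h1 : ∀ P ∈ s.map fun ρ => RingHom.ker ρ, Prime P := fun P hP => by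
    have hd := Multiset.dvd_prod hP
    obtain ⟨σ, -, rfl⟩ := Multiset.mem_map.1 hP
    rw [hs] at hd
    exact hp σ (Ideal.le_of_dvd hd (Ideal.mem_span_singleton_self w))
  have h2 : ∀ P ∈ Multiset.replicate n (RingHom.ker ρ), Prime P := fun P hP => by
    rw [Multiset.eq_of_mem_replicate hP]
    exact hp ρ (Ideal.pow_le_self hn.ne' h)
  have h3 : (Multiset.replicate n (RingHom.ker ρ)).prod ∣ (s.map fun ρ => RingHom.ker ρ).prod := by
    rw [hs, Multiset.prod_replicate, Ideal.dvd_iff_le]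
    exact (Ideal.span_singleton_le_iff_mem _).2 h
  have h4 : (s.map fun ρ => RingHom.ker ρ).prod ≠ 0 := by
    rw [hs]
    exact hw'
  rw [dvd_iff_normalizedFactors_le_normalizedFactors (ne_zero_of_dvd_ne_zero h4 h3) h4,
    normalizedFactors_prod_of_prime h1, normalizedFactors_prod_of_prime h2,
    ← Multiset.le_count_iff_replicate_le, Multiset.count_map_eq_count' _ _ cob_ker] at h3
  exact h3

theorem cob_coeff {B L : Type} [CommRing B] [Fintype L] {d : ℕ} (r : L → B)
    (x : Fin (d + 1) → L → B) (i : Fin (d + 1)) : (pz r x).coeff i = ∑ l, r l * x i l := by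
  rw [pz, finsetSum_coeff, Finset.sum_eq_single i]
  · simp
  · intro j _ hj
    rw [coeff_monomial, if_neg fun e => hj (Fin.ext e)]
  · simp

theorem cob_alg (hb : Bas u b M) {Ω : Type} [Field Ω] [Algebra K Ω] (π : O →ₐ[K] Ω)
    (hπ : π u = 0) (a : O) : π a ∈ algebraicClosure K Ω := by
  classical
  have h : π.range.toSubmodule = Submodule.span K (Set.range fun i => π (b i)) := by
    refine le_antisymm ?_ (Submodule.span_le.2 ?_)
    · rintro _ ⟨z, rfl⟩
      obtain ⟨f, rfl⟩ := hb.span z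
      change π _ ∈ _
      rw [map_sum]
      refine Submodule.sum_mem _ fun i _ => ?_
      rw [map_mul, ← aeval_algHom_apply, hπ, ← coeff_zero_eq_aeval_zero', ← Algebra.smul_def]
      exact Submodule.smul_mem _ _ (Submodule.subset_span ⟨i, rfl⟩)
    · rintro _ ⟨i, rfl⟩
      exact ⟨b i, rfl⟩
  exact mem_algebraicClosure_iff'.2 (IsIntegral.of_mem_of_fg π.range
    (h ▸ Submodule.fg_span (Set.finite_range _)) _ ⟨a, rfl⟩)

theorem bottom [PerfectField K] (h : Pol C u ν) (hb : Bas u b M) {E Ω L S : Type} [Field E]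
    [Field Ω] [IsAlgClosed Ω] [Algebra K E] [Algebra K Ω] [Algebra E Ω] [IsScalarTower K E Ω]
    [Fintype L] [Fintype S] {r : L → E}
    (hr : LinearIndependent (algebraicClosure K Ω) fun l => algebraMap E Ω (r l)) {d : ℕ}
    {x : Fin (d + 1) → L → O}
    (hx : Ideal.span (Set.range fun q : Fin (d + 1) × L => x q.1 q.2) ⊔ Ideal.span {u} = ⊤)
    {p : S → O →ₐ[K] Ω} (hp : Function.Injective p) {n : ℕ} (hu : ∀ s, u ∈ RingHom.ker (p s) ^ n) :
    (nm M (zz K r x)).coeff 0 ≠ 0 ∧
      (∏ s, pz (fun l => algebraMap E Ω (r l)) fun i l => p s (x i l)) ^ n ∣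
        ((nm M (zz K r x)).coeff 0).map (algebraMap E Ω) := by
  classical
  obtain ⟨s, hs, hn⟩ := nm_zero h hb Ω
  have := C.ded Ω
  let F : (Ob K O Ω →ₐ[Ω] Ω) → Polynomial Ω := fun ρ =>
    pz (fun l => algebraMap E Ω (r l)) fun i l => ρ (io K Ω (x i l))
  have hA : ((nm M (zz K r x)).coeff 0).map (algebraMap E Ω) = (s.map F).prod := by
    refine Polynomial.funext fun τ => ?_
    have h1 := congrArg (fun q => q.coeff 0) (nm_bc (M := M)
      ((aeval τ : E[X] →ₐ[E] Ω).restrictScalars K) (zz K r x))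
    simp only [coeff_map] at h1
    rw [eval_map_algebraMap, eval_multiset_prod, Multiset.map_map]
    refine (Eq.symm h1).trans ((hn _).trans (congrArg _ (Multiset.map_congr rfl fun ρ _ => ?_)))
    simp only [zz, map_sum, bc, Algebra.TensorProduct.map_tmul, Function.comp, F, pz,
      eval_finsetSum, eval_monomial]
    refine Finset.sum_congr rfl fun i _ => Finset.sum_congr rfl fun l _ => ?_
    have e : ∀ (a : Ω) (y : O), ρ (a ⊗ₜ[K] y) = a * ρ (io K Ω y) := fun a y => by
      rw [← smul_eq_mul, ← map_smul]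
      simp [io, TensorProduct.smul_tmul']
    rw [e]
    simp [aeval_monomial, mul_right_comm]
  have hw : io K Ω u ≠ 0 := fun e => by
    have := C.cf_io (B := Ω) (-(ν : ℤ)) u
    rw [e, map_zero] at this
    exact h.ne ((map_eq_zero _).1 this.symm)
  have hB : ∀ ρ ∈ s, F ρ ≠ 0 := fun ρ hρ h0 => by
    have hd := Multiset.dvd_prod (Multiset.mem_map_of_mem (fun ρ => RingHom.ker ρ) hρ)
    rw [hs] at hd
    let π : O →ₐ[K] Ω := (ρ.restrictScalars K).comp (io K Ω)
    have hπ : π u = 0 := Ideal.le_of_dvd hd (Ideal.mem_span_singleton_self _)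
    have hz : ∀ i l, π (x i l) = 0 := fun i l => by
      have h2 := cob_coeff (fun l => algebraMap E Ω (r l)) (fun i l => π (x i l)) i
      have h3 : pz (fun l => algebraMap E Ω (r l)) (fun i l => π (x i l)) = 0 := h0
      rw [h3, coeff_zero] at h2
      have h4 := Fintype.linearIndependent_iff.1 hr
        (fun l => ⟨π (x i l), cob_alg hb π hπ _⟩) (by
          rw [h2]
          exact Finset.sum_congr rfl fun l _ => mul_comm _ _) l
      exact congrArg Subtype.val h4
    have h5 : (⊤ : Ideal O) ≤ RingHom.ker π := by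
      rw [← hx]
      refine sup_le (Ideal.span_le.2 ?_) ((Ideal.span_singleton_le_iff_mem _).2 hπ)
      rintro _ ⟨q, rfl⟩
      exact hz q.1 q.2
    have h6 : π 1 = 0 := h5 Submodule.mem_top
    simp at h6
  refine ⟨fun e => ?_, ?_⟩
  · rw [e, Polynomial.map_zero] at hA
    obtain ⟨ρ, hρ, h0⟩ := Multiset.mem_map.1 (Multiset.prod_eq_zero_iff.1 hA.symm)
    exact hB ρ hρ h0
  let ρ : S → Ob K O Ω →ₐ[Ω] Ω := fun t =>
    Algebra.TensorProduct.lift (AlgHom.id Ω Ω) (p t) fun _ _ => Commute.all _ _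
  have hρ : ∀ t a, ρ t (io K Ω a) = p t a := fun t a => by simp [ρ, io]
  have hi : Function.Injective ρ := fun t t' e => hp (AlgHom.ext fun a => by
    rw [← hρ, ← hρ, e])
  have hc : ∀ t, n ≤ s.count (ρ t) := fun t => by
    refine cob_count hw hs ?_
    have h1 := Ideal.mem_map_of_mem (io K Ω) (hu t)
    rw [Ideal.map_pow] at h1
    refine Ideal.pow_right_mono (Ideal.map_le_iff_le_comap.2 fun a ha => ?_) n h1
    exact (hρ t a).trans ha
  have hle : n • Finset.univ.val.map ρ ≤ s := by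
    refine Multiset.le_iff_count.2 fun a => ?_
    rw [Multiset.count_nsmul]
    by_cases ha : a ∈ Finset.univ.val.map ρ
    · obtain ⟨t, -, rfl⟩ := Multiset.mem_map.1 ha
      rw [Multiset.count_map_eq_count' _ _ hi, Multiset.count_univ, mul_one]
      exact hc t
    · rw [Multiset.count_eq_zero_of_notMem ha, mul_zero]
      exact Nat.zero_le _
  have h7 := Multiset.prod_dvd_prod_of_le (Multiset.map_le_map (f := F) hle)
  rw [Multiset.map_nsmul, Multiset.prod_nsmul, Multiset.map_map] at h7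
  rw [hA]
  refine (dvd_of_eq ?_).trans h7
  simp only [Finset.prod, Function.comp, F, hρ]

end Pool.Agent.Lib.MP_651af7_nt.Gm
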