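import Mathlib

/-! The content of a polynomial in two variables with respect to the outer variable. -/

namespace Pool.Agent.Lib.MP_651af7_nt.Gm

open Polynomial

theorem prim {E T : Type} [Field E] {N₀ : E[X][X]} (h0 : N₀.coeff 0 ≠ 0) {N' : T → E[X][X]}
    {A : E[X]} (hA : A ≠ 0) {A' : T → E[X]} (h : ∀ t, N' t * A.map C = (A' t).map C * N₀) :
    ∃ (c₀ : E[X]) (c : T → E[X]) (N : E[X][X]), c₀.coeff 0 ≠ 0 ∧ N₀ = c₀.map C * N ∧
      ∀ t, N' t = (c t).map C * N := by
  classical
  have e1 := (Bivariate.swap N₀).eq_C_content_mul_primPart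
  have hp := (Bivariate.swap N₀).isPrimitive_primPart
  generalize (Bivariate.swap N₀).content = c₀ at e1
  generalize (Bivariate.swap N₀).primPart = M at e1 hp
  have back : ∀ {a : E[X]} {F : E[X][X]}, Bivariate.swap F = C a * M →
      F = a.map C * Bivariate.swap M := fun {a F} e => by
    rw [← Bivariate.swap_swap_apply F, e, map_mul, Bivariate.swap_C]
  have h1 : ∀ t, ∃ c : E[X], Bivariate.swap (N' t) = C c * M := fun t => by
    have e2 := congrArg Bivariate.swap (h t)
    rw [map_mul, map_mul, Bivariate.swap_map_C, Bivariate.swap_map_C, e1, ← mul_assoc, ← C_mul,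
      mul_comm] at e2
    have e3 : A ∣ (C (A' t * c₀) * M).content := dvd_content_iff_C_dvd.2 ⟨_, e2.symm⟩
    rw [content_C_mul, hp.content_eq_one, mul_one, dvd_normalize_iff] at e3
    obtain ⟨c, hc⟩ := e3
    rw [hc, C_mul, mul_assoc] at e2
    exact ⟨c, mul_left_cancel₀ (C_ne_zero.2 hA) e2⟩
  choose c hc using h1
  refine ⟨c₀, c, Bivariate.swap M, fun e => h0 ?_, back e1, fun t => back (hc t)⟩
  rw [back e1, mul_coeff_zero, coeff_map, e, map_zero, zero_mul]

end Pool.Agent.Lib.MP_651af7_nt.Gm
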