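import Pool.Agent.Lib.MP_651af7_nt.Gm.CoU1

/-! A function with many zeros at the other points. -/

namespace Pool.Agent.Lib.MP_651af7_nt.Gm

open Polynomial Pool.Agent.HZ

variable {K Λ Ω S : Type} [Field K] [Field Λ] [Algebra K Λ] [Field Ω] [Algebra K Ω] {I : Inf K Λ}
  {M : IntermediateField K Λ} {θ : Λ} {σ : S → Λ →+* HahnSeries ℤ Ω}

theorem cou_exact {O : Type} [CommRing O] [Algebra K O] (C : Crv K O) {u : O} {e : ℕ}
    (h : u ∈ C.Le0 e) (h0 : u ∉ C.Le0 0) : ∃ ν ≤ e, Pol C u ν := by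
  induction e with
  | zero => exact absurd h h0
  | succ e ih =>
    by_cases k : C.c0 (-((e + 1 : ℕ) : ℤ)) u = 0
    · exact (ih (C.crv3_succ h k)).imp fun ν k => ⟨k.1.trans (Nat.le_succ e), k.2⟩
    · exact ⟨_, le_rfl, Nat.succ_pos e, h, k⟩

theorem exists_pol {O : Type} [CommRing O] [Algebra K O] (C : Crv K O) {J : Ideal O} (hJ : J ≠ ⊥) :
    FiniteDimensional K (O ⧸ J) ∧
      ∃ u ∈ J, ∃ ν, Pol C u ν ∧ ν ≤ Module.finrank K (O ⧸ J) + C.g0 + 1 := by
  have fin : FiniteDimensional K (O ⧸ J) := by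
    let e : Ob K O K ≃ₐ[K] O := Algebra.TensorProduct.lid K O
    have h : J.comap e ≠ ⊥ := fun h => hJ <| (Submodule.eq_bot_iff _).2 fun a ha => by
      have k : e.symm a ∈ J.comap e := by rwa [Ideal.mem_comap, e.apply_symm_apply]
      rw [h] at k
      exact e.symm.injective (k.trans (map_zero _).symm)
    have := C.fin_quot h
    exact Module.Finite.of_surjective (Ideal.quotientMapₐ (I := J.comap e) J
      (e : Ob K O K →ₐ[K] O) le_rfl).toLinearMap
      (Ideal.quotientMap_surjective (H := le_rfl) e.surjective)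
  refine ⟨fin, ?_⟩
  set s := Module.finrank K (O ⧸ J) + C.g0 + 1 with hs
  have := C.fin_Le0 s
  have := C.fin_Le0 0
  have h1 := Crv.cd_res_rank J (C.Le0 s)
  have h2 := Submodule.finrank_le (Crv.cd_res J (C.Le0 s)).range
  have h3 : s + 1 ≤ Module.finrank K (C.Le0 s) + C.g0 := C.le_nu s
  have h4 : Module.finrank K (C.Le0 0) ≤ 0 + 1 := C.nu_le 0
  obtain ⟨u, ⟨k1, k2⟩, k3⟩ := SetLike.not_le_iff_exists.1
    (show ¬ J.restrictScalars K ⊓ C.Le0 s ≤ C.Le0 0 from fun k => by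
      have := Submodule.finrank_mono k
      omega)
  obtain ⟨ν, k4, k5⟩ := cou_exact C k2 k3
  exact ⟨u, k1, ν, k5, k4⟩

theorem Plc.exists_u (P : Plc I M θ σ) [Fintype S] [FiniteDimensional M Λ]
    [IsFractionRing (Oo K I.V) Λ] (C : Crv K (Oo K I.V)) (hC : ∀ a, C.ι a = I.ι a)
    {p : S → Oo K I.V →ₐ[K] Ω} (hp : ∀ s a, p s a = (σ s a).coeff 0) (n : ℕ) :
    ∃ u ν, Pol C u ν ∧ ν + n ≤ n * Module.finrank M Λ + (C.g0 + 1) ∧
      ∀ s, u ∈ RingHom.ker (p s) ^ n := by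
  obtain ⟨h1, h2⟩ := P.cod C hC hp
  have := C.ded0
  generalize hJ : (⨅ s, RingHom.ker (p s)) = J at h1 h2
  have key : ∀ n, Module.finrank K (Oo K I.V ⧸ J ^ n) = n * Module.finrank K (Oo K I.V ⧸ J) :=
    fun n => by
      induction n with
      | zero =>
        have : Subsingleton (Oo K I.V ⧸ J ^ 0) :=
          Ideal.Quotient.subsingleton_iff.2 (by rw [pow_zero, Ideal.one_eq_top])
        rw [zero_mul, Module.finrank_zero_of_subsingleton]
      | succ n ih =>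
        have := (exists_pol C (mul_ne_zero (pow_ne_zero n h1) h1)).1
        rw [pow_succ, Crv.cd_gen_mul (pow_ne_zero n h1) h1, ih, Nat.succ_mul]
  obtain ⟨u, k1, ν, k2, k3⟩ := (exists_pol C (pow_ne_zero n h1)).2
  refine ⟨u, ν, k2, ?_, fun s => Ideal.pow_right_mono (hJ ▸ iInf_le _ s) n k1⟩
  have := Nat.mul_le_mul_left n h2
  rw [key] at k3
  rw [mul_add, mul_one] at this
  omega

end Pool.Agent.Lib.MP_651af7_nt.Gm
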