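import Pool.Agent.Lib.MP_651af7_nt.Gm.NmB
import Pool.Agent.Lib.MP_651af7_nt.Gm.CoB
import Pool.Agent.Lib.MP_651af7_nt.Gm.CoU
import Pool.Agent.Lib.MP_651af7_nt.Gm.CoD1

/-! The curve argument. -/

namespace Pool.Agent.Lib.MP_651af7_nt.Gm

open Polynomial Pool.Agent.HZ
open scoped TensorProduct

theorem cod_ext {E Ω : Type} [Field E] [Field Ω] [IsAlgClosed Ω] [Algebra E Ω] {p q : E[X]}
    (h : ∀ τ : Ω, aeval τ p = aeval τ q) : p = q :=
  map_injective _ (algebraMap E Ω).injective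
    (Polynomial.funext fun τ => by simpa only [eval_map_algebraMap] using h τ)

theorem cod_reg {k : Type} [Field k] {w v : HahnSeries ℤ k} (hv : ∀ n < 0, v.coeff n = 0)
    (h0 : v.coeff 0 ≠ 0) (h : ∀ n < 0, (w * v).coeff n = 0) : ∀ n < 0, w.coeff n = 0 := by
  by_cases h1 : ∀ i ≤ 0, w.coeff i = 0
  · exact fun n hn => h1 n hn.le
  obtain ⟨m, h2, h3⟩ := p7_ord h1
  by_cases h4 : m = 0
  · subst h4
    exact fun n hn => h3 n (by simpa using hn)
  have h5 := (p7_mul h3 hv).2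
  rw [h _ (by omega)] at h5
  exact absurd h5.symm (mul_ne_zero h2 h0)

theorem cod_pz {B L : Type} [CommRing B] [Fintype L] {d : ℕ} (r : L → B)
    (x : Fin (d + 1) → L → B) (e : B) : (pz r fun i l => e * x i l) = C e * pz r x := by
  simp only [pz, Finset.mul_sum, C_mul_monomial, mul_left_comm e]

section Tensor

variable {K O E L : Type} [Field K] [CommRing O] [Algebra K O] [Field E] [Algebra K E] [Fintype L]
  {d : ℕ}

theorem cod_cf (Cv : Crv K O) (r : L → E) (x : Fin (d + 1) → L → O) (j : ℤ) :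
    Cv.cf E[X] j (zz K r x) = pz r fun i l => algebraMap K E (Cv.c0 j (x i l)) := by
  simp only [zz, pz, map_sum, Crv.cf, lf_tmul, smul_monomial, Algebra.smul_def (A := E), mul_comm]

theorem cod_zz (r : L → E) (x : Fin (d + 1) → L → O) : zz K r x =
    ∑ i : Fin (d + 1), (X ^ (i : ℕ) : E[X]) • bc (CAlgHom : E →ₐ[K] E[X]) (z1 K r (x i)) := by
  refine Finset.sum_congr rfl fun i _ => ?_
  rw [z1, map_sum, Finset.smul_sum]
  refine Finset.sum_congr rfl fun l _ => ?_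
  change _ = (X ^ (i : ℕ) : E[X]) • (C (r l) ⊗ₜ[K] x i l)
  rw [TensorProduct.smul_tmul', smul_eq_mul, mul_comm, C_mul_X_pow_eq_monomial]

theorem cod_prop (r : L → E) {x x' : Fin (d + 1) → L → O} {a a' : Ob K O E}
    (h : ∀ i, z1 K r (x i) * a = a' * z1 K r (x' i)) :
    zz K r x * bc (CAlgHom : E →ₐ[K] E[X]) a = bc (CAlgHom : E →ₐ[K] E[X]) a' * zz K r x' := by
  rw [cod_zz, cod_zz, Finset.sum_mul, Finset.mul_sum]
  refine Finset.sum_congr rfl fun i _ => ?_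
  rw [smul_mul_assoc, mul_smul_comm, ← map_mul, ← map_mul, h i]

theorem cod_inj {Λ : Type} [Field Λ] [Algebra K Λ] (A : Subalgebra K Λ) :
    ∃ Φ : Ob K A E →ₐ[K] E ⊗[K] Λ, Function.Injective Φ ∧ ∀ (r : L → E) (x : L → A) (c : Λ)
      (y : L → Λ), (∀ l, (x l : Λ) = c * y l) →
      Φ (z1 K r x) = (1 : E) ⊗ₜ[K] c * ∑ l, r l ⊗ₜ[K] y l := by
  refine ⟨Algebra.TensorProduct.map (AlgHom.id K E) A.val, ?_, fun r x c y h => ?_⟩
  · exact Module.Flat.lTensor_preserves_injective_linearMap (M := E) A.val.toLinearMap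
      Subtype.val_injective
  · rw [z1, map_sum, Finset.mul_sum]
    refine Finset.sum_congr rfl fun l _ => ?_
    rw [Algebra.TensorProduct.map_tmul, Algebra.TensorProduct.tmul_mul_tmul, one_mul, ← h l]
    rfl

theorem cod_top {ν : ℕ} {Cv : Crv K O} {u : O} {b : Fin ν → O}
    {M : O →ₐ[K] Matrix (Fin ν) (Fin ν) K[X]} (h : Pol Cv u ν) (hb : Bas u b M) {γ : ℕ}
    (hγ : Cv.g0 ≤ γ) (Ω : Type) [Field Ω] [IsAlgClosed Ω] [Algebra K Ω] [Algebra E Ω]
    [IsScalarTower K E Ω] : ∃ κ : E, κ ≠ 0 ∧ ∀ z ∈ Cv.Le E[X] γ, (nm M z).natDegree ≤ γ ∧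
      (nm M z).coeff γ = C κ * Cv.cf E[X] (-(γ : ℤ)) z ^ ν := by
  obtain ⟨κ, h0, hκ⟩ := nm_top h hb hγ Ω
  refine ⟨algebraMap K E κ, (_root_.map_ne_zero _).2 h0, fun z hz => ?_⟩
  have key : ∀ τ : Ω, (∀ j, γ < j → aeval τ ((nm M z).coeff j) = 0) ∧
      aeval τ ((nm M z).coeff γ) =
        algebraMap K Ω κ * aeval τ (Cv.cf E[X] (-(γ : ℤ)) z) ^ ν := fun τ => by
    obtain ⟨h1, h2⟩ := hκ _ (Cv.bc_mem_Le ((aeval τ : E[X] →ₐ[E] Ω).restrictScalars K) hz)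
    rw [nm_bc] at h1 h2
    rw [coeff_map, Crv.cf_bc] at h2
    refine ⟨fun j hj => ?_, h2⟩
    have h3 := coeff_eq_zero_of_natDegree_lt (h1.trans_lt hj)
    rw [coeff_map] at h3
    exact h3
  refine ⟨natDegree_le_iff_coeff_eq_zero.2 fun j hj => cod_ext (Ω := Ω) fun τ => ?_,
    cod_ext (Ω := Ω) fun τ => ?_⟩
  · rw [(key τ).1 j hj, map_zero]
  · rw [(key τ).2, map_mul, map_pow, aeval_C, ← IsScalarTower.algebraMap_apply]

end Tensor

theorem cod_out {K E T L : Type} [Field K] [Field E] [Algebra K E] {r : L → E} {a : T → E[X]}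
    {ν Γ : ℕ} {κ : E} {c : T → E[X]} {N : E[X][X]} (hκ : κ ≠ 0) {t₀ : T} (h0 : a t₀ ≠ 0)
    (hN : N.coeff 0 ≠ 0) (hd : ∀ t, ((c t).map C * N).natDegree ≤ Γ)
    (ht : ∀ t, ((c t).map C * N).coeff Γ = C κ * a t ^ ν)
    (hm : ∀ t i j, (((c t).map C * N).coeff i).coeff j ∈ Submodule.span K (Set.range r) ^ ν) :
    ∃ γ δ D, Out K r a ν γ δ D κ c N := by
  have hN0 : N ≠ 0 := fun e => hN (by rw [e, coeff_zero])
  have h1 : ∀ t, c t ≠ 0 → (c t).natDegree + N.natDegree ≤ Γ := fun t e => by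
    have h2 := hd t
    rwa [natDegree_mul ((Polynomial.map_ne_zero_iff C_injective).2 e) hN0,
      natDegree_map_eq_of_injective C_injective] at h2
  have h2 : c t₀ ≠ 0 := fun e => by
    have h3 := ht t₀
    rw [e, Polynomial.map_zero, zero_mul, coeff_zero] at h3
    exact mul_ne_zero (C_ne_zero.2 hκ) (pow_ne_zero _ h0) h3.symm
  have h3 := h1 t₀ h2
  have h4 : ∀ t, (c t).natDegree ≤ Γ - N.natDegree := fun t => by
    by_cases e : c t = 0
    · simp [e]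
    · have := h1 t e
      omega
  refine ⟨Γ - N.natDegree, N.natDegree, N.support.sup fun i => (N.coeff i).natDegree, hκ, h4,
    le_rfl, fun i => ?_, hm, fun t => ?_, hN⟩
  · by_cases e : i ∈ N.support
    · exact Finset.le_sup (f := fun i => (N.coeff i).natDegree) e
    · simp [notMem_support_iff.1 e]
  · rw [← ht t, ← coeff_map C,
      ← coeff_mul_add_eq_of_natDegree_le (natDegree_map_le.trans (h4 t)) le_rfl,
      Nat.sub_add_cancel (by omega)]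

variable {K Λ E Ω S T L : Type} [Field K] [PerfectField K] [Field Λ] [Algebra K Λ] [Field E]
  [Field Ω] [IsAlgClosed Ω] [Algebra K E] [Algebra K Ω] [Algebra E Ω] [IsScalarTower K E Ω]
  [Fintype S] [Fintype T] [Fintype L] {I : Inf K Λ} {M : IntermediateField K Λ} {θ : Λ}
  {σ : S → Λ →+* HahnSeries ℤ Ω}

theorem core (hf : FF K Λ) (P : Plc I M θ σ) [FiniteDimensional M Λ] {r : L → E}
    (hr : LinearIndependent (algebraicClosure K Ω) fun l => algebraMap E Ω (r l)) {d : ℕ}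
    {y : T → Fin (d + 1) → L → Λ} (hy : ∀ t i l, y t i l ∈ I.V) {t₀ : T}
    (hσ : ∀ s i l, ∀ n < 0, (σ s (y t₀ i l)).coeff n = 0)
    (hne : ∀ s, ∃ i l, (σ s (y t₀ i l)).coeff 0 ≠ 0)
    (h0 : pz r (fun i l => algebraMap K E ((I.ι (y t₀ i l)).coeff 0)) ≠ 0)
    (hp : ∀ t i i', (∑ l, r l ⊗ₜ[K] y t i l) * (∑ l, r l ⊗ₜ[K] y t₀ i' l) =
      (∑ l, r l ⊗ₜ[K] y t i' l) * ∑ l, r l ⊗ₜ[K] y t₀ i l) :
    ∃ g₀ : ℕ, ∀ n : ℕ, ∃ (ν γ δ D : ℕ) (κ : E) (c : T → E[X]) (N : E[X][X]),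
      ν + n ≤ n * Module.finrank M Λ + g₀ ∧
      Out K r (fun t => pz r fun i l => algebraMap K E ((I.ι (y t i l)).coeff 0)) ν γ δ D κ c N ∧
      (∏ s, pz (fun l => algebraMap E Ω (r l)) fun i l => (σ s (y t₀ i l)).coeff 0) ^ n ∣
        (N.coeff 0).map (algebraMap E Ω) := by
  obtain ⟨hfr, Cv, hC⟩ := I.exists_crv hf
  have := Cv.ded0
  obtain ⟨p, hpi, hps⟩ := P.exists_pts Cv
  obtain ⟨Γ, c₁, x, hΓ, hx⟩ := exists_lam Cv hC
    (y := fun q : T × Fin (d + 1) × L => y q.1 q.2.1 q.2.2) fun q => hy _ _ _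
  have hy0 : (fun q : Fin (d + 1) × L => y t₀ q.1 q.2) ≠ 0 := fun e => h0 (by
    have e' : ∀ i l, y t₀ i l = 0 := fun i l => congrFun e (i, l)
    simp [pz, e'])
  obtain ⟨Φ, hΦ, hΦz⟩ := cod_inj (E := E) (L := L) (Oo K I.V)
  refine ⟨Cv.g0 + 1, fun n => ?_⟩
  obtain ⟨u, ν, hu, hν, hun⟩ := P.exists_u Cv hC hps n
  obtain ⟨b, Mx, hb⟩ := exists_bas hu
  have hu0 : u ≠ 0 := fun e => hu.ne (by rw [e, map_zero])
  obtain ⟨c', x', hx', hcop⟩ := exists_cop (O := Oo K I.V) hy0 hu0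
  obtain ⟨hb0, hb1⟩ := bottom hu hb hr (x := fun i l => x' (i, l)) hcop hpi hun
  obtain ⟨i₀, hi₀⟩ : ∃ i₀, z1 K r (fun l => x' (i₀, l)) ≠ 0 := by
    by_contra e
    push Not at e
    have e1 : zz K r (fun i l => x' (i, l)) = (0 : E[X]) • (0 : Ob K (Oo K I.V) E[X]) := by
      simp [cod_zz, e]
    rw [e1, nm_smul, zero_pow hu.pos.ne'] at hb0
    simp at hb0
  obtain ⟨g, hg⟩ := Cv.exists_Eg hi₀
  have hA := (nm_deg hu hb hg).1
  have hprop : ∀ t, nm Mx (zz K r fun i l => x (t, i, l)) *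
      (nm Mx (z1 K r fun l => x' (i₀, l))).map C =
      (nm Mx (z1 K r fun l => x (t, i₀, l))).map C * nm Mx (zz K r fun i l => x' (i, l)) := by
    intro t
    have h1 := congrArg (nm Mx) (cod_prop r (x := fun i l => x (t, i, l))
      (x' := fun i l => x' (i, l)) (a := z1 K r fun l => x' (i₀, l))
      (a' := z1 K r fun l => x (t, i₀, l)) fun i => hΦ (by
        rw [map_mul, map_mul, hΦz r _ c₁ (y t i) fun l => (hx (t, i, l)).1,
          hΦz r _ c₁ (y t i₀) fun l => (hx (t, i₀, l)).1,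
          hΦz r _ c' (y t₀ i₀) fun l => hx' (i₀, l), hΦz r _ c' (y t₀ i) fun l => hx' (i, l),
          mul_mul_mul_comm, hp t i i₀, mul_mul_mul_comm]))
    rw [nm_mul, nm_mul, nm_bc, nm_bc] at h1
    exact h1
  obtain ⟨c₀, c, N, hc₀, hN₀, hN⟩ := prim hb0 hA hprop
  obtain ⟨κ, hκ, htop⟩ := cod_top (E := E) hu hb hΓ Ω
  have hle : ∀ t, (zz K r fun i l => x (t, i, l)) ∈ Cv.Le E[X] Γ := fun t =>
    Cv.mem_Le.2 fun j hj => by
      simp [cod_cf, pz, fun q => Cv.mem_Le0.1 (hx q).2.1 j hj]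
  have hz : (nm Mx (zz K r fun i l => x' (i, l))).coeff 0 = C (c₀.coeff 0) * N.coeff 0 := by
    rw [hN₀, mul_coeff_zero, coeff_map]
  obtain ⟨γ, δ, D, hout⟩ := cod_out (K := K) (r := r) (ν := ν) (Γ := Γ) (c := c) (N := N)
    (a := fun t => pz r fun i l => algebraMap K E ((I.ι (y t i l)).coeff 0)) hκ h0
    (right_ne_zero_of_mul (hz ▸ hb0)) (fun t => hN t ▸ (htop _ (hle t)).1)
    (fun t => by
      rw [← hN t, (htop _ (hle t)).2, cod_cf]
      simp only [fun q => (hx q).2.2])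
    fun t i j => hN t ▸ (nm_mem r _ i).2 j
  refine ⟨ν, γ, δ, D, κ, c, N, hν, hout, ?_⟩
  rw [hz, Polynomial.map_mul, map_C,
    (isUnit_C.2 ((_root_.map_ne_zero _).2 hc₀).isUnit).dvd_mul_left] at hb1
  refine (pow_dvd_pow_of_dvd (Finset.prod_dvd_prod_of_dvd _ _ fun s _ => ?_) n).trans hb1
  have hm : ∀ q : Fin (d + 1) × L, σ s (x' q) = σ s c' * σ s (y t₀ q.1 q.2) := fun q => by
    rw [← map_mul, ← hx' q]
    rfl
  obtain ⟨i, l, hil⟩ := hne s
  have hreg := cod_reg (hσ s i l) hil (hm (i, l) ▸ P.reg_O s (x' (i, l)))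
  refine Dvd.intro_left (C ((σ s c').coeff 0)) ?_
  rw [← cod_pz]
  refine congrArg _ (funext fun i => funext fun l => ?_)
  have h1 := (p7_mul hreg (hσ s i l)).2
  rw [add_zero] at h1
  rw [hps, hm (i, l), h1]

end Pool.Agent.Lib.MP_651af7_nt.Gm
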