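import Pool.Agent.Lib.MP_651af7_nt.Gm.CoA

/-! The colength of the ideal of the other points. -/

namespace Pool.Agent.Lib.MP_651af7_nt.Gm

open Polynomial Pool.Agent.HZ

variable {K Λ Ω S : Type} [Field K] [Field Λ] [Algebra K Λ] [Field Ω] [Algebra K Ω] {I : Inf K Λ}
  {M : IntermediateField K Λ} {θ : Λ} {σ : S → Λ →+* HahnSeries ℤ Ω}

theorem cou1_mul (P : Plc I M θ σ) (s : S) {z : Λ} (hz : z ∈ M) (hV : z ∈ I.V) (a : Oo K I.V) :
    (σ s (z * a)).coeff 0 = algebraMap K Ω ((I.ι z).coeff 0) * (σ s a).coeff 0 := by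
  have h := (p7_mul (x := σ s z) (i := 0) (fun n hn => by
    rw [P.fix s z hz, (I.mem z).1 hV n hn, map_zero]) (P.reg_O s a)).2
  rwa [add_zero, ← map_mul, P.fix s z hz] at h

theorem cou1_scale {T : Type} [Fintype T] (V : ValuationSubring Λ) {g : T → Λ} {i : T}
    (hi : g i ≠ 0) : ∃ j, g j ≠ 0 ∧ ∀ l, g l / g j ∈ V := by
  obtain ⟨j, -, hj⟩ := Finset.exists_max_image Finset.univ (fun l => V.valuation (g l))
    ⟨i, Finset.mem_univ i⟩
  have h0 : V.valuation (g j) ≠ 0 := fun h =>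
    hi ((map_eq_zero _).1 (le_antisymm (h ▸ hj i (Finset.mem_univ i)) zero_le))
  refine ⟨j, fun h => h0 (by rw [h, map_zero]), fun l => (V.valuation_le_one_iff _).1 ?_⟩
  rw [map_div₀]
  exact div_le_one_of_le₀ (hj l (Finset.mem_univ l)) zero_le

theorem Plc.cod (P : Plc I M θ σ) [Fintype S] [FiniteDimensional M Λ]
    [IsFractionRing (Oo K I.V) Λ] (C : Crv K (Oo K I.V)) (hC : ∀ a, C.ι a = I.ι a)
    {p : S → Oo K I.V →ₐ[K] Ω} (hp : ∀ s a, p s a = (σ s a).coeff 0) :
    (⨅ s, RingHom.ker (p s)) ≠ ⊥ ∧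
      Module.finrank K (Oo K I.V ⧸ ⨅ s, RingHom.ker (p s)) + 1 ≤ Module.finrank M Λ := by
  classical
  have hc : ∀ i a, C.c0 i a = (I.ι a).coeff i := fun i a => congrArg (·.coeff i) (hC a)
  obtain ⟨a, ha, a0⟩ : ∃ a ∈ ⨅ s, RingHom.ker (p s), a ≠ 0 := by
    obtain ⟨π, h1, h2⟩ := P.uni
    obtain ⟨x, y, hy, e⟩ := IsFractionRing.div_surjective (A := Oo K I.V) π
    have h3 : (y : Λ) ≠ 0 := fun h => nonZeroDivisors.ne_zero hy (Subtype.ext h)
    have h4 : (x : Λ) = π * y := (div_eq_iff h3).1 e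
    have h5 : π ∈ I.V := (I.mem π).2 fun n hn => by
      rw [h2, HahnSeries.coeff_single_of_ne (by omega)]
    refine ⟨x, Ideal.mem_iInf.2 fun s => ?_, fun h => ?_⟩
    · rw [RingHom.mem_ker, hp, h4, cou1_mul P s h1 h5, h2,
        HahnSeries.coeff_single_of_ne zero_ne_one, map_zero, zero_mul]
    · rw [h, ZeroMemClass.coe_zero, eq_comm, mul_eq_zero, or_iff_left h3] at h4
      rw [h4, map_zero] at h2
      exact HahnSeries.single_ne_zero one_ne_zero h2.symm
  refine ⟨fun h => a0 (by rwa [h] at ha), ?_⟩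
  obtain ⟨f, hf⟩ := exists_linearIndependent_of_le_finrank
    (le_refl (Module.finrank K (Oo K I.V ⧸ ⨅ s, RingHom.ker (p s))))
  choose x hx using fun i => Ideal.Quotient.mk_surjective (f i)
  choose e he using fun i => C.exists_Le0 (x i)
  obtain ⟨m, m1, m2⟩ := p7_pole C a0
  obtain ⟨N, hN⟩ : ∃ N, N = C.g0 + ∑ i, e i + 1 := ⟨_, rfl⟩
  obtain ⟨b, b1, b2⟩ := C.exists_mono (s := N) (by omega)
  have hw : (I.ι (a * b : Oo K I.V)).coeff (-(m : ℤ) + -(N : ℤ)) ≠ 0 := by
    rw [MulMemClass.coe_mul, map_mul, (p7_mul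
      (fun n hn => (hc n a).symm.trans (C.mem_Le0.1 m1 n hn))
      fun n hn => (hc n b).symm.trans (C.mem_Le0.1 b1 n hn)).2, ← hc, ← hc, b2, mul_one]
    exact m2
  let y : Option _ → Oo K I.V := fun o => o.elim (a * b) x
  have hli : LinearIndependent M fun o => (y o : Λ) := by
    refine Fintype.linearIndependent_iff.2 fun g hg i => ?_
    by_contra hi
    obtain ⟨j, j0, hj⟩ := cou1_scale I.V (g := fun o => (g o : Λ)) (i := i)
      fun h => hi (Subtype.ext h)
    have hM : ∀ l, (g l : Λ) / g j ∈ M := fun l => div_mem (g l).2 (g j).2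
    have h1 : ∑ l, (g l : Λ) / g j * y l = 0 := by
      simp only [div_mul_eq_mul_div, ← Finset.sum_div]
      exact div_eq_zero_iff.2 (.inl hg)
    have h2 : ∀ l, (I.ι ((g (some l) : Λ) / g j)).coeff 0 = 0 := by
      refine Fintype.linearIndependent_iff.1 hf _ ?_
      simp only [← hx, ← Ideal.Quotient.mkₐ_eq_mk K, ← map_smul, ← map_sum]
      refine Ideal.Quotient.eq_zero_iff_mem.2 (Ideal.mem_iInf.2 fun s => ?_)
      have h3 := congrArg (fun z => (σ s z).coeff 0) h1
      simp only [map_sum, HahnSeries.coeff_sum, cou1_mul P s (hM _) (hj _), ← hp, map_zero,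
        HahnSeries.coeff_zero] at h3
      have h4 : p s (y none) = 0 := Ideal.mul_mem_right b _ (Ideal.mem_iInf.1 ha s)
      rw [Fintype.sum_option, h4, mul_zero, zero_add] at h3
      rw [RingHom.mem_ker, map_sum, ← h3]
      exact Finset.sum_congr rfl fun l _ => by rw [map_smul, Algebra.smul_def]; rfl
    obtain _ | j := j
    · have h3 := congrArg (fun z => (I.ι z).coeff (-(m : ℤ) + -(N : ℤ))) h1
      simp only [Fintype.sum_option, div_self j0, one_mul, map_add, map_sum, map_zero,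
        HahnSeries.coeff_add, HahnSeries.coeff_sum, HahnSeries.coeff_zero] at h3
      rw [Finset.sum_eq_zero fun l _ => ?_, add_zero] at h3
      · exact hw h3
      rw [map_mul]
      refine (p7_mul ((I.mem _).1 (hj _))
        fun n hn => (hc n (x l)).symm.trans (C.mem_Le0.1 (he l) n hn)).1 _ ?_
      have := Finset.single_le_sum (fun i _ => Nat.zero_le (e i)) (Finset.mem_univ l)
      omega
    · have h3 := h2 j
      rw [div_self j0, map_one, HahnSeries.coeff_one, if_pos rfl] at h3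
      exact one_ne_zero h3
  simpa using hli.fintype_card_le_finrank

end Pool.Agent.Lib.MP_651af7_nt.Gm
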