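import Mathlib

/-! Lifting embeddings to power series. -/

namespace Pool.Agent.Lib.MP_651af7_nt.Gm

open PowerSeries

theorem exists_lift {R L F : Type} [Field R] [Field L] [Field F] [Algebra R L]
    [Algebra.IsSeparable R L] (φ : R →+* F⟦X⟧) (τ : L →+* F)
    (h : ∀ x, constantCoeff (φ x) = τ (algebraMap R L x)) :
    ∃ j : L →+* F⟦X⟧, (∀ x, j (algebraMap R L x) = φ x) ∧ ∀ x, constantCoeff (j x) = τ x := by
  let : Algebra R F⟦X⟧ := φ.toAlgebra
  have : Algebra.FormallyEtale R L := Algebra.FormallyEtale.of_isSeparable R L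
  have key : ∀ p q : F⟦X⟧, Ideal.Quotient.mk (Ideal.span {(X : F⟦X⟧)}) p =
      Ideal.Quotient.mk (Ideal.span {(X : F⟦X⟧)}) q ↔ constantCoeff p = constantCoeff q := by
    intro p q
    rw [Ideal.Quotient.eq, Ideal.mem_span_singleton, X_dvd_iff, map_sub, sub_eq_zero]
  let f : L →ₐ[R] F⟦X⟧ ⧸ Ideal.span {(X : F⟦X⟧)} :=
    { ((Ideal.Quotient.mk _).comp (C : F →+* F⟦X⟧)).comp τ with
      commutes' := fun x => by
        change Ideal.Quotient.mk _ (C (τ (algebraMap R L x))) = Ideal.Quotient.mk _ (φ x)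
        rw [key, constantCoeff_C, h] }
  obtain ⟨g, hg⟩ := Algebra.FormallySmooth.exists_mkₐ_comp_eq_of_isAdicComplete f
  refine ⟨g.toRingHom, fun x => g.commutes x, fun x => ?_⟩
  have h1 : Ideal.Quotient.mk _ (g x) = Ideal.Quotient.mk _ (C (τ x)) := AlgHom.congr_fun hg x
  rw [key, constantCoeff_C] at h1
  exact h1

theorem exists_line {k L F : Type} [Field k] [CharZero k] [Field L] [Field F] [Algebra k L]
    [Algebra L F] [Algebra k F] [IsScalarTower k L F] {d : ℕ} {α : Fin d → L}
    (hα : IsTranscendenceBasis k α) (c : Fin d → F) : ∃ j : L →ₐ[k] F⟦X⟧,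
      (∀ i, j (α i) = C (algebraMap L F (α i)) + C (c i) * X) ∧
      ∀ x, constantCoeff (j x) = algebraMap L F x := by
  let P := MvPolynomial (Fin d) k
  let ψ : P →ₐ[k] F⟦X⟧ := MvPolynomial.aeval fun i => C (algebraMap L F (α i)) + C (c i) * X
  have hX : ∀ i, ψ (MvPolynomial.X i) = C (algebraMap L F (α i)) + C (c i) * X :=
    fun i => MvPolynomial.aeval_X _ i
  have hψ : ∀ p : P, constantCoeff (ψ p) = algebraMap L F (MvPolynomial.aeval α p) := by
    intro p
    induction p using MvPolynomial.induction_on with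
    | C a =>
      have h1 : ψ (MvPolynomial.C a) = algebraMap k F⟦X⟧ a := ψ.commutes a
      rw [h1, MvPolynomial.aeval_C, ← IsScalarTower.algebraMap_apply,
        PowerSeries.algebraMap_apply, constantCoeff_C]
    | add p q hp hq => simp only [map_add, hp, hq]
    | mul_X p i hp =>
      rw [map_mul, map_mul, hp, hX, map_mul, map_mul, MvPolynomial.aeval_X]
      simp
  have hu : ∀ y : nonZeroDivisors P, IsUnit (ψ.toRingHom y) := by
    intro y
    rw [isUnit_iff_constantCoeff, isUnit_iff_ne_zero]
    change constantCoeff (ψ y) ≠ 0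
    rw [hψ, map_ne_zero, map_ne_zero_iff _ (algebraicIndependent_iff_injective_aeval.2 hα.1)]
    exact nonZeroDivisors.ne_zero y.2
  let K := IntermediateField.adjoin k (Set.range α)
  let e : FractionRing P ≃ₐ[k] K := hα.1.aevalEquivField
  let φ0 : FractionRing P →+* F⟦X⟧ := IsLocalization.lift hu
  have hφ0 : ∀ p : P, φ0 (algebraMap P _ p) = ψ p := fun p => IsLocalization.lift_eq hu p
  have he : ∀ p : P, algebraMap K L (e (algebraMap P _ p)) = MvPolynomial.aeval α p :=
    fun p => hα.1.aevalEquivField_algebraMap_apply_coe p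
  have hc : (constantCoeff (R := F)).comp φ0 =
      ((algebraMap L F).comp (algebraMap K L)).comp e.toRingEquiv.toRingHom := by
    refine IsLocalization.ringHom_ext (nonZeroDivisors P) (RingHom.ext fun p => ?_)
    change constantCoeff (φ0 (algebraMap P _ p)) =
      algebraMap L F (algebraMap K L (e (algebraMap P _ p)))
    rw [hφ0, hψ, he]
  have : Algebra.IsAlgebraic K L := hα.isAlgebraic_field
  have : CharZero K := algebraRat.charZero K
  obtain ⟨j, hj1, hj2⟩ := exists_lift (φ0.comp e.symm.toRingEquiv.toRingHom) (algebraMap L F)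
    fun x => by
      have h1 := RingHom.congr_fun hc (e.symm x)
      change constantCoeff (φ0 (e.symm x)) = algebraMap L F (algebraMap K L (e (e.symm x))) at h1
      rw [e.apply_symm_apply] at h1
      exact h1
  have hj : ∀ p : P, j (MvPolynomial.aeval α p) = ψ p := by
    intro p
    rw [← he, hj1]
    change φ0 (e.symm (e _)) = _
    rw [e.symm_apply_apply, hφ0]
  refine ⟨{ j with commutes' := fun a => ?_ }, fun i => ?_, hj2⟩
  · have h1 := hj (algebraMap k P a)
    rw [AlgHom.commutes, AlgHom.commutes] at h1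
    exact h1
  · have h1 := hj (MvPolynomial.X i)
    rw [MvPolynomial.aeval_X, hX] at h1
    exact h1

end Pool.Agent.Lib.MP_651af7_nt.Gm
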