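import Pool.Agent.Lib.MP_651af7_nt.Nc.IDefs

/-! Generic points and linear independence. -/

namespace Pool.Agent.Lib.MP_651af7_nt.Gm

open MvPolynomial Av
open IntermediateField (adjoin)
open scoped IntermediateField

theorem td_union_adjoin {K F : Type} [Field K] [Field F] [Algebra K F] (S T : Set F) :
    td K (S ∪ T) ≤ td K S + td (adjoin K S) T := by
  obtain ⟨L, hL, hS⟩ := tr_cl (K := K) S
  let _ := (IntermediateField.inclusion (IntermediateField.adjoin_le_iff.2 hS)).toAlgebra
  have : IsScalarTower (adjoin K S) L F := .of_algebraMap_eq fun _ => rfl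
  exact (Sh.td_tower hL T).trans (add_le_add_right (td_le_of_tower T) _)

variable {k ι F F' Ω β : Type} [Field k] [Finite ι] [Field F] [Field F'] [Field Ω] [Algebra k F]
  [Algebra k F'] [Algebra k Ω] [Algebra F F'] [Algebra F Ω] [Algebra F' Ω] [IsScalarTower k F F']
  [IsScalarTower k F Ω] [IsScalarTower k F' Ω] [IsScalarTower F F' Ω] {B : AV k ι} {v : ι → Ω}

/-- The coordinates of an element of an extended ideal lie in the ideal. -/
theorem fla_core {F F' β σ : Type} [Field F] [Field F'] [Algebra F F'] {b : β → F'}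
    (hb : LinearIndependent F b) {s : Finset β} {P : s → MvPolynomial σ F}
    {J : Ideal (MvPolynomial σ F)}
    (h : ∑ i, C (b i.1) * map (algebraMap F F') (P i) ∈ J.map (map (algebraMap F F'))) (i : s) :
    P i ∈ J := by
  classical
  obtain ⟨g, hg⟩ := LinearMap.exists_leftInverse_of_injective (Finsupp.linearCombination F b)
    (LinearMap.ker_eq_bot.2 hb)
  have h1 : ∀ j, g (b j) = Finsupp.single j 1 := fun j => by
    simpa using LinearMap.congr_fun hg (Finsupp.single j 1)
  convert trCw_mem ((Finsupp.lapply i.1).comp g) h using 1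
  ext μ
  simp only [coeff_trCw, coeff_sum, coeff_C_mul, coeff_map, mul_comm (b _), ← Algebra.smul_def,
    map_sum, map_smul, LinearMap.comp_apply, h1, Finsupp.lapply_apply, Finsupp.single_apply,
    Subtype.val_inj, smul_eq_mul, mul_ite, mul_one, mul_zero, Finset.sum_ite_eq', Finset.mem_univ,
    if_true]

omit [Finite ι] [IsScalarTower k F' Ω] in
theorem ind_gen (h1 : ∃ a, v a = 1) (hz : ∀ f ∈ B.I, aeval v f = 0) (hg : Gen (B.IK F') v)
    {b : β → F'} (hb : LinearIndependent F b) :
    LinearIndependent (adjoin F (Set.range v)) fun i => algebraMap F' Ω (b i) := by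
  rw [linearIndependent_iff']
  intro s z h0 i hi
  obtain ⟨e, A, Q, hA, -, hQ, h⟩ := Nc.frac h1 fun j : s => z j
  have h2 : ∑ j : s, C (b j) * map (algebraMap F F') (A j) ∈ B.IK F' :=
    hg _ e (IsHomogeneous.sum _ _ _ fun j _ => ((hA j).map _).C_mul _) (by
      rw [← Finset.sum_coe_sort] at h0
      rw [← mul_zero (aeval v Q), ← h0, map_sum, Finset.mul_sum]
      refine Finset.sum_congr rfl fun j _ => ?_
      rw [map_mul, aeval_C, aeval_map_algebraMap, h, Algebra.smul_def, mul_comm, mul_assoc]
      rfl)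
  have h3 : B.IK F' = (B.IK F).map (map (algebraMap F F')) := by
    rw [AV.IK, AV.IK, Ideal.map_map]
    congr 1
    exact RingHom.ext fun q => by
      rw [RingHom.comp_apply, MvPolynomial.map_map, ← IsScalarTower.algebraMap_eq]
  have h4 := B.tr_zero_IK hz _ (fla_core hb (h3 ▸ h2) ⟨i, hi⟩)
  rw [h] at h4
  exact Subtype.ext ((mul_eq_zero.1 h4).resolve_left hQ)

omit [Algebra k F] [Algebra k F'] [Algebra k Ω] [IsScalarTower k F F'] [IsScalarTower k F Ω]
  [IsScalarTower k F' Ω] in
open scoped IntermediateField.algebraAdjoinAdjoin in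
theorem ind_tr {σ : Type} {w : σ → Ω} (hw : AlgebraicIndependent F' w) {b : β → F'}
    (hb : LinearIndependent F b) :
    LinearIndependent (adjoin F (Set.range w)) fun i => algebraMap F' Ω (b i) := by
  rw [← LinearIndependent.iff_fractionRing (Algebra.adjoin F (Set.range w)), linearIndependent_iff']
  intro s z h0 i hi
  choose A h using fun j : s => (Algebra.adjoin_range_eq_range_aeval F w).le (z j).2
  have h2 : ∑ j : s, C (b j) * map (algebraMap F F') (A j) = 0 := hw (by
    rw [← Finset.sum_coe_sort] at h0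
    rw [map_zero, ← h0, map_sum]
    refine Finset.sum_congr rfl fun j _ => ?_
    rw [map_mul, aeval_C, aeval_map_algebraMap, Algebra.smul_def, mul_comm]
    exact congrArg (· * _) (h j))
  have h4 : A ⟨i, hi⟩ = 0 := fla_core (J := ⊥) hb (h2 ▸ zero_mem _) ⟨i, hi⟩
  exact Subtype.ext ((h ⟨i, hi⟩).symm.trans (by rw [h4, map_zero]; rfl))

/-- Independence of the powers of a root gives irreducibility. -/
theorem fla_irr {F Ω σ : Type} [Field F] [Field Ω] [Algebra F Ω] {w : σ → Ω} {p : Polynomial F}
    (hp : Irreducible p)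
    (H : ∀ θ : AlgebraicClosure Ω, IsIntegral F θ → ∀ (n : ℕ) (b : Fin n → F⟮θ⟯),
      LinearIndependent F b → LinearIndependent
        (adjoin F (Set.range fun a => algebraMap Ω (AlgebraicClosure Ω) (w a)))
        fun i => algebraMap F⟮θ⟯ (AlgebraicClosure Ω) (b i)) :
    Irreducible (p.map (algebraMap F (adjoin F (Set.range w)))) := by
  obtain ⟨θ, hθ⟩ := IsAlgClosed.exists_aeval_eq_zero (AlgebraicClosure Ω) p
    (Polynomial.degree_pos_of_irreducible hp).ne'
  have h1 : IsIntegral F θ := (show IsAlgebraic F θ from ⟨p, hp.ne_zero, hθ⟩).isIntegral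
  have h2 := (H θ h1 _ _ (linearIndependent_pow
    (IntermediateField.AdjoinSimple.gen F θ))).map_of_injective_injective
    (R' := adjoin F (Set.range w)) (fun z => ⟨algebraMap Ω _ z.1, by
      have h3 := (IntermediateField.adjoin_map F (Set.range w)
        (IsScalarTower.toAlgHom F Ω (AlgebraicClosure Ω))).le ⟨z.1, z.2, rfl⟩
      rwa [← Set.range_comp] at h3⟩) (AddMonoidHom.id _)
    (fun z hz => Subtype.ext ((map_eq_zero _).1 (congrArg Subtype.val hz))) (fun _ h => h)
    fun _ _ => by simp only [AddMonoidHom.id_apply, Algebra.smul_def]; rfl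
  have h3 : IsIntegral (adjoin F (Set.range w)) θ := h1.tower_top
  have h4 : p.natDegree = (minpoly F θ).natDegree := Polynomial.natDegree_eq_of_degree_eq
    (Polynomial.degree_eq_degree_of_associated (minpoly.irreducible h1 |>.associated_of_dvd hp
      (minpoly.dvd F θ hθ))).symm
  refine (Polynomial.associated_of_dvd_of_natDegree_le (minpoly.dvd _ θ (by
    rw [Polynomial.aeval_map_algebraMap, hθ])) (Polynomial.map_ne_zero hp.ne_zero) ?_).irreducible
    (minpoly.irreducible h3)
  rw [Polynomial.natDegree_map, h4, ← IntermediateField.minpoly_gen]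
  by_contra! hlt
  have h5 := minpoly.aeval (adjoin F (Set.range w)) θ
  rw [Polynomial.aeval_eq_sum_range' hlt, Finset.sum_range] at h5
  exact one_ne_zero ((minpoly.monic h3).coeff_natDegree.symm.trans
    (Fintype.linearIndependent_iff.1 h2 _ (by simpa using h5) ⟨_, hlt⟩))

theorem irr_gen (h1 : ∃ a, v a = 1) (hz : ∀ f ∈ B.I, aeval v f = 0) (hg : td F (rat v) = B.dim)
    {p : Polynomial F} (hp : Irreducible p) :
    Irreducible (p.map (algebraMap F (adjoin F (Set.range v)))) := by
  refine fla_irr hp fun θ hθ n b hb => ?_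
  have := IntermediateField.adjoin.finiteDimensional hθ
  have : IsScalarTower k F⟮θ⟯ (AlgebraicClosure Ω) := .of_algebraMap_eq fun _ => rfl
  obtain ⟨a, ha⟩ := h1
  have h2 : algebraMap Ω (AlgebraicClosure Ω) (v a) = 1 := by rw [ha, map_one]
  have h3 : ∀ f ∈ B.I, aeval (fun a => algebraMap Ω (AlgebraicClosure Ω) (v a)) f = 0 :=
    fun f hf => (aeval_algebraMap_apply _ v f).trans (by rw [hz f hf, map_zero])
  refine ind_gen ⟨a, h2⟩ h3 ((B.gen_iff (fun h => one_ne_zero (h2.symm.trans (congrFun h a)))
    h3).2 ?_) hb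
  rw [td_eq_of_isAlgebraic (K := F), ← hg,
    ← td_image (IsScalarTower.toAlgHom F Ω (AlgebraicClosure Ω)), rat, rat, ← Set.range_comp]
  exact congrArg _ (congrArg _ (funext fun q => (map_div₀ _ _ _).symm))

omit [Algebra k F] [Algebra k Ω] [IsScalarTower k F Ω] in
theorem irr_tr {σ : Type} {w : σ → Ω} (hw : AlgebraicIndependent F w) {p : Polynomial F}
    (hp : Irreducible p) : Irreducible (p.map (algebraMap F (adjoin F (Set.range w)))) := by
  refine fla_irr hp fun θ hθ n b hb => ?_
  have := IntermediateField.adjoin.finiteDimensional hθ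
  exact ind_tr ((hw.map' (f := IsScalarTower.toAlgHom F Ω (AlgebraicClosure Ω))
    (algebraMap Ω _).injective).extendScalars _) hb

end Pool.Agent.Lib.MP_651af7_nt.Gm
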