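import Pool.Agent.Lib.MP_651af7_nt.Gm.DfB1
import Pool.Agent.Lib.MP_651af7_nt.Gm.FlA

/-! The deformed field keeps its degree. -/

namespace Pool.Agent.Lib.MP_651af7_nt.Gm

open Av PowerSeries
open IntermediateField (adjoin)

theorem il_indep {K F ι : Type} [Field K] [Field F] [Algebra K F] [Fintype ι] {w : ι → F}
    (h : (Fintype.card ι : ℕ∞) ≤ td K (Set.range w)) : AlgebraicIndependent K w := by
  obtain ⟨σ, j, hj, h1, h2, -⟩ := exists_td_basis_range K w
  have : Finite σ := .of_injective j hj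
  have := Fintype.ofFinite σ
  rw [← h2, ENat.card_eq_coe_fintype_card, Nat.cast_le] at h
  have h3 := (Fintype.bijective_iff_injective_and_card j).2
    ⟨hj, le_antisymm (Fintype.card_le_of_injective j hj) h⟩
  exact (algebraicIndependent_equiv (Equiv.ofBijective j h3)).1 h1

theorem il_core {k L₁ L₂ K₁ F β : Type} [Field k] [CharZero k] [Field L₁] [Field L₂] [Field K₁]
    [Field F] [Algebra k L₁] [Algebra k L₂] [Algebra L₁ L₂] [Algebra L₂ K₁] [Algebra k F]
    [Algebra L₂ F] [Algebra K₁ F] [IsScalarTower k L₁ L₂] [IsScalarTower k L₂ F]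
    [IsScalarTower L₂ K₁ F] (hL : RelCl k L₂) {d : ℕ} {α : Fin d → L₁}
    (hα : IsTranscendenceBasis k fun i => algebraMap L₁ L₂ (α i)) {c : Fin d → K₁}
    (hc : AlgebraicIndependent L₂ c) (hK : adjoin L₂ (Set.range c) = ⊤) (i : L₂ →ₐ[k] F) {s : F}
    (hs : Transcendental K₁ s) (hi : ∀ a, i (algebraMap L₁ L₂ (α a)) =
      algebraMap L₂ F (algebraMap L₁ L₂ (α a)) + algebraMap K₁ F (c a) * s)
    {b : β → L₂} (hb : LinearIndependent L₁ b) :
    LinearIndependent (adjoin K₁ (insert s (Set.range fun x => i (algebraMap L₁ L₂ x))))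
      fun a => i (b a) := by
  have s0 : s ≠ 0 := fun h => hs (h ▸ isAlgebraic_zero)
  have hm : ∀ M : IntermediateField L₂ F, s ∈ M → (∀ a, i (algebraMap L₁ L₂ (α a)) ∈ M) →
      ∀ a, algebraMap K₁ F (c a) ∈ M := fun M h1 h2 a => by
    rw [(eq_div_iff s0).2 (eq_sub_of_add_eq' (hi a).symm)]
    exact M.div_mem (M.sub_mem (h2 a) (M.algebraMap_mem _)) h1
  have h1 := hc.sumElim_comp (algebraicIndependent_unique_type_iff (x := fun _ : Unit => s) |>.2 hs)
  obtain ⟨w, hw⟩ : ∃ w, w = Sum.elim (fun _ : Unit => s) fun a => i (algebraMap L₁ L₂ (α a)) :=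
    ⟨_, rfl⟩
  have w1 : ∀ a, w (.inl a) = s := fun a => by rw [hw]; rfl
  have w2 : ∀ a, w (.inr a) = i (algebraMap L₁ L₂ (α a)) := fun a => by rw [hw]; rfl
  have h2 : (Fintype.card (Unit ⊕ Fin d) : ℕ∞) ≤ td L₂ (Set.range w) := by
    obtain ⟨M, hM, hS⟩ := tr_cl (K := L₂) (Set.range w)
    refine le_trans ENat.card_eq_coe_fintype_card.ge
      ((card_le_td h1 (S := M) ?_).trans (tr_td_le hM.le))
    rintro (a | a)
    exacts [hS ⟨.inl a, w1 a⟩, hm M (hS ⟨.inl (), w1 _⟩) (fun a => hS ⟨.inr a, w2 a⟩) a]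
  have h3 : AlgebraicIndependent L₂ fun a => i (algebraMap L₁ L₂ (α a)) :=
    (funext w2 : w ∘ Sum.inr = _) ▸ (il_indep h2).comp Sum.inr Sum.inr_injective
  have h4 := ind_tensor i (inj_tensor hL i hα.isAlgebraic h3) hb
  have h5 : td L₂ (Set.range i) ≤ d := by
    refine (td_le_of_tower (K := k) _).trans ?_
    rw [← Set.image_univ, td_image]
    refine (td_le_of_isAlgebraic fun a _ => hα.isAlgebraic.isAlgebraic a).trans
      ((td_le_encard _).trans ?_)
    simpa using Set.encard_image_le (fun i => algebraMap L₁ L₂ (α i)) Set.univ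
  have h6 : AlgebraicIndependent (adjoin L₂ (Set.range i)) fun _ : Unit => s := by
    refine il_indep ((ENat.add_le_add_iff_left (ENat.natCast_ne_top d)).1 ?_)
    refine le_trans ?_ ((td_union_adjoin _ _).trans (add_le_add_left h5 _))
    refine le_trans (by simp [add_comm]) (h2.trans (td_mono ?_))
    rintro _ ⟨a | a, rfl⟩
    exacts [.inr ⟨a, (w1 a).symm⟩, .inl ⟨_, (w2 a).symm⟩]
  obtain ⟨F₁, hF⟩ : ∃ F₁, F₁ = adjoin L₂ (Set.range fun x => i (algebraMap L₁ L₂ x)) := ⟨_, rfl⟩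
  have h7 : F₁ ≤ adjoin L₂ (Set.range i) := hF ▸ IntermediateField.adjoin.mono _ _ _ (by
    rintro _ ⟨x, rfl⟩
    exact ⟨_, rfl⟩)
  have h8 : ∀ x, i (algebraMap L₁ L₂ x) ∈ F₁ := fun x =>
    hF ▸ IntermediateField.subset_adjoin _ _ ⟨x, rfl⟩
  rw [← hF] at h4
  let _ : Algebra F₁ (adjoin L₂ (Set.range i)) :=
    (IntermediateField.inclusion h7).toRingHom.toAlgebra
  have : IsScalarTower F₁ (adjoin L₂ (Set.range i)) F := .of_algebraMap_eq fun _ => rfl
  have h9 := ind_tr (F := F₁) h6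
    (b := fun a => ⟨i (b a), IntermediateField.subset_adjoin _ _ ⟨_, rfl⟩⟩)
    (.of_comp (IsScalarTower.toAlgHom F₁ _ F).toLinearMap h4)
  obtain ⟨M, hM⟩ : ∃ M, M = adjoin F₁ (Set.range fun _ : Unit => s) := ⟨_, rfl⟩
  rw [← hM] at h9
  have g1 : s ∈ M := hM ▸ IntermediateField.subset_adjoin _ _ ⟨(), rfl⟩
  have g2 : ∀ x, i (algebraMap L₁ L₂ x) ∈ M := fun x => M.algebraMap_mem ⟨_, h8 x⟩
  have g3 : ∀ x : K₁, algebraMap K₁ F x ∈ M := fun x => by
    have g4 : adjoin L₂ (Set.range c) ≤ (M.restrictScalars L₂).comap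
        (IsScalarTower.toAlgHom L₂ K₁ F) := IntermediateField.adjoin_le_iff.2
      (Set.range_subset_iff.2 (hm (M.restrictScalars L₂) g1 fun a => g2 _))
    exact g4 (hK ▸ IntermediateField.mem_top)
  have g4 : ∀ z ∈ adjoin K₁ (insert s (Set.range fun x => i (algebraMap L₁ L₂ x))), z ∈ M :=
    fun z hz => by
      induction hz using IntermediateField.adjoin_induction with
      | mem x hx =>
        obtain rfl | ⟨x, rfl⟩ := hx
        exacts [g1, g2 x]
      | algebraMap x => exact g3 x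
      | add x z _ _ hx hz => exact add_mem hx hz
      | inv x _ hx => exact inv_mem hx
      | mul x z _ _ hx hz => exact mul_mem hx hz
  rw [linearIndependent_iff'] at h9 ⊢
  intro t r hr a ha
  have g5 := h9 t (fun j => ⟨r j, g4 _ (r j).2⟩) (by
    simp only [IntermediateField.smul_def, smul_eq_mul] at hr ⊢
    exact hr) a ha
  have g6 : (r a : F) = 0 := (ZeroMemClass.coe_eq_zero (x := (⟨r a, g4 _ (r a).2⟩ : M))).2 g5
  exact ZeroMemClass.coe_eq_zero.1 g6

theorem dfl_abs {k L₁ L₂ K₁ F β : Type} [Field k] [CharZero k] [Field L₁] [Field L₂] [Field K₁]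
    [Field F] [Algebra k L₁] [Algebra k L₂] [Algebra k K₁] [Algebra L₁ L₂] [Algebra L₂ K₁]
    [Algebra K₁ F] [IsScalarTower k L₁ L₂] [IsScalarTower k L₂ K₁] (hL : RelCl k L₂) {d : ℕ}
    {α : Fin d → L₁} (hα : IsTranscendenceBasis k fun i => algebraMap L₁ L₂ (α i)) {c : Fin d → K₁}
    (hc : AlgebraicIndependent L₂ c) (hK : adjoin L₂ (Set.range c) = ⊤) {s : F}
    (hs : Transcendental K₁ s) (J : L₂ →+* F) (f : L₂ → F) (hf : J = f)
    (h0 : ∀ a, f (algebraMap k L₂ a) = algebraMap K₁ F (algebraMap k K₁ a))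
    (hj : ∀ i, f (algebraMap L₁ L₂ (α i)) = algebraMap K₁ F
      (algebraMap L₂ K₁ (algebraMap L₁ L₂ (α i))) + algebraMap K₁ F (c i) * s)
    {b : β → L₂} (hb : LinearIndependent L₁ b) :
    LinearIndependent (adjoin K₁ (insert s (Set.range fun x => f (algebraMap L₁ L₂ x))))
      fun a => f (b a) := by
  subst hf
  let : Algebra L₂ F := ((algebraMap K₁ F).comp (algebraMap L₂ K₁)).toAlgebra
  let : Algebra k F := ((algebraMap K₁ F).comp (algebraMap k K₁)).toAlgebra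
  have : IsScalarTower L₂ K₁ F := .of_algebraMap_eq fun _ => rfl
  have : IsScalarTower k L₂ F := .of_algebraMap_eq fun a =>
    congrArg (algebraMap K₁ F) (IsScalarTower.algebraMap_apply k L₂ K₁ a)
  exact il_core hL hα hc hK { J with commutes' := h0 } hs hj hb

theorem ind_line {k L₁ L₂ K₁ β : Type} [Field k] [CharZero k] [Field L₁] [Field L₂] [Field K₁]
    [Algebra k L₁] [Algebra k L₂] [Algebra k K₁] [Algebra L₁ L₂] [Algebra L₂ K₁]
    [IsScalarTower k L₁ L₂] [IsScalarTower k L₂ K₁] (hL : RelCl k L₂) {d : ℕ} {α : Fin d → L₁}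
    (hα : IsTranscendenceBasis k fun i => algebraMap L₁ L₂ (α i)) {c : Fin d → K₁}
    (hc : AlgebraicIndependent L₂ c) (hK : adjoin L₂ (Set.range c) = ⊤) (j : L₂ →ₐ[k] K₁⟦X⟧)
    (hj : ∀ i, j (algebraMap L₁ L₂ (α i)) =
      C (algebraMap L₂ K₁ (algebraMap L₁ L₂ (α i))) + C (c i) * X)
    {b : β → L₂} (hb : LinearIndependent L₁ b) :
    LinearIndependent (adjoin K₁ (insert (HahnSeries.single 1 1 : HahnSeries ℤ K₁) (Set.range
      fun x => HahnSeries.ofPowerSeries ℤ K₁ (j (algebraMap L₁ L₂ x)))))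
      fun a => HahnSeries.ofPowerSeries ℤ K₁ (j (b a)) := by
  have e : ∀ z : K₁, algebraMap K₁ (HahnSeries ℤ K₁) z = HahnSeries.ofPowerSeries ℤ K₁ (C z) :=
    fun z => rfl
  refine dfl_abs hL hα hc hK ?_ ((HahnSeries.ofPowerSeries ℤ K₁).comp (j : L₂ →+* K₁⟦X⟧))
    (fun x => HahnSeries.ofPowerSeries ℤ K₁ (j x)) (funext fun x => ?_) (fun a => ?_)
    (fun i => ?_) hb
  · rintro ⟨p, p0, p1⟩
    refine p0 (Polynomial.coe_injective K₁ (HahnSeries.ofPowerSeries_injective (Γ := ℤ) ?_))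
    rw [Polynomial.coe_zero, map_zero, ← p1, ← HahnSeries.ofPowerSeries_X, Polynomial.aeval_def,
      ← Polynomial.eval₂_C_X_eq_coe, Polynomial.hom_eval₂]
    rfl
  · rw [RingHom.comp_apply, RingHom.coe_coe]
  · rw [e, j.commutes, PowerSeries.algebraMap_apply]
  · rw [e, e, ← HahnSeries.ofPowerSeries_X, ← map_mul, ← map_add, hj]

end Pool.Agent.Lib.MP_651af7_nt.Gm
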