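import Pool.Agent.Lib.MP_651af7_nt.Av.TrB

/-! Linear disjointness through the tensor product. -/

namespace Pool.Agent.Lib.MP_651af7_nt.Gm

open Av PowerSeries
open IntermediateField (adjoin)

theorem inj_tensor {k A N F σ : Type} [Field k] [CharZero k] [Field A] [Field N] [Field F]
    [Algebra k A] [Algebra k N] [Algebra k F] [Algebra A F] [IsScalarTower k A F] (hA : RelCl k A)
    (i : N →ₐ[k] F) {γ : σ → N} (hγ : Algebra.IsAlgebraic (Algebra.adjoin k (Set.range γ)) N)
    (hi : AlgebraicIndependent A fun a => i (γ a)) :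
    Function.Injective (Algebra.TensorProduct.productMap (IsScalarTower.toAlgHom k A F) i) := by
  have hd := trb_domain hA N
  let r : N →ₐ[k] TensorProduct k A N := Algebra.TensorProduct.includeRight
  let B : Subalgebra A (TensorProduct k A N) := Algebra.adjoin A (Set.range fun a => r (γ a))
  have h1 : ∀ x ∈ Algebra.adjoin k (Set.range γ), r x ∈ B := fun x hx =>
    (Algebra.adjoin_le (S := (B.restrictScalars k).comap r) (by
      rintro _ ⟨a, rfl⟩
      exact Algebra.subset_adjoin (R := A) ⟨a, rfl⟩)) hx
  let f : Algebra.adjoin k (Set.range γ) →+* B :=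
    (r.toRingHom.comp (Algebra.adjoin k (Set.range γ)).val.toRingHom).codRestrict B
      fun x => h1 x x.2
  have hf : Function.Injective f := fun x y e =>
    Subtype.ext (r.toRingHom.injective (congrArg Subtype.val e))
  have h2 : ∀ z : TensorProduct k A N, IsAlgebraic B z := fun z => by
    induction z using TensorProduct.induction_on with
    | zero => exact isAlgebraic_zero
    | add u v hu hv => exact hu.add hv
    | tmul a n =>
      have e : a ⊗ₜ[k] n = algebraMap B (TensorProduct k A N) (algebraMap A B a) * r n := by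
        rw [← IsScalarTower.algebraMap_apply]
        simp [r]
      rw [e]
      exact (isAlgebraic_algebraMap _).mul
        ((hγ.isAlgebraic n).ringHom_of_comp_eq f r.toRingHom hf rfl)
  rw [injective_iff_map_eq_zero]
  intro z hz
  by_contra h0
  refine Ideal.comap_ne_bot_of_algebraic_mem h0 (I := RingHom.ker
    (Algebra.TensorProduct.productMap (IsScalarTower.toAlgHom k A F) i)) hz (h2 z) ?_
  rw [eq_bot_iff]
  rintro ⟨b, hb⟩ hb'
  obtain ⟨p, rfl⟩ : b ∈ (MvPolynomial.aeval (R := A) fun a => r (γ a)).range := by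
    rw [← Algebra.adjoin_range_eq_range_aeval]
    exact hb
  have h3 : ∀ q : MvPolynomial σ A,
      Algebra.TensorProduct.productMap (IsScalarTower.toAlgHom k A F) i
        (MvPolynomial.aeval (fun a => r (γ a)) q) = MvPolynomial.aeval (fun a => i (γ a)) q := by
    intro q
    induction q using MvPolynomial.induction_on with
    | C c => simp
    | add u v hu hv => rw [map_add, map_add, map_add, hu, hv]
    | mul_X u a hu =>
      rw [map_mul, map_mul, map_mul, hu]
      simp [r]
  have h4 : p = 0 := algebraicIndependent_iff.1 hi p ((h3 p).symm.trans hb')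
  subst h4
  exact Subtype.ext (map_zero _)

theorem dfb1_coord {k A N₁ N : Type} [Field k] [Field A] [Field N₁] [Field N]
    [Algebra k A] [Algebra k N₁] [Algebra k N] [Algebra N₁ N] [IsScalarTower k N₁ N]
    (l : N →ₗ[N₁] N₁) (t : TensorProduct k A N₁) (n : N) :
    (l.restrictScalars k).lTensor A (Algebra.TensorProduct.map (AlgHom.id k A)
      (IsScalarTower.toAlgHom k N₁ N) t * (1 : A) ⊗ₜ[k] n) = t * (1 : A) ⊗ₜ[k] l n := by
  induction t using TensorProduct.induction_on with
  | zero => simp
  | add u v hu hv => rw [map_add, add_mul, map_add, hu, hv, add_mul]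
  | tmul a x =>
    rw [Algebra.TensorProduct.map_tmul, Algebra.TensorProduct.tmul_mul_tmul,
      Algebra.TensorProduct.tmul_mul_tmul, LinearMap.lTensor_tmul, ← smul_eq_mul x, ← l.map_smul,
      Algebra.smul_def x]
    rfl

open scoped IntermediateField.algebraAdjoinAdjoin in
theorem ind_tensor {k A N₁ N F β : Type} [Field k] [Field A] [Field N₁] [Field N] [Field F]
    [Algebra k A] [Algebra k N₁] [Algebra k N] [Algebra N₁ N] [IsScalarTower k N₁ N] [Algebra k F]
    [Algebra A F] [IsScalarTower k A F] (i : N →ₐ[k] F)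
    (h : Function.Injective (Algebra.TensorProduct.productMap (IsScalarTower.toAlgHom k A F) i))
    {b : β → N} (hb : LinearIndependent N₁ b) :
    LinearIndependent (adjoin A (Set.range fun x => i (algebraMap N₁ N x))) fun a => i (b a) := by
  classical
  rw [← LinearIndependent.iff_fractionRing
    (Algebra.adjoin A (Set.range fun x => i (algebraMap N₁ N x))), linearIndependent_iff']
  intro s g hs a ha
  let φ := Algebra.TensorProduct.productMap (IsScalarTower.toAlgHom k A F) i
  let m := Algebra.TensorProduct.map (AlgHom.id k A) (IsScalarTower.toAlgHom k N₁ N)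
  have h1 : ∀ d ∈ Algebra.adjoin A (Set.range fun x => i (algebraMap N₁ N x)),
      ∃ t, φ (m t) = d := fun d hd => by
    induction hd using Algebra.adjoin_induction with
    | mem x hx =>
      obtain ⟨y, rfl⟩ := hx
      exact ⟨1 ⊗ₜ y, by simp [φ, m]⟩
    | algebraMap c => exact ⟨c ⊗ₜ 1, by simp [φ, m]⟩
    | add x y _ _ hx hy =>
      obtain ⟨u, rfl⟩ := hx
      obtain ⟨v, rfl⟩ := hy
      exact ⟨u + v, by rw [map_add, map_add]⟩
    | mul x y _ _ hx hy =>
      obtain ⟨u, rfl⟩ := hx
      obtain ⟨v, rfl⟩ := hy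
      exact ⟨u * v, by rw [map_mul, map_mul]⟩
  choose t ht using fun c => h1 (g c) (g c).2
  have h2 : ∑ c ∈ s, m (t c) * (1 : A) ⊗ₜ[k] b c = 0 := by
    refine h ?_
    rw [map_zero, map_sum, ← hs]
    refine Finset.sum_congr rfl fun c _ => ?_
    rw [map_mul, ht]
    simp [Algebra.smul_def]
  obtain ⟨l, hl⟩ := LinearMap.exists_extend ((Finsupp.lapply a : (β →₀ N₁) →ₗ[N₁] N₁).comp hb.repr)
  have h3 : ∀ c, l (b c) = if c = a then 1 else 0 := fun c => by
    have e := LinearMap.congr_fun hl ⟨b c, Submodule.subset_span ⟨c, rfl⟩⟩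
    rw [LinearMap.comp_apply, LinearMap.comp_apply, hb.repr_eq_single c _ rfl,
      Finsupp.lapply_apply, Finsupp.single_apply] at e
    exact e
  have h4 := congrArg ((l.restrictScalars k).lTensor A) h2
  rw [map_zero, map_sum, Finset.sum_eq_single a (fun c _ hc => by
    rw [dfb1_coord, h3, if_neg hc, TensorProduct.tmul_zero, mul_zero]) (fun h' => absurd ha h'),
    dfb1_coord, h3, if_pos rfl, ← Algebra.TensorProduct.one_def, mul_one] at h4
  refine Subtype.ext ?_
  rw [← ht, h4, map_zero, map_zero]
  rfl

end Pool.Agent.Lib.MP_651af7_nt.Gm
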