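import Pool.Agent.Lib.MP_651af7_nt.Gm.DfA
import Pool.Agent.Lib.MP_651af7_nt.Gm.DfB
import Pool.Agent.Lib.MP_651af7_nt.Gm.CDefs

/-! The deformation curve. -/

namespace Pool.Agent.Lib.MP_651af7_nt.Gm

open Av Pool.Agent.HZ
open IntermediateField (adjoin)
open scoped IntermediateField

/-- The compositum of two linearly disjoint fields. -/
theorem dfc_field {L₁ L₂ M F : Type} [Field L₁] [Field L₂] [Field M] [Field F] [Algebra L₁ L₂]
    [Algebra M F] (pb : PowerBasis L₁ L₂) (φ : L₁ →+* M) (J : L₂ →+* F)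
    (hJ : ∀ x, J (algebraMap L₁ L₂ x) = algebraMap M F (φ x))
    (hi : LinearIndependent M fun i => J (pb.basis i)) :
    ∃ (Λ : Type) (_ : Field Λ) (_ : Algebra M Λ) (j : L₂ →+* Λ), FiniteDimensional M Λ ∧
      Module.finrank M Λ = pb.dim ∧ (∀ x, j (algebraMap L₁ L₂ x) = algebraMap M Λ (φ x)) ∧
      (∀ T : Subfield Λ, (∀ m, algebraMap M Λ m ∈ T) → (∀ x, j x ∈ T) → ∀ z, z ∈ T) ∧
      ∀ (G : Type) [CommRing G] (ψ : M →+* G) (J' : L₂ →+* G),
        (∀ x, J' (algebraMap L₁ L₂ x) = ψ (φ x)) →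
        ∃ σ : Λ →+* G, (∀ z, σ (algebraMap M Λ z) = ψ z) ∧ ∀ x, σ (j x) = J' x := by
  have hm := minpoly.monic pb.isIntegral_gen
  have h0 : ∀ (G : Type) [CommRing G] (ψ : M →+* G) (J' : L₂ →+* G),
      (∀ x, J' (algebraMap L₁ L₂ x) = ψ (φ x)) → ∀ p : Polynomial L₁,
      (p.map φ).eval₂ ψ (J' pb.gen) = J' (Polynomial.aeval pb.gen p) := fun G _ ψ J' h p => by
    rw [Polynomial.eval₂_map, Polynomial.aeval_def, Polynomial.hom_eval₂]
    exact congrArg (fun f => p.eval₂ f _) (RingHom.ext fun x => (h x).symm)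
  have h1 : minpoly M (J pb.gen) = (minpoly L₁ pb.gen).map φ :=
    minpoly.eq_of_linearIndependent M _ (hm.map φ)
      ((h0 F _ J hJ _).trans (by rw [minpoly.aeval, map_zero])) pb.dim
      (by rw [Polynomial.degree_map, pb.degree_minpoly])
      (by simpa only [pb.basis_eq_pow, map_pow] using hi)
  have : Fact (Irreducible ((minpoly L₁ pb.gen).map φ)) :=
    ⟨h1 ▸ minpoly.irreducible ⟨_, hm.map φ, h1 ▸ minpoly.aeval M _⟩⟩
  let _ : Algebra L₁ (AdjoinRoot ((minpoly L₁ pb.gen).map φ)) :=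
    ((AdjoinRoot.of _).comp φ).toAlgebra
  have h2 : ∀ p : Polynomial L₁, Polynomial.aeval (AdjoinRoot.root ((minpoly L₁ pb.gen).map φ)) p =
      AdjoinRoot.mk _ (p.map φ) := fun p => by
    rw [← AdjoinRoot.aeval_eq, Polynomial.aeval_def, Polynomial.aeval_def, Polynomial.eval₂_map]
    rfl
  let j := pb.lift (AdjoinRoot.root ((minpoly L₁ pb.gen).map φ)) ((h2 _).trans AdjoinRoot.mk_self)
  refine ⟨_, inferInstance, inferInstance, j.toRingHom,
    (AdjoinRoot.powerBasis (hm.map φ).ne_zero).finite, ?_, j.commutes, fun T g1 g2 z => ?_,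
    fun G _ ψ J' h => ⟨AdjoinRoot.lift ψ (J' pb.gen)
      ((h0 G ψ J' h _).trans (by rw [minpoly.aeval, map_zero])), fun z => AdjoinRoot.lift_of _,
      fun x => ?_⟩⟩
  · rw [(AdjoinRoot.powerBasis (hm.map φ).ne_zero).finrank, AdjoinRoot.powerBasis_dim,
      Polynomial.natDegree_map, pb.natDegree_minpoly]
  · obtain ⟨p, rfl⟩ := AdjoinRoot.mk_surjective z
    rw [← AdjoinRoot.aeval_eq, Polynomial.aeval_eq_sum_range]
    refine sum_mem fun i _ => ?_
    have g3 : j pb.gen = _ := pb.lift_gen _ _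
    rw [Algebra.smul_def, ← g3]
    exact mul_mem (g1 _) (pow_mem (g2 pb.gen) _)
  · obtain ⟨p, rfl⟩ := pb.exists_eq_aeval' x
    exact (congrArg _ ((pb.lift_aeval _ _ p).trans (h2 p))).trans
      ((AdjoinRoot.lift_mk _ _).trans (h0 G ψ J' h p))

theorem dfc_fin {K R L Λ : Type} [Field K] [Field R] [Field L] [Field Λ] [Algebra K Λ] [Algebra R L]
    [FiniteDimensional R L] (N : IntermediateField K Λ) (j : L →+* Λ)
    (h : ∀ x : R, j (algebraMap R L x) ∈ N) :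
    ∃ T : IntermediateField N Λ, FiniteDimensional N T ∧ ∀ x, j x ∈ T := by
  let b := Module.finBasis R L
  refine ⟨adjoin N (Set.range fun i => j (b i)), IntermediateField.finiteDimensional_adjoin ?_,
    fun x => ?_⟩
  · rintro _ ⟨i, rfl⟩
    exact IsIntegral.map_of_comp_eq ((j.comp (algebraMap R L)).codRestrict N h) j rfl
      (Algebra.IsIntegral.isIntegral _)
  · rw [← b.sum_repr x, map_sum]
    refine sum_mem fun i _ => ?_
    rw [Algebra.smul_def, map_mul]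
    exact mul_mem (IntermediateField.algebraMap_mem _ (⟨_, h _⟩ : N))
      (IntermediateField.subset_adjoin _ _ ⟨i, rfl⟩)

/-- Change of the coefficients of a series. -/
noncomputable def dfc_map {K Ω : Type} [Field K] [Field Ω] (f : K →+* Ω) :
    HahnSeries ℤ K →+* HahnSeries ℤ Ω where
  toFun x := x.map f
  map_one' := HahnSeries.map_one f.toMonoidWithZeroHom
  map_mul' _ _ := HahnSeries.map_mul f.toNonUnitalRingHom
  map_zero' := by ext; simp
  map_add' _ _ := by ext; simp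

theorem dfc_map_coe {K Ω : Type} [Field K] [Field Ω] (f : K →+* Ω) (p : PowerSeries K) :
    HahnSeries.ofPowerSeries ℤ Ω (PowerSeries.map f p) =
      dfc_map f (HahnSeries.ofPowerSeries ℤ K p) := by
  ext n
  refine (PowerSeries.coeff_coe _ n).trans (Eq.trans ?_ (congrArg f (PowerSeries.coeff_coe p n)).symm)
  split_ifs <;> simp

theorem dfc_coeff {K : Type} [Field K] (p : PowerSeries K) :
    (∀ n < 0, (HahnSeries.ofPowerSeries ℤ K p).coeff n = 0) ∧
      (HahnSeries.ofPowerSeries ℤ K p).coeff 0 = PowerSeries.constantCoeff p :=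
  ⟨fun n hn => (PowerSeries.coeff_coe p n).trans (if_pos hn), by
    simpa using HahnSeries.ofPowerSeries_apply_coeff (Γ := ℤ) p 0⟩

theorem dfc_inf {K Λ : Type} [Field K] [Field Λ] [Algebra K Λ] (ι : Λ →+* HahnSeries ℤ K)
    (h : ∀ c, ι (algebraMap K Λ c) = HahnSeries.C c) {t : Λ} (ht : ι t = HahnSeries.single 1 1) :
    (∃ I : Inf K Λ, I.ι = ι) ∧ Transcendental K t := by
  let W : ValuationSubring (LaurentSeries K) :=
    (Valued.v : Valuation (LaurentSeries K) (WithZero (Multiplicative ℤ))).valuationSubring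
  have hW : ∀ f : LaurentSeries K, f ∈ W ↔ ∀ i < 0, f.coeff i = 0 := fun f => by
    rw [← LaurentSeries.valuation_le_iff_coeff_lt_eq_zero K, neg_zero, WithZero.exp_zero]
    exact Valuation.mem_valuationSubring_iff _ _
  refine ⟨⟨⟨W.comap ι, ι, h, fun a => hW _, t, ht⟩, rfl⟩,
    fun ⟨p, h1, h2⟩ => h1 (Polynomial.algebraMap_hahnSeries_injective (Γ := ℤ) ?_)⟩
  have h3 : algebraMap (Polynomial K) (HahnSeries ℤ K) =
      ι.comp (Polynomial.aeval t).toRingHom := Polynomial.ringHom_ext (fun a => by simp [h])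
    (by simp [ht])
  rw [h3, map_zero]
  exact (congrArg ι h2).trans (map_zero ι)

theorem exists_def {k L₁ L₂ K₁ Ω : Type} [Field k] [CharZero k] [Field L₁] [Field L₂] [Field K₁]
    [Field Ω] [Algebra k L₁] [Algebra k L₂] [Algebra k K₁] [Algebra L₁ L₂] [Algebra L₂ K₁]
    [Algebra L₁ Ω] [Algebra L₂ Ω] [Algebra K₁ Ω] [IsScalarTower k L₁ L₂] [IsScalarTower k L₂ K₁]
    [IsScalarTower L₁ L₂ Ω] [IsScalarTower L₂ K₁ Ω] [FiniteDimensional L₁ L₂] (hL : RelCl k L₂)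
    {d : ℕ} {α : Fin d → L₁} (hα : IsTranscendenceBasis k α)
    (hfin : FiniteDimensional (adjoin k (Set.range α)) L₁) {c : Fin d → K₁}
    (hc : AlgebraicIndependent L₂ c) (hK : adjoin L₂ (Set.range c) = ⊤) :
    ∃ (Λ : Type) (_ : Field Λ) (_ : Algebra K₁ Λ) (I : Inf K₁ Λ) (M : IntermediateField K₁ Λ)
      (j : L₂ →+* Λ) (θ : Λ)
      (σ : {τ : L₂ →ₐ[L₁] Ω // τ ≠ IsScalarTower.toAlgHom L₁ L₂ Ω} → Λ →+* HahnSeries ℤ Ω),
      FF K₁ Λ ∧ FiniteDimensional M Λ ∧ Module.finrank M Λ ≤ Module.finrank L₁ L₂ ∧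
      Plc I M θ σ ∧ (∀ a : k, j (algebraMap k L₂ a) = algebraMap K₁ Λ (algebraMap k K₁ a)) ∧
      (∀ x, j x ∈ I.V ∧ (I.ι (j x)).coeff 0 = algebraMap L₂ K₁ x) ∧
      ∀ s x, (∀ n < 0, (σ s (j x)).coeff n = 0) ∧ (σ s (j x)).coeff 0 = s.1 x := by
  have : CharZero L₁ := charZero_of_injective_algebraMap (algebraMap k L₁).injective
  have hα' : IsTranscendenceBasis k fun i => algebraMap L₁ L₂ (α i) := hα.algebraMap_comp
  obtain ⟨j₀, a1, a2⟩ := exists_line hα' c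
  let pb := Field.powerBasisOfFiniteOfSeparable L₁ L₂
  obtain ⟨J, M₀, hJ, hi, m1, m2, m3⟩ : ∃ (J : L₂ →+* HahnSeries ℤ K₁)
      (M₀ : IntermediateField K₁ (HahnSeries ℤ K₁)),
      (∀ x, HahnSeries.ofPowerSeries ℤ K₁ (j₀ x) = J x) ∧
      (LinearIndependent M₀ fun i => J (pb.basis i)) ∧ (∀ x, J.comp (algebraMap L₁ L₂) x ∈ M₀) ∧
      HahnSeries.single 1 1 ∈ M₀ ∧ ∀ T : Subfield (HahnSeries ℤ K₁), (∀ a, HahnSeries.C a ∈ T) →
        HahnSeries.single 1 1 ∈ T → (∀ x, J (algebraMap L₁ L₂ x) ∈ T) → M₀.toSubfield ≤ T :=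
    ⟨(HahnSeries.ofPowerSeries ℤ K₁).comp j₀.toRingHom, _, fun _ => rfl,
      ind_line hL hα' hc hK j₀ a1 pb.basis.linearIndependent,
      fun x => IntermediateField.subset_adjoin _ _ (Or.inr ⟨x, rfl⟩),
      IntermediateField.subset_adjoin _ _ (Or.inl rfl), fun T g1 g2 g3 => Subfield.closure_le.2 (by
        rintro _ (⟨a, rfl⟩ | rfl | ⟨x, rfl⟩)
        exacts [(HahnSeries.ofPowerSeries_C (Γ := ℤ) a).symm ▸ g1 a, g2, g3 x])⟩
  obtain ⟨Λ, _, _, j, b1, b2, b3, b4, b5⟩ :=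
    dfc_field pb ((J.comp (algebraMap L₁ L₂)).codRestrict M₀ m1) J (fun _ => rfl) hi
  let _ : Algebra K₁ Λ := ((algebraMap M₀ Λ).comp (algebraMap K₁ M₀)).toAlgebra
  have : IsScalarTower K₁ M₀ Λ := IsScalarTower.of_algebraMap_eq fun _ => rfl
  obtain ⟨ι, i1, i2⟩ := b5 _ (algebraMap M₀ _) J fun _ => rfl
  have i3 : ∀ a, ι (algebraMap K₁ Λ a) = HahnSeries.C a := fun a =>
    (i1 _).trans (HahnSeries.ofPowerSeries_C a)
  obtain ⟨⟨I, rfl⟩, ht⟩ := dfc_inf ι i3 (i1 ⟨_, m2⟩)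
  have c1 : ∀ τ : L₂ →ₐ[L₁] Ω, ∃ σ : Λ →+* HahnSeries ℤ Ω,
      (∀ z, σ (algebraMap M₀ Λ z) = dfc_map (algebraMap K₁ Ω) z) ∧
      ∀ x, (∀ n < 0, (σ (j x)).coeff n = 0) ∧ (σ (j x)).coeff 0 = τ x := fun τ => by
    obtain ⟨j', g1, g2⟩ := exists_lift ((PowerSeries.map (algebraMap K₁ Ω)).comp
      (j₀.toRingHom.comp (algebraMap L₁ L₂))) τ.toRingHom fun x => by
        refine Eq.trans ?_ (τ.commutes x).symm
        rw [IsScalarTower.algebraMap_apply L₁ L₂ Ω, IsScalarTower.algebraMap_apply L₂ K₁ Ω, ← a2]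
        rfl
    obtain ⟨σ, g3, g4⟩ := b5 _ ((dfc_map (algebraMap K₁ Ω)).comp (algebraMap M₀ _))
      ((HahnSeries.ofPowerSeries ℤ Ω).comp j') fun x =>
        (congrArg _ (g1 x)).trans ((dfc_map_coe _ _).trans (congrArg _ (hJ _)))
    exact ⟨σ, g3, fun x => by
      rw [g4]
      exact ⟨(dfc_coeff _).1, (dfc_coeff _).2.trans (g2 x)⟩⟩
  choose σ c1 c2 using c1
  have c3 : ∀ x, j x ∈ I.V ∧ (I.ι (j x)).coeff 0 = algebraMap L₂ K₁ x := fun x => by
    rw [I.mem, i2, ← hJ]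
    exact ⟨(dfc_coeff _).1, (dfc_coeff _).2.trans (a2 x)⟩
  have c4 : ∀ a : k, j (algebraMap k L₂ a) = algebraMap K₁ Λ (algebraMap k K₁ a) := fun a =>
    I.ι.injective (by
      rw [i2, i3, ← hJ, j₀.commutes, PowerSeries.algebraMap_apply, HahnSeries.ofPowerSeries_C])
  let f := IsScalarTower.toAlgHom K₁ M₀ Λ
  let _ : Algebra M₀ f.fieldRange := f.toRingHom.rangeRestrictField.toAlgebra
  have : IsScalarTower M₀ f.fieldRange Λ := IsScalarTower.of_algebraMap_eq fun _ => rfl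
  have d1 : FiniteDimensional f.fieldRange Λ := Module.Finite.of_restrictScalars_finite M₀ _ _
  refine ⟨Λ, inferInstance, inferInstance, I, f.fieldRange, j, j pb.gen, fun s => σ s.1, ⟨_, ht, ?_⟩,
    d1, ?_, ⟨?_, ⟨_, ⟨_, rfl⟩, i1 ⟨_, m2⟩⟩, (c3 _).1, fun s => (c2 _ _).1, fun s h => s.2 ?_,
      fun s s' h => Subtype.ext (pb.algHom_ext (((c2 _ _).2.symm.trans h).trans (c2 _ _).2))⟩,
    c4, c3, fun s => c2 s.1⟩
  · obtain ⟨t, e1⟩ : ∃ t, t = algebraMap M₀ Λ ⟨_, m2⟩ := ⟨_, rfl⟩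
    rw [← e1]
    have n1 : t ∈ K₁⟮t⟯ := IntermediateField.mem_adjoin_simple_self _ _
    have := Module.Finite.trans (R := adjoin k (Set.range α)) L₁ L₂
    have n2 : (adjoin k (Set.range α)).toSubfield ≤
        K₁⟮t⟯.toSubfield.comap (j.comp (algebraMap L₁ L₂)) := Subfield.closure_le.2 (by
      rintro _ (⟨a, rfl⟩ | ⟨i, rfl⟩)
      · change j (algebraMap L₁ L₂ _) ∈ K₁⟮t⟯
        rw [← IsScalarTower.algebraMap_apply, c4]
        exact IntermediateField.algebraMap_mem _ _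
      · change j (algebraMap L₁ L₂ _) ∈ K₁⟮t⟯
        have g : j (algebraMap L₁ L₂ (α i)) = algebraMap K₁ Λ (algebraMap L₂ K₁
            (algebraMap L₁ L₂ (α i))) + algebraMap K₁ Λ (c i) * t := I.ι.injective (by
          simp only [map_add, map_mul, i2, i3, ← hJ, a1, e1, i1, HahnSeries.ofPowerSeries_C,
            HahnSeries.ofPowerSeries_X]
          rfl)
        exact g ▸ add_mem (IntermediateField.algebraMap_mem _ _)
          (mul_mem (IntermediateField.algebraMap_mem _ _) n1))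
    obtain ⟨T, g1, g2⟩ := dfc_fin (R := adjoin k (Set.range α)) K₁⟮t⟯ j fun x => n2 x.2
    have g3 : T = ⊤ := eq_top_iff.2 fun z _ => b4 T.toSubfield (fun m => by
      obtain ⟨y, g4, g5⟩ := m3 (T.toSubfield.map I.ι)
        (fun a => ⟨_, T.algebraMap_mem (algebraMap K₁ _ a), i3 a⟩)
        ⟨t, T.algebraMap_mem ⟨t, n1⟩, e1 ▸ i1 _⟩ (fun x => ⟨_, g2 _, i2 _⟩) m.2
      exact I.ι.injective (g5.trans (i1 m).symm) ▸ g4) g2 z
    subst g3
    exact IntermediateField.topEquiv.toLinearEquiv.finiteDimensional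
  · have := Module.Finite.left M₀ f.fieldRange Λ
    rw [pb.finrank, ← b2, ← Module.finrank_mul_finrank M₀ f.fieldRange Λ]
    exact Nat.le_mul_of_pos_left _ Module.finrank_pos
  · rintro s _ ⟨m, rfl⟩ n
    exact (congrArg (·.coeff n) (c1 s.1 m)).trans (congrArg (fun z => algebraMap K₁ Ω (z.coeff n))
      (i1 m).symm)
  · refine pb.algHom_ext ((c2 _ _).2.symm.trans (h.trans ?_))
    rw [(c3 _).2]
    exact (IsScalarTower.algebraMap_apply L₂ K₁ Ω _).symm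

end Pool.Agent.Lib.MP_651af7_nt.Gm
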