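import Pool.Agent.Lib.MP_651af7_nt.Av.Tr

/-! A basis of the forms of a given degree modulo the ideal of the model. -/

namespace Pool.Agent.Lib.MP_651af7_nt.Gm

open MvPolynomial Av

variable {k ι : Type} [Field k] [Finite ι]

theorem exists_forms (B : AV k ι) (D : ℕ) : ∃ (L : Type) (_ : Fintype L)
    (r : L → MvPolynomial ι k), (∀ l, (r l).IsHomogeneous D) ∧
    (∀ (F : Type) [Field F] [Algebra k F] (P : MvPolynomial ι F), P.IsHomogeneous D →
      ∃ x : L → F, P - ∑ l, C (x l) * map (algebraMap k F) (r l) ∈ B.IK F) ∧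
    ∀ (F Ω : Type) [Field F] [Field Ω] [Algebra k F] [Algebra k Ω] [Algebra F Ω]
      [IsScalarTower k F Ω] (v : ι → Ω), Gen (B.IK F) v →
      LinearIndependent F fun l => aeval v (r l) := by
  classical
  have hfin : Finite {μ : ι →₀ ℕ // μ.degree = D} :=
    ((Finsupp.finite_of_degree_le D).subset fun μ (h : μ.degree = D) => h.le).to_subtype
  obtain ⟨L, a, ha, hs, hi⟩ := exists_linearIndependent' k
    fun μ : {μ : ι →₀ ℕ // μ.degree = D} => Ideal.Quotient.mkₐ k B.I (monomial μ.1 (1 : k))
  have : Finite L := Finite.of_injective a ha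
  have := Fintype.ofFinite L
  have hr : ∀ l, (monomial (a l).1 (1 : k)).IsHomogeneous D := fun l =>
    isHomogeneous_monomial _ (a l).2
  have hπ : ∀ y : L → k, Ideal.Quotient.mkₐ k B.I (∑ l, C (y l) * monomial (a l).1 (1 : k)) =
      ∑ l, y l • Ideal.Quotient.mkₐ k B.I (monomial (a l).1 (1 : k)) := fun y => by
    simp only [map_sum, ← smul_eq_C_mul, map_smul]
  refine ⟨L, this, fun l => monomial (a l).1 1, hr, fun F _ _ P hP => ?_,
    fun F Ω _ _ _ _ _ _ v hv => ?_⟩
  · have key : ∀ μ ∈ P.support, ∃ y : L → k,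
        monomial μ (1 : k) - ∑ l, C (y l) * monomial (a l).1 (1 : k) ∈ B.I := fun μ hμ => by
      have h1 : μ.degree = D := by
        rw [Finsupp.degree_eq_weight_one]; exact hP (mem_support_iff.1 hμ)
      obtain ⟨y, hy⟩ := (Submodule.mem_span_range_iff_exists_fun k).1
        (hs.ge (Submodule.subset_span ⟨⟨μ, h1⟩, rfl⟩))
      exact ⟨y, Ideal.Quotient.eq.1 (((hπ y).trans hy).symm)⟩
    choose! y hy using key
    refine ⟨fun l => ∑ μ ∈ P.support, coeff μ P * algebraMap k F (y μ l), ?_⟩
    have e : P - ∑ l, C (∑ μ ∈ P.support, coeff μ P * algebraMap k F (y μ l)) *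
        map (algebraMap k F) (monomial (a l).1 (1 : k)) = ∑ μ ∈ P.support, C (coeff μ P) *
          map (algebraMap k F)
            (monomial μ (1 : k) - ∑ l, C (y μ l) * monomial (a l).1 (1 : k)) := by
      simp only [map_sub, map_sum, map_mul, map_C, mul_sub, Finset.sum_sub_distrib,
        Finset.mul_sum, Finset.sum_mul, mul_assoc]
      rw [Finset.sum_comm]
      congr 1
      simp only [map_monomial, map_one, C_mul_monomial, mul_one]
      exact P.as_sum
    rw [e]
    exact Ideal.sum_mem _ fun μ hμ => Ideal.mul_mem_left _ _ (Ideal.mem_map_of_mem _ (hy μ hμ))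
  · refine Fintype.linearIndependent_iff.2 fun g hg l => ?_
    have h1 := hv (∑ l, C (g l) * map (algebraMap k F) (monomial (a l).1 (1 : k))) D
      (IsHomogeneous.sum _ _ _ fun l _ => ((hr l).map _).C_mul _) (by
        simpa only [map_sum, map_mul, aeval_C, aeval_map_algebraMap, Algebra.smul_def] using hg)
    refine (Module.forall_dual_apply_eq_zero_iff k (g l)).1 fun φ => ?_
    have h2 := trCw_mem φ h1
    have h3 : trCw φ (∑ l, C (g l) * map (algebraMap k F) (monomial (a l).1 (1 : k))) =
        ∑ l, C (φ (g l)) * monomial (a l).1 (1 : k) := by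
      ext μ
      simp only [coeff_trCw, map_monomial, map_one, C_mul_monomial, mul_one, coeff_sum, map_sum,
        coeff_monomial, apply_ite φ, map_zero]
    rw [h3] at h2
    exact Fintype.linearIndependent_iff.1 hi (fun l => φ (g l))
      ((hπ _).symm.trans (Ideal.Quotient.eq_zero_iff_mem.2 h2)) l

end Pool.Agent.Lib.MP_651af7_nt.Gm
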