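import Mathlib

/-! The product of the conjugates of a divisor of an irreducible polynomial. -/

namespace Pool.Agent.Lib.MP_651af7_nt.Gm

open Polynomial

theorem prod_conj {F G Ω : Type} [Field F] [CharZero F] [Field G] [Field Ω] [IsAlgClosed Ω]
    [Algebra F G] [Algebra F Ω] [FiniteDimensional F G] {p : F[X]} (hp : Irreducible p) {g : G[X]}
    (hg : g.Monic) (hd : g ∣ p.map (algebraMap F G)) :
    ∃ (μ : ℕ) (c : Ω), c ≠ 0 ∧ μ * p.natDegree = Module.finrank F G * g.natDegree ∧
      ∏ τ : G →ₐ[F] Ω, g.map τ = C c * p.map (algebraMap F Ω) ^ μ := by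
  classical
  obtain ⟨P, hP⟩ : ∃ P : Polynomial Ω, P = ∏ τ : G →ₐ[F] Ω, g.map τ := ⟨_, rfl⟩
  obtain ⟨s, hs⟩ := Infinite.exists_subset_card_eq F (P.natDegree + 1)
  obtain ⟨q, hq⟩ : ∃ q : F[X], q.map (algebraMap F Ω) = P := by
    refine ⟨Lagrange.interpolate s id fun a => Algebra.norm F (g.eval (algebraMap F G a)),
      eq_of_degrees_lt_of_eval_index_eq s (v := algebraMap F Ω) (algebraMap F Ω).injective.injOn
        (degree_map_le.trans_lt (Lagrange.degree_interpolate_lt _ (Set.injOn_id _)))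
        (degree_le_natDegree.trans_lt (by rw [hs]; exact_mod_cast Nat.lt_succ_self _))
        fun a ha => ?_⟩
    have h1 := Lagrange.eval_interpolate_at_node
      (fun a => Algebra.norm F (g.eval (algebraMap F G a))) (Set.injOn_id _) ha
    rw [eval_map, eval₂_at_apply, show eval a _ = _ from h1, Algebra.norm_eq_prod_embeddings F Ω,
      hP, eval_prod]
    refine Finset.prod_congr rfl fun τ _ => ?_
    rw [← τ.commutes, eval_map]
    exact (eval₂_at_apply (τ : G →+* Ω) _).symm
  have h2 : q ∣ p ^ Fintype.card (G →ₐ[F] Ω) := by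
    rw [← map_dvd_map' (algebraMap F Ω), hq, hP, Polynomial.map_pow, ← Finset.card_univ,
      ← Finset.prod_const]
    refine Finset.prod_dvd_prod_of_dvd _ _ fun τ _ => ?_
    have h3 := map_dvd (τ : G →+* Ω) hd
    rwa [Polynomial.map_map, τ.comp_algebraMap] at h3
  obtain ⟨μ, -, h3⟩ := (dvd_prime_pow hp.prime _).1 h2
  obtain ⟨u, hu⟩ := h3.symm
  obtain ⟨c, hc, h4⟩ := Polynomial.isUnit_iff.1 u.isUnit
  refine ⟨μ, algebraMap F Ω c, (_root_.map_ne_zero _).2 hc.ne_zero, ?_, ?_⟩
  · rw [← natDegree_pow, ← natDegree_eq_of_degree_eq (degree_eq_degree_of_associated h3),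
      ← natDegree_map (algebraMap F Ω), hq, hP,
      natDegree_prod_of_monic _ _ fun τ _ => hg.map _, ← AlgHom.card F G Ω]
    simp only [natDegree_map, Finset.sum_const, Finset.card_univ, smul_eq_mul]
  · rw [← hP, ← hq, ← hu, ← h4, Polynomial.map_mul, Polynomial.map_pow, map_C, mul_comm]

end Pool.Agent.Lib.MP_651af7_nt.Gm
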