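import Pool.Agent.Lib.MP_651af7_nt.Gm.FlA
import Pool.Agent.Lib.MP_651af7_nt.Gm.FlA1
import Pool.Agent.Lib.MP_651af7_nt.Gm.FlB1
import Pool.Agent.Lib.MP_651af7_nt.Nc.Iso

/-! The product of the conjugates. -/

namespace Pool.Agent.Lib.MP_651af7_nt.Gm

open Polynomial Av
open IntermediateField (adjoin)

theorem prod_forms {k ι L₁ L₂ Ω : Type} [Field k] [CharZero k] [Finite ι] [Field L₁] [Field L₂]
    [Field Ω] [IsAlgClosed Ω] [Algebra k L₁] [Algebra k L₂] [Algebra k Ω] [Algebra L₁ L₂]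
    [Algebra L₁ Ω] [Algebra L₂ Ω] [IsScalarTower k L₁ L₂] [IsScalarTower k L₁ Ω]
    [IsScalarTower k L₂ Ω] [IsScalarTower L₁ L₂ Ω] [FiniteDimensional L₁ L₂] {B : AV k ι}
    {v : ι → Ω} (h1 : ∃ a, v a = 1) (hz : ∀ f ∈ B.I, MvPolynomial.aeval v f = 0)
    (hg : td L₁ (rat v) = B.dim) {p : (adjoin L₁ (Set.range v))[X]} (hp : Irreducible p) {d D : ℕ}
    {ψ : Fin (d + 1) → MvPolynomial ι L₂} (hψ : ∀ i, (ψ i).IsHomogeneous D) {g : Polynomial Ω} {s : Ω}
    (hs : s ≠ 0) (hm : g.Monic)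
    (he : ∑ i : Fin (d + 1), monomial i (MvPolynomial.aeval v (ψ i)) = C s * g)
    (hd : g ∣ p.map (algebraMap _ Ω)) :
    ∃ (μ : ℕ) (c : Ω), c ≠ 0 ∧ μ * p.natDegree = Module.finrank L₁ L₂ * g.natDegree ∧
      ∏ τ : L₂ →ₐ[L₁] Ω, ∑ i : Fin (d + 1), monomial i (MvPolynomial.eval₂ τ v (ψ i)) =
        C c * p.map (algebraMap _ Ω) ^ μ := by
  have _ := hψ
  have : CharZero L₁ := charZero_of_injective_algebraMap (algebraMap k L₁).injective
  have : CharZero (adjoin L₁ (Set.range v)) :=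
    charZero_of_injective_algebraMap (algebraMap L₁ _).injective
  have h0 : v ≠ 0 := fun h => h1.elim fun a ha => one_ne_zero (ha.symm.trans (congrFun h a))
  let b := Module.finBasis L₁ L₂
  have hb := ind_gen h1 hz ((B.gen_iff (K := L₂) h0 hz).2
    ((td_eq_of_isAlgebraic (K := L₁) _).trans hg)) b.linearIndependent
  let G := adjoin (adjoin L₁ (Set.range v)) (Set.range fun i => algebraMap L₂ Ω (b i))
  have : FiniteDimensional _ G := IntermediateField.finiteDimensional_adjoin (by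
    rintro _ ⟨i, rfl⟩
    exact ((Algebra.IsIntegral.isIntegral (R := L₁) (b i)).algebraMap (B := Ω)).tower_top)
  have hG : ∀ x, algebraMap L₂ Ω x ∈ G := fun x => by
    rw [← b.sum_repr x, map_sum]
    refine sum_mem fun i _ => ?_
    rw [Algebra.smul_def, map_mul, ← IsScalarTower.algebraMap_apply,
      IsScalarTower.algebraMap_apply L₁ (adjoin L₁ (Set.range v)) Ω]
    exact mul_mem (G.algebraMap_mem _) (IntermediateField.subset_adjoin _ _ ⟨i, rfl⟩)
  let φ : L₂ →+* G := (algebraMap L₂ Ω).codRestrict G hG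
  let res : (G →ₐ[adjoin L₁ (Set.range v)] Ω) → L₂ →ₐ[L₁] Ω := fun σ =>
    ⟨σ.toRingHom.comp φ, fun c => ((congrArg σ (Subtype.ext
      (IsScalarTower.algebraMap_apply L₁ L₂ Ω c).symm)).trans (σ.commutes (algebraMap L₁ _ c)))⟩
  have r1 : Function.Injective res := fun σ σ' h =>
    IntermediateField.adjoin_algHom_ext _ (by
      rintro _ ⟨i, rfl⟩
      exact AlgHom.congr_fun h (b i))
  have r2 : Module.finrank (adjoin L₁ (Set.range v)) G = Module.finrank L₁ L₂ := by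
    refine le_antisymm ?_ ?_
    · rw [← AlgHom.card _ _ Ω, ← AlgHom.card L₁ L₂ Ω]
      exact Fintype.card_le_of_injective _ r1
    · simpa using (LinearIndependent.of_comp (v := fun i => φ (b i)) G.val.toLinearMap
        hb).fintype_card_le_finrank
  have r3 : Function.Bijective res := (Fintype.bijective_iff_injective_and_card _).2
    ⟨r1, by rw [AlgHom.card, AlgHom.card, r2]⟩
  let w : ι → G := fun a => algebraMap (adjoin L₁ (Set.range v)) G
    ⟨v a, IntermediateField.subset_adjoin _ _ ⟨a, rfl⟩⟩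
  obtain ⟨q, hq⟩ : ∃ q : G[X], ∀ σ : G →ₐ[adjoin L₁ (Set.range v)] Ω, q.map σ =
      ∑ i : Fin (d + 1), monomial i (MvPolynomial.eval₂ (res σ) v (ψ i)) :=
    ⟨∑ i : Fin (d + 1), monomial i (MvPolynomial.eval₂ φ w (ψ i)), fun σ => by
      simp only [Polynomial.map_sum, map_monomial, MvPolynomial.eval₂_comp_left]
      rw [show (σ : G →+* Ω) ∘ w = v from funext fun a => σ.commutes _]
      rfl⟩
  have q1 : q.map (algebraMap G Ω) = C s * g := (hq G.val).trans he
  have q2 : algebraMap G Ω q.leadingCoeff = s := by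
    rw [← leadingCoeff_map, q1, leadingCoeff_mul, leadingCoeff_C, hm.leadingCoeff, mul_one]
  have q3 : q.leadingCoeff ≠ 0 := fun h => hs (by rw [← q2, h, map_zero])
  have q4 : (q * C q.leadingCoeff⁻¹).map (algebraMap G Ω) = g := by
    rw [Polynomial.map_mul, map_C, map_inv₀, q1, q2, mul_right_comm, ← C_mul, mul_inv_cancel₀ hs,
      C_1, one_mul]
  obtain ⟨μ, c, hc, h2, h3⟩ := prod_conj (Ω := Ω) hp
    (monic_mul_leadingCoeff_inv (leadingCoeff_ne_zero.1 q3)) ((map_dvd_map' (algebraMap G Ω)).1 (by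
      rwa [q4, Polynomial.map_map, ← IsScalarTower.algebraMap_eq]))
  refine ⟨μ, (∏ σ : G →ₐ[adjoin L₁ (Set.range v)] Ω, σ q.leadingCoeff) * c, mul_ne_zero
    (Finset.prod_ne_zero_iff.2 fun σ _ => (_root_.map_ne_zero σ).2 q3) hc,
    by rw [h2, r2, ← q4, natDegree_map], ?_⟩
  rw [← r3.prod_comp, C_mul, mul_assoc, ← h3, map_prod, ← Finset.prod_mul_distrib]
  refine Finset.prod_congr rfl fun σ _ => ?_
  rw [← hq, Polynomial.map_mul, map_C, mul_left_comm, ← C_mul, map_inv₀]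
  exact ((congrArg (_ * C ·) (mul_inv_cancel₀ ((_root_.map_ne_zero σ).2 q3))).trans
    (by rw [C_1, mul_one])).symm

end Pool.Agent.Lib.MP_651af7_nt.Gm
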