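import Pool.Agent.Lib.MP_651af7_nt.Gm.HDefs
import Pool.Agent.Lib.MP_651af7_nt.Av.SeqC
import Pool.Agent.Lib.MP_651af7_nt.Av.LosR

/-! Moving forms without common divisor have full height. -/

namespace Pool.Agent.Lib.MP_651af7_nt.Gm

open MvPolynomial Height Filter Av Av.AV

variable {k ι α : Type} [Field k] [NumberField k] [Fintype ι] {U : Ultrafilter α} {B : AV k ι}
  {y : α → B.Pt k} {hH : Tendsto (fun n => ht (y n)) U atTop} {Y : B.Pt (Up U k)}
  {v : α → ι → k}

theorem gcd1_co (hY : IsGerm U Y y) (hg : B.Gens (Sm k hH) Y) (hdim : 1 ≤ B.dim) {J : Type}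
    [Fintype J] {F : J → MvPolynomial ι (Sm k hH)} {d : ℕ} (hd : 1 ≤ d)
    (hFh : ∀ j, (F j).IsHomogeneous d) (hc : Cd2 B (Sm k hH) F) {z : α → J → k}
    (hF : ∀ j, aeval (fun a => germ U fun n => (y n).co a) (F j) = germ U fun n => z n j) {j₀ : J}
    (hz0 : (germ U fun n => z n j₀) ≠ 0) {η : ℝ} (hη : 0 < η)
    (hbad : ∀ᶠ n in U, logHeight (z n) + η * ht (y n) ≤ d * ht (y n)) : False := by
  classical
  have hf0 : F j₀ ∉ B.IK (Sm k hH) := fun h0 =>
    hz0 ((hF _).symm.trans (B.tr_zero_IK (Rep.zero hY) _ h0))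
  let 𝒢 : Fin (B.dim + 1) → Finset (MvPolynomial ι (Sm k hH)) := fun i =>
    if (i : ℕ) = 0 then {F j₀} else if (i : ℕ) = 1 then Finset.univ.image F
      else Finset.univ.image fun c => MvPolynomial.X c ^ d
  have hv1 : ((1 : Fin (B.dim + 1)) : ℕ) = 1 := by
    rw [Fin.val_one', Nat.mod_eq_of_lt (Nat.succ_lt_succ hdim)]
  have h𝒢0 : 𝒢 0 = {F j₀} := if_pos rfl
  have h𝒢1 : 𝒢 1 = Finset.univ.image F := (if_neg (by omega)).trans (if_pos hv1)
  obtain ⟨γ, ρ, c, hnn, hu0⟩ := B.exists_nn (Sm k hH) hd 𝒢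
    (fun i f hf => by
      dsimp only [𝒢] at hf
      split_ifs at hf
      · rw [Finset.mem_singleton.1 hf]
        exact hFh _
      · obtain ⟨t, -, rfl⟩ := Finset.mem_image.1 hf
        exact hFh t
      · obtain ⟨t, -, rfl⟩ := Finset.mem_image.1 hf
        exact isHomogeneous_X_pow t _)
    (fun i E _ _ _ _ w h0 hw hf => by
      dsimp only [𝒢] at hf
      split_ifs at hf with h1 h2
      · have h3 := B.td_le_dim (K := Sm k hH) hw
        have h4 : td (Sm k hH) (rat w) ≠ B.dim := fun e =>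
          hf0 ((B.gen_iff h0 hw).2 e _ _ (hFh _) (hf _ (Finset.mem_singleton_self _)))
        rw [h1, zero_add, Nat.cast_one]
        exact Order.add_one_le_of_lt (lt_of_le_of_ne h3 h4)
      · rw [h2]
        exact hc E w h0 hw fun j => hf (F j) (Finset.mem_image_of_mem F (Finset.mem_univ j))
      · refine absurd (funext fun l => ?_) h0
        have h3 := hf _ (Finset.mem_image_of_mem _ (Finset.mem_univ l))
        rw [map_pow, aeval_X] at h3
        exact pow_eq_zero_iff (by omega) |>.1 h3)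
  choose un hun using fun i => exists_repr (U := U) (MvPolynomial.map (algebraMap _ (Up U k))
    (∑ f ∈ 𝒢 i, C ((γ i f : ℚ) : Sm k hH) * f))
  have hev : ∀ i, aeval (fun c => germ U fun n => (y n).co c)
      (∑ f ∈ 𝒢 i, C ((γ i f : ℚ) : Sm k hH) * f) = germ U fun n => eval (y n).co (un i n) := by
    intro i
    rw [← (hun i).aeval fun n => (y n).co, aeval_map_algebraMap]
  have hM : ∀ i : Fin (B.dim + 1), (∀ f ∈ 𝒢 i, f ∈ Set.range F) →
      ∃ M : J → k, ∀ᶠ n in U, eval (y n).co (un i n) = ∑ t, M t * z n t := by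
    intro i hi
    obtain ⟨M, hM, e⟩ := seqC_comb F (fun f => ((γ i f : ℚ) : Sm k hH)) (𝒢 i)
      (algebraMap k (Sm k hH)).fieldRange (fun f => ⟨(γ i f : k), map_ratCast _ _⟩) hi
    choose M' hM' using hM
    refine ⟨M', (germ_eq U).1 ?_⟩
    rw [← hev, e, map_sum]
    have e1 : (fun n => ∑ t, M' t * z n t) = ∑ t, (fun _ => M' t) * fun n => z n t := by
      funext n
      rw [Finset.sum_apply]
      rfl
    rw [e1, map_sum]
    refine Finset.sum_congr rfl fun t _ => ?_
    rw [map_mul, map_mul, hF, aeval_C, ← hM' t, ← IsScalarTower.algebraMap_apply, algebraMap_up]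
  obtain ⟨M₀, hM₀⟩ := hM 0 fun f hf => by
    rw [h𝒢0] at hf
    exact ⟨_, (Finset.mem_singleton.1 hf).symm⟩
  obtain ⟨M₁, hM₁⟩ := hM 1 fun f hf => by
    rw [h𝒢1] at hf
    obtain ⟨t, -, rfl⟩ := Finset.mem_image.1 hf
    exact ⟨t, rfl⟩
  have hne : ∀ᶠ n in U, eval (y n).co (un 0 n) ≠ 0 := by
    refine Ultrafilter.eventually_not.2 fun h0 => ?_
    have h1 : (germ U fun n => eval (y n).co (un 0 n)) = 0 := germ_eq_zero.2 h0
    rw [← hev, h𝒢0, Finset.sum_singleton, map_mul, hF, aeval_C] at h1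
    rw [h𝒢0, Finset.sum_singleton] at hu0
    refine hu0 ?_
    rw [(map_eq_zero _).1 ((mul_eq_zero.1 h1).resolve_right hz0), map_zero, zero_mul]
    exact zero_mem _
  refine B.seq_core y hH hY hg hd hnn (un := fun n i => un i n) hun
    (md := none) ⟨hdim, nofun⟩ (η := η / 2) (by positivity) ?_
  filter_upwards [hbad, hM₀, hM₁, hne, Lo.const hH (totalWeight k * Real.log (Nat.card J) +
    logHeight fun s : Fin 2 × J => ![M₀, M₁] s.1 s.2) (η / 2) (by positivity)]
    with n h1 h4 h5 h6 h9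
  refine ⟨fun h0 => h6 (congrFun h0 0), ?_⟩
  have h10 := logHeight_linearMap_apply_le (fun s : Fin 2 × J => ![M₀, M₁] s.1 s.2) (z n)
  have e : (fun i => ∑ t, ![M₀, M₁] i t * z n t) =
      ![eval (y n).co (un 0 n), eval (y n).co (un 1 n)] := by
    funext i
    fin_cases i
    · exact h4.symm
    · exact h5.symm
  dsimp only at h10
  rw [e] at h10
  have h11 : logHeight (y n).co = ht (y n) := rfl
  rw [h11]
  linarith

theorem mov_gcd (hY : IsGerm U Y y) (hg : B.Gens (Sm k hH) Y) (hd : 1 ≤ B.dim)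
    (hv : ∀ᶠ n in U, Rep (y n) (v n))
    (hgen : td (Sm k hH) (rat fun a => germ U fun n => v n a) = B.dim) {J : Type} [Fintype J]
    {F : J → MvPolynomial ι (Sm k hH)} {d : ℕ} (hF : ∀ j, (F j).IsHomogeneous d)
    (hc : Cd2 B (Sm k hH) F) {z : α → J → k}
    (hz : ∀ j, aeval (fun a => germ U fun n => v n a) (F j) = germ U fun n => z n j) {ε : ℝ}
    (hε : 0 < ε) : ∀ᶠ n in U, d * ht (y n) ≤ logHeight (z n) + ε * ht (y n) := by
  rcases Nat.eq_zero_or_pos d with rfl | hd1
  · refine .of_forall fun n => ?_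
    rw [Nat.cast_zero, zero_mul]
    exact add_nonneg (logHeight_nonneg _) (mul_nonneg hε.le (ht_nonneg _))
  by_contra hbad
  have hYv := hY.rep hv
  obtain ⟨j₀, hj₀⟩ : ∃ j, (germ U fun n => z n j) ≠ 0 := by
    by_contra h0
    obtain ⟨a, ha⟩ := hYv.unit
    have h1 := hc (Up U k) _ (fun h => ha.ne_zero (congrFun h a)) hYv.zero fun j =>
      (hz j).trans (not_not.1 fun h => h0 ⟨j, h⟩)
    rw [hgen] at h1
    have h2 : B.dim + 2 ≤ B.dim := by exact_mod_cast h1
    omega
  have hu : ∀ n, ∃ c : kˣ, Rep (y n) (v n) → ∀ a, (y n).co a = c * v n a := fun n => by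
    by_cases h : Rep (y n) (v n)
    · exact (h.exists_smul (rep_co _)).imp fun _ h _ => h
    · exact ⟨1, fun h' => (h h').elim⟩
  choose c hc' using hu
  have e : (fun a => germ U fun n => (y n).co a) =
      fun a => (germ U fun n => (c n : k)) * germ U fun n => v n a := funext fun a => by
    rw [← map_mul, germ_eq]
    exact hv.mono fun n h => hc' n h a
  have e1 : ∀ j, (germ U fun n => (c n : k) ^ d * z n j) =
      (germ U fun n => (c n : k)) ^ d * germ U fun n => z n j := fun j => by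
    rw [← map_pow, ← map_mul]
    rfl
  refine gcd1_co hY hg hd hd1 hF hc (z := fun n j => (c n : k) ^ d * z n j) (j₀ := j₀)
    (fun j => by rw [e, aeval_mul_of_hom (hF j), hz, e1]) ?_ hε
    ((Ultrafilter.eventually_not.2 hbad).mono fun n h => ?_)
  · rw [e1]
    exact mul_ne_zero (pow_ne_zero _ (germ_ne_zero.2 (.of_forall fun n => (c n).ne_zero))) hj₀
  · rw [logHeight_mul_left (pow_ne_zero d (c n).ne_zero)]
    exact (not_le.1 h).le

end Pool.Agent.Lib.MP_651af7_nt.Gm
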