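import Pool.Agent.Lib.MP_651af7_nt.Av.LosB

/-! Small generic points. -/

namespace Pool.Agent.Lib.MP_651af7_nt.Gm

open MvPolynomial Height Filter Av

variable {α : Type} {U : Ultrafilter α} {H : α → ℝ}

theorem sat (hH : Tendsto H U atTop) {Z : Type} (ht : Z → ℝ) (R : ℕ → α → Z → Prop)
    (h : ∀ N, ∃ z, ∀ᶠ n in U, ∀ i ≤ N, R i n z) :
    ∃ c : α → Z, Lo U H (fun n => ht (c n)) ∧ ∀ i, ∀ᶠ n in U, R i n (c n) := by
  classical
  choose z hz using h
  obtain ⟨P, hP⟩ : ∃ P : α → ℕ → Prop, ∀ n N,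
      P n N ↔ (∀ i ≤ N, R i n (z N)) ∧ N * |ht (z N)| ≤ H n := ⟨_, fun _ _ => Iff.rfl⟩
  have key : ∀ N : ℕ, ∀ᶠ n in U, N ≤ Nat.findGreatest (P n) ⌊H n⌋₊ ∧
      P n (Nat.findGreatest (P n) ⌊H n⌋₊) := fun N => by
    filter_upwards [hz N, hH.eventually_ge_atTop N, hH.eventually_ge_atTop (N * |ht (z N)|)]
      with n h1 h2 h3
    have h4 := (hP n N).2 ⟨h1, h3⟩
    exact ⟨Nat.le_findGreatest (Nat.le_floor h2) h4, Nat.findGreatest_spec (Nat.le_floor h2) h4⟩
  refine ⟨fun n => z (Nat.findGreatest (P n) ⌊H n⌋₊), fun ε hε => ?_,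
    fun i => (key i).mono fun n hn => ((hP _ _).1 hn.2).1 i hn.1⟩
  obtain ⟨N, hN⟩ := exists_nat_ge (1 / ε)
  refine (key N).mono fun n hn => (le_abs_self _).trans ?_
  have h1 := mul_le_mul_of_nonneg_left ((hP _ _).1 hn.2).2 hε.le
  have h2 := (div_le_iff₀' hε).1 (hN.trans (Nat.cast_le.2 hn.1))
  rw [← mul_assoc] at h1
  exact (le_mul_of_one_le_left (abs_nonneg _) h2).trans h1

variable {k : Type} [Field k]

theorem exists_small (hH : Tendsto H U atTop) {Z σ : Type} (ht : Z → ℝ) (co : Z → σ → k)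
    {S : Set (MvPolynomial σ (Up U k))} (hS : S.Countable)
    (h : ∀ s : Finset (MvPolynomial σ (Up U k)), (s : Set _) ⊆ S →
      ∃ z, ∀ F ∈ s, eval (fun a => algebraMap k (Up U k) (co z a)) F ≠ 0) :
    ∃ c : α → Z, Lo U H (fun n => ht (c n)) ∧
      ∀ F ∈ S, eval (fun a => germ U fun n => co (c n) a) F ≠ 0 := by
  classical
  rcases S.eq_empty_or_nonempty with rfl | hne
  · obtain ⟨z, -⟩ := h ∅ (by simp)
    exact ⟨fun _ => z, Lo.const hH _, by simp⟩
  obtain ⟨f, rfl⟩ := hS.exists_eq_range hne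
  choose p hp using fun i => exists_repr (f i)
  obtain ⟨c, h1, h2⟩ := sat hH ht (fun i n z => eval (co z) (p i n) ≠ 0) fun N => by
    obtain ⟨z, hz⟩ := h ((Finset.Iic N).image f) (by simp)
    refine ⟨z, (eventually_all_finite (Set.finite_le_nat N)).2 fun i hi => germ_ne_zero.1 ?_⟩
    rw [← (hp i).aeval fun _ => co z, aeval_eq_eval]
    exact hz _ (Finset.mem_image_of_mem f (Finset.mem_Iic.2 hi))
  refine ⟨c, h1, ?_⟩
  rintro _ ⟨i, rfl⟩
  rw [← aeval_eq_eval, (hp i).aeval fun n => co (c n)]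
  exact germ_ne_zero.2 (h2 i)

theorem countable_fg [Countable k] {E : Type} [Field E] [Algebra k E] {L : IntermediateField k E}
    (hL : L.FG) : Countable L := by
  obtain ⟨t, rfl⟩ := hL
  exact Cardinal.mk_le_aleph0_iff.1 ((IntermediateField.cardinalMk_adjoin_le k _).trans
    (sup_le (sup_le Cardinal.mk_le_aleph0 Cardinal.mk_le_aleph0) le_rfl))

theorem exists_indep [NumberField k] (hH : Tendsto H U atTop) (L : IntermediateField k (Up U k))
    (hL : L.FG) (d : ℕ) :
    ∃ c : Fin d → Up U k, (∀ i, c i ∈ Sm k hH) ∧ AlgebraicIndependent L c := by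
  have : Countable k := (Module.finBasis ℚ k).equivFun.injective.countable
  have := countable_fg hL
  have : Countable (MvPolynomial (Fin d) L) := Cardinal.mk_le_aleph0_iff.1
    (cardinalMk_le_max.trans (max_le (max_le Cardinal.mk_le_aleph0 Cardinal.mk_le_aleph0) le_rfl))
  obtain ⟨c, h1, h2⟩ := exists_small hH (fun z : Fin d → k => ∑ i, logHeight₁ (z i)) id
    (S := MvPolynomial.map (algebraMap L (Up U k)) '' {G | G ≠ 0})
    ((Set.to_countable _).image _) fun s hs => by
      have h0 : ∏ F ∈ s, F ≠ 0 := Finset.prod_ne_zero_iff.2 fun F hF => by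
        obtain ⟨G, hG, rfl⟩ := hs hF
        exact (map_ne_zero_iff _ (map_injective _ (algebraMap L (Up U k)).injective)).2 hG
      by_contra hc
      refine h0 (funext_set (fun _ => Set.range (algebraMap k (Up U k)))
        (fun _ => Set.infinite_range_of_injective (algebraMap k _).injective) fun x hx => ?_)
      choose z hz using fun i => hx i trivial
      obtain rfl : (fun i => algebraMap k (Up U k) (z i)) = x := funext hz
      rw [map_prod, map_zero]
      by_contra h3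
      exact hc ⟨z, Finset.prod_ne_zero_iff.1 h3⟩
  refine ⟨fun i => germ U fun n => c n i, fun i => (mem_sm_iff hH).2 (h1.mono (.of_forall fun n =>
    Finset.single_le_sum (f := fun i => logHeight₁ (c n i)) (fun _ _ => zero_le_logHeight₁ _)
      (Finset.mem_univ i))), algebraicIndependent_iff.2 fun G hG => ?_⟩
  by_contra h0
  exact h2 _ ⟨G, h0, rfl⟩ (by rw [eval_map, ← aeval_def]; exact hG)

end Pool.Agent.Lib.MP_651af7_nt.Gm
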