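import Pool.Agent.Lib.MP_651af7_nt.Gm.HfU
import Pool.Agent.Lib.MP_651af7_nt.Gm.Sat
import Pool.Agent.Lib.MP_651af7_nt.Gm.Gcd1
import Pool.Agent.Lib.MP_651af7_nt.Av.LosR

/-! The asymptotic height of a generic sequence. -/

namespace Pool.Agent.Lib.MP_651af7_nt.Gm

open MvPolynomial Height Filter Av Av.AV

variable {k ι α : Type} [Field k] [NumberField k] [Fintype ι] {U : Ultrafilter α} {B : AV k ι}
  {y : α → B.Pt k} {hH : Tendsto (fun n => ht (y n)) U atTop} {Y : B.Pt (Up U k)}
  {v : α → ι → k}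

theorem set0 (hY : IsGerm U Y y) (hg : B.Gens (Sm k hH) Y) (hd : 1 ≤ B.dim) {a₁ : ι}
    (hv : ∀ᶠ n in U, Rep (y n) (v n) ∧ v n a₁ = 1)
    (hgen : td (Sm k hH) (rat fun a => germ U fun n => v n a) = B.dim)
    {h : Hf (Sm k hH) (Up U k)} (hh : ∀ {J : Type} [Fintype J] (z : α → J → k),
      h.η (fun j => germ U fun n => z n j) = ev U (fun n => ht (y n)) fun n => logHeight (z n)) :
    Set0 B (Sm k hH) h fun a => germ U fun n => v n a := by
  classical
  have hv1 : ∀ᶠ n in U, Rep (y n) (v n) := hv.mono fun _ h => h.1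
  have hht : ∀ᶠ n in U, logHeight (v n) = ht (y n) := hv1.mono fun n hn => by
    obtain ⟨u, hu⟩ := hn
    have e : v n = (u : k) • (y n).co := funext fun a => hu a
    rw [e, logHeight_smul_eq_logHeight _ u.ne_zero]
    rfl
  refine ⟨(relCl_sm hH).1, hd, ⟨a₁, ?_⟩, fun f hf => ?_, hgen, ?_, fun {J} _ F d hF hc => ?_,
    fun L hL _ d => exists_indep hH L hL d⟩
  · rw [← map_one (germ U), germ_eq]
    exact hv.mono fun _ h => h.2
  · rw [aeval_germ, germ_eq_zero]
    exact hv1.mono fun n hn => by rw [← aeval_eq_eval]; exact hn.zero f hf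
  · rw [hh v, ← ENNReal.ofReal_one]
    refine ev_le hH fun ε hε => ?_
    filter_upwards [hht, hH.eventually_ge_atTop 0] with n h1 h2
    rw [h1, one_mul]
    exact le_add_of_nonneg_right (mul_nonneg hε.le h2)
  · choose w hw using fun j => germ_surj U (aeval (fun a => germ U fun n => v n a) (F j))
    have hz : ∀ j, aeval (fun a => germ U fun n => v n a) (F j) = germ U fun n => w j n :=
      fun j => (hw j).symm
    rw [funext hz, hh fun n j => w j n, ← ENNReal.ofReal_natCast]
    exact le_ev hH fun ε hε => mov_gcd hY hg hd hv1 hgen hF hc (z := fun n j => w j n) hz hε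

end Pool.Agent.Lib.MP_651af7_nt.Gm
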