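import Pool.Agent.Lib.MP_651af7_nt.Gm.HDefs
import Pool.Agent.Lib.MP_651af7_nt.Jn.Gel
import Pool.Agent.Lib.MP_651af7_nt.Av.EAd

/-! The inequality of Gelfond for a family. -/

namespace Pool.Agent.Lib.MP_651af7_nt.Gm

open Polynomial Height

theorem gelk_ne {k T : Type} [Field k] {D : ℕ} {c : T → k[X]} {t : T} (h0 : c t ≠ 0)
    (hd : (c t).natDegree ≤ D) : (fun p : T × Fin (D + 1) => (c p.1).coeff p.2) ≠ 0 := fun h =>
  leadingCoeff_ne_zero.2 h0 (congrFun h (t, ⟨_, Nat.lt_succ_of_le hd⟩))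

theorem gel_k (k : Type) [Field k] [NumberField k] (T : Type) [Fintype T] (D : ℕ) :
    ∃ C : ℝ, ∀ (c : T → k[X]) (N : k[X]), c ≠ 0 → N ≠ 0 → (∀ t, (c t * N).natDegree ≤ D) →
      logHeight (fun p : T × Fin (D + 1) => (c p.1).coeff p.2) + logHeight (cv D N) ≤
        logHeight (fun p : T × Fin (D + 1) => (c p.1 * N).coeff p.2) + C := by
  refine ⟨(3 * D : ℕ) * (totalWeight k * Real.log 2), fun c N hc hN hd => ?_⟩
  obtain ⟨t₀, h₀⟩ : ∃ t, c t ≠ 0 := Function.ne_iff.1 hc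
  have : Nonempty T := ⟨t₀⟩
  have dN : N.natDegree ≤ D := (Nat.le_add_left _ _).trans ((natDegree_mul h₀ hN).ge.trans (hd t₀))
  have dc : ∀ t, (c t).natDegree ≤ D := fun t => by
    rcases eq_or_ne (c t) 0 with h | h
    · simp [h]
    · exact (Nat.le_add_right _ _).trans ((natDegree_mul h hN).ge.trans (hd t))
  have hx := gelk_ne h₀ (dc t₀)
  have hy : cv D N ≠ 0 := fun h =>
    leadingCoeff_ne_zero.2 hN (congrFun h ⟨_, Nat.lt_succ_of_le dN⟩)
  have hz := gelk_ne (c := fun t => c t * N) (mul_ne_zero h₀ hN) (hd t₀)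
  have hE := (Av.ad_E (k := k) one_le_two).pow (3 * D)
  rw [← Av.gsum_nm hx, ← Av.gsum_nm hy, ← Av.gsum_nm hz,
    ← Vj.gsum_add (Av.finS_nm _) (Av.finS_nm _)]
  refine le_trans ?_ (add_le_add le_rfl hE.le)
  rw [← Vj.gsum_add (Av.finS_nm _) hE.fin]
  refine Av.gsum_mono ((Av.finS_nm _).add (Av.finS_nm _)) ((Av.finS_nm _).add hE.fin)
    fun v hv => ?_
  rw [← Real.log_mul (Av.nm_pos v hx).ne' (Av.nm_pos v hy).ne',
    ← Real.log_mul (Av.nm_pos v hz).ne' (hE.pos v).ne']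
  refine Real.log_le_log (mul_pos (Av.nm_pos v hx) (Av.nm_pos v hy)) ?_
  obtain ⟨p, hp⟩ := Av.exists_nm v fun p : T × Fin (D + 1) => (c p.1).coeff p.2
  obtain ⟨j, hj⟩ := Av.exists_nm v (cv D N)
  have h := Jn.gl_div hv (Q := c p.1) (y := N) (n := 1) (by rw [pow_one]) (dc _) dN (hd p.1)
    (Av.nm_nn v fun p : T × Fin (D + 1) => (c p.1 * N).coeff p.2) (fun i => by
      rcases Nat.lt_or_ge D i with hi | hi
      · rw [coeff_eq_zero_of_natDegree_lt ((hd _).trans_lt hi), map_zero]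
        exact Av.nm_nn _ _
      · exact Av.le_nm v (fun p : T × Fin (D + 1) => (c p.1 * N).coeff p.2)
          (p.1, ⟨i, Nat.lt_succ_of_le hi⟩)) p.2 j
  rw [← hp, ← hj, mul_comm (Av.nm _ _), show 3 * D = D + D * 1 + D by ring]
  simpa only [pow_one, cv] using h

end Pool.Agent.Lib.MP_651af7_nt.Gm
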