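import Pool.Agent.Lib.MP_651af7_nt.Av.Voc

/-! Asymptotic heights: vocabulary. -/

namespace Pool.Agent.Lib.MP_651af7_nt.Gm

open Polynomial Filter Av
open scoped ENNReal

/-- The coefficients up to degree `D`. -/
def cv {R : Type} [Semiring R] (D : ℕ) (p : R[X]) : Fin (D + 1) → R := fun j => p.coeff j

/-- A height on vectors over `E` for which the elements of `K` are constants. -/
structure Hf (K E : Type) [Field K] [Field E] [Algebra K E] where
  /-- the height -/
  η : ∀ {J : Type} [Fintype J], (J → E) → ℝ≥0∞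
  lin : ∀ {I J : Type} [Fintype I] [Fintype J] (w : J → E) (w' : I → E),
    (∀ i, w' i ∈ Submodule.span K (Set.range w)) → η w' ≤ η w
  smul : ∀ {J : Type} [Fintype J] (c : E) (w : J → E), c ≠ 0 → η (fun j => c * w j) = η w
  seg : ∀ {I J : Type} [Fintype I] [Fintype J] (x : I → E) (y : J → E),
    η (fun p : I × J => x p.1 * y p.2) ≤ η x + η y
  pow : ∀ {J : Type} [Fintype J] (w : J → E) (n : ℕ), η (fun j => w j ^ n) = n * η w
  gel : ∀ {T : Type} [Fintype T] (D : ℕ) (c : T → E[X]) (N : E[X]), c ≠ 0 → N ≠ 0 →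
    (∀ t, (c t * N).natDegree ≤ D) →
    η (fun p : T × Fin (D + 1) => (c p.1).coeff p.2) + η (cv D N) ≤
      η fun p : T × Fin (D + 1) => (c p.1 * N).coeff p.2

variable {K E : Type} [Field K] [Field E] [Algebra K E]

/-- The height of a polynomial. -/
def Hf.hp (h : Hf K E) (p : E[X]) : ℝ≥0∞ := h.η (cv p.natDegree p)

/-- Restriction of the constants. -/
def Hf.res (h : Hf K E) (K' : Type) [Field K'] [Algebra K' E]
    (hK : ∀ c : K', algebraMap K' E c ∈ Set.range (algebraMap K E)) : Hf K' E where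
  η := h.η
  lin w w' hw := h.lin w w' fun i => by
    refine Submodule.span_induction (p := fun z _ => z ∈ Submodule.span K (Set.range w))
      (fun _ hz => Submodule.subset_span hz) (zero_mem _) (fun _ _ _ _ => add_mem)
      (fun c z _ hz => ?_) (hw i)
    obtain ⟨c', hc⟩ := hK c
    rw [Algebra.smul_def, ← hc, ← Algebra.smul_def]
    exact Submodule.smul_mem _ _ hz
  smul := h.smul
  seg := h.seg
  pow := h.pow
  gel := h.gel

/-- The limit of `f / H` along `U`. -/
noncomputable def ev {α : Type} (U : Ultrafilter α) (H f : α → ℝ) : ℝ≥0∞ :=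
  limsup (fun n => ENNReal.ofReal (f n / H n)) U

/-- The common zeros on `B` of the forms `F` have codimension at least two over `K`. -/
def Cd2 {k ι : Type} [Field k] (B : AV k ι) (K : Type) [Field K] [Algebra k K] {J : Type}
    (F : J → MvPolynomial ι K) : Prop :=
  ∀ (M : Type) [Field M] [Algebra k M] [Algebra K M] [IsScalarTower k K M] (w : ι → M), w ≠ 0 →
    (∀ f ∈ B.I, MvPolynomial.aeval w f = 0) → (∀ j, MvPolynomial.aeval w (F j) = 0) →
    td K (rat w) + 2 ≤ B.dim

/-- The point `v` is generic on `B` over `K`, has height at most one, forms without common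
divisor have full height, and `K` has enough independent elements. -/
structure Set0 {k ι E : Type} [Field k] [Fintype ι] [Field E] [Algebra k E] (B : AV k ι)
    (K : IntermediateField k E) (h : Hf K E) (v : ι → E) : Prop where
  cl : RelCl k K
  pos : 1 ≤ B.dim
  one : ∃ a, v a = 1
  zero : ∀ f ∈ B.I, MvPolynomial.aeval v f = 0
  gen : td K (rat v) = B.dim
  le : h.η v ≤ 1
  gcd : ∀ {J : Type} [Fintype J] (F : J → MvPolynomial ι K) (d : ℕ),
    (∀ j, (F j).IsHomogeneous d) → Cd2 B K F → (d : ℝ≥0∞) ≤ h.η fun j => MvPolynomial.aeval v (F j)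
  ind : ∀ L : IntermediateField k E, L.FG → L ≤ K → ∀ d : ℕ,
    ∃ c : Fin d → E, (∀ i, c i ∈ K) ∧ AlgebraicIndependent L c

end Pool.Agent.Lib.MP_651af7_nt.Gm
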