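import Pool.Agent.Lib.MP_651af7_nt.Gm.HDefs

/-! Consequences of the laws of a height. -/

namespace Pool.Agent.Lib.MP_651af7_nt.Gm

open Polynomial
open scoped ENNReal

namespace Hf

variable {K E : Type} [Field K] [Field E] [Algebra K E] (h : Hf K E)

theorem hfa_sub {I J : Type} [Fintype I] [Fintype J] {w : J → E} {w' : I → E}
    (hw : ∀ i, w' i = 0 ∨ ∃ j, w j = w' i) : h.η w' ≤ h.η w :=
  h.lin w w' fun i => (hw i).elim (fun e => e ▸ zero_mem _) fun e => Submodule.subset_span e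

theorem hfa_one {J : Type} [Fintype J] : h.η (fun _ : J => (1 : E)) = 0 := by
  simpa using h.pow (fun _ : J => (1 : E)) 0

theorem hfa_coeff (p : E[X]) (i : ℕ) : p.coeff i = 0 ∨ ∃ j, cv p.natDegree p j = p.coeff i :=
  (lt_or_ge p.natDegree i).imp coeff_eq_zero_of_natDegree_lt
    fun c => ⟨⟨i, Nat.lt_succ_of_le c⟩, rfl⟩

theorem eta_cv {p : E[X]} {D : ℕ} (hD : p.natDegree ≤ D) : h.η (cv D p) = h.hp p :=
  le_antisymm (h.hfa_sub fun i => hfa_coeff p i)
    (h.hfa_sub fun i => .inr ⟨⟨i, i.2.trans_le (Nat.succ_le_succ hD)⟩, rfl⟩)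

theorem hp_mul {p q : E[X]} (hp : p ≠ 0) (hq : q ≠ 0) : h.hp (p * q) = h.hp p + h.hp q := by
  refine le_antisymm (le_trans (h.lin _ _ fun i => ?_)
    (h.seg (cv p.natDegree p) (cv q.natDegree q))) ?_
  · rw [cv, coeff_mul]
    refine sum_mem fun x _ => ?_
    rcases hfa_coeff p x.1 with e | ⟨a, e⟩
    · rw [e, zero_mul]
      exact zero_mem _
    rcases hfa_coeff q x.2 with e' | ⟨b, e'⟩
    · rw [e', mul_zero]
      exact zero_mem _
    exact Submodule.subset_span ⟨(a, b), by rw [← e, ← e']⟩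
  · have h1 := h.gel (p * q).natDegree (fun _ : Unit => p) q
      (fun e => hp (congrFun e ())) hq fun _ => le_rfl
    have h2 := natDegree_mul hp hq
    rw [h.eta_cv (by omega)] at h1
    refine le_trans (add_le_add_left ?_ _) (h1.trans (h.hfa_sub fun i => .inr ⟨i.2, rfl⟩))
    rw [← h.eta_cv (D := (p * q).natDegree) (by omega)]
    exact h.hfa_sub fun i => .inr ⟨((), i), rfl⟩

theorem hp_C_mul {c : E} (hc : c ≠ 0) (p : E[X]) : h.hp (C c * p) = h.hp p := by
  rw [← h.eta_cv (natDegree_C_mul_le c p)]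
  refine Eq.trans ?_ (h.smul c (cv p.natDegree p) hc)
  exact congrArg (fun w : Fin (p.natDegree + 1) → E => h.η w) (funext fun j => coeff_C_mul p)

theorem hp_pow {p : E[X]} (hp : p ≠ 0) (n : ℕ) : h.hp (p ^ n) = n * h.hp p := by
  induction n with
  | zero =>
    rw [pow_zero, ← h.eta_cv natDegree_one.le, Nat.cast_zero, zero_mul, ← h.hfa_one (J := Fin 1)]
    exact congrArg h.η (funext fun j => by simp [cv])
  | succ n ih => rw [pow_succ, h.hp_mul (pow_ne_zero n hp) hp, ih, Nat.cast_succ, add_mul, one_mul]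

theorem hp_dvd {p q : E[X]} (hq : q ≠ 0) (hd : p ∣ q) : h.hp p ≤ h.hp q := by
  obtain ⟨r, rfl⟩ := hd
  rw [h.hp_mul (left_ne_zero_of_mul hq) (right_ne_zero_of_mul hq)]
  exact le_self_add

theorem eta_outer {T : Type} [Fintype T] {c : T → E} (hc : c ≠ 0) {g : E[X]} (hg : g ≠ 0) {D : ℕ}
    (hD : g.natDegree ≤ D) :
    h.η (fun p : T × Fin (D + 1) => c p.1 * g.coeff p.2) = h.η c + h.hp g := by
  rw [← h.eta_cv hD]
  refine le_antisymm (h.seg c (cv D g)) ?_
  have h1 := h.gel D (fun t => C (c t)) g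
    (fun e => hc (funext fun t => C_eq_zero.1 (congrFun e t))) hg
    fun t => (natDegree_C_mul_le _ g).trans hD
  simp only [coeff_C_mul] at h1
  exact le_trans (add_le_add_left (h.hfa_sub fun t => .inr ⟨(t, 0), coeff_C_zero⟩) _) h1

theorem eta_span {L J : Type} [Fintype L] [Fintype J] (r : L → E) (n : ℕ) (w : J → E)
    (hw : ∀ j, w j ∈ Submodule.span K (Set.range r) ^ n) : h.η w ≤ n * h.η r := by
  obtain ⟨T, _, R, h1, h2⟩ : ∃ (T : Type) (_ : Fintype T) (R : T → E), h.η R ≤ n * h.η r ∧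
      Submodule.span K (Set.range r) ^ n ≤ Submodule.span K (Set.range R) := by
    clear hw
    induction n with
    | zero =>
      refine ⟨Unit, inferInstance, fun _ => 1, h.hfa_one.le.trans zero_le, ?_⟩
      rw [pow_zero, Submodule.one_eq_span, Set.range_const]
    | succ n ih =>
      obtain ⟨T, _, R, h1, h2⟩ := ih
      refine ⟨T × L, inferInstance, fun p => R p.1 * r p.2, (h.seg R r).trans ?_, ?_⟩
      · rw [Nat.cast_succ, add_mul, one_mul]
        exact add_le_add_left h1 _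
      · rw [pow_succ]
        refine (mul_le_mul_left h2 _).trans ?_
        rw [Submodule.span_mul_span]
        refine Submodule.span_mono ?_
        rintro _ ⟨_, ⟨t, rfl⟩, _, ⟨l, rfl⟩, rfl⟩
        exact ⟨(t, l), rfl⟩
  exact (h.lin R w fun j => h2 (hw j)).trans h1

end Hf

end Pool.Agent.Lib.MP_651af7_nt.Gm
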