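import Pool.Agent.Lib.MP_651af7_nt.Gm.HfB1

/-! The height of the bottom coefficient. -/

namespace Pool.Agent.Lib.MP_651af7_nt.Gm

open Polynomial
open scoped ENNReal

variable {K E : Type} [Field K] [Field E] [Algebra K E] (h : Hf K E)

theorem Out.ht {T L : Type} [Fintype T] [Fintype L] {r : L → E} {a : T → E[X]} {ν γ δ D : ℕ}
    {κ : E} {c : T → E[X]} {N : E[X][X]} (H : Out K r a ν γ δ D κ c N) {m d : ℕ}
    (hr : h.η r ≤ m) {g : E[X]} (hg : g ≠ 0) (hd : g.natDegree ≤ d) {s : T → E} {t₀ : T}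
    (h0 : s t₀ ≠ 0) (ha : ∀ t, a t = C (s t) * g)
    (hm : (m : ℝ≥0∞) ≤ h.η fun p : T × Fin (d + 1) => (a p.1).coeff p.2) {P : E[X]} {n : ℕ}
    (hP : P ^ n ∣ N.coeff 0) : n * h.hp P ≤ ν * h.hp g := by
  have e : ∀ t, C ((c t).coeff γ) * N.coeff δ = C (κ * s t ^ ν) * g ^ ν := fun t => by
    rw [H.top, ha, mul_pow, ← C_pow, C_mul, mul_assoc]
  have hgν : g ^ ν ≠ 0 := pow_ne_zero _ hg
  have hκ : κ * s t₀ ^ ν ≠ 0 := mul_ne_zero H.ne (pow_ne_zero _ h0)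
  have h1 : C ((c t₀).coeff γ) * N.coeff δ ≠ 0 := by
    rw [e]
    exact mul_ne_zero (C_ne_zero.2 hκ) hgν
  have hc0 : (c t₀).coeff γ ≠ 0 := C_ne_zero.1 (left_ne_zero_of_mul h1)
  have hc : c ≠ 0 := fun h2 => hc0 (by rw [h2]; simp)
  have hN : N ≠ 0 := fun h2 => H.bot (by rw [h2]; simp)
  have hs : s ≠ 0 := fun h2 => h0 (congrFun h2 t₀)
  have hsν : (fun t => s t ^ ν) ≠ 0 := fun h2 => pow_ne_zero ν h0 (congrFun h2 t₀)
  have h3 : h.hp (N.coeff δ) = ν * h.hp g := by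
    rw [← h.hp_C_mul hc0, e, h.hp_C_mul hκ, h.hp_pow hg]
  have h4 : (g ^ ν).natDegree ≤ D := by
    rw [← natDegree_C_mul hκ, ← e, natDegree_C_mul hc0]
    exact H.dT δ
  have h5 : (fun p : T × Fin (D + 1) => (c p.1).coeff γ * (N.coeff δ).coeff p.2) =
      fun p : T × Fin (D + 1) => κ * (s p.1 ^ ν * (g ^ ν).coeff p.2) := by
    funext p
    rw [← coeff_C_mul, e, coeff_C_mul, mul_assoc]
  have h6 : (fun p : T × Fin (d + 1) => (a p.1).coeff p.2) =
      fun p : T × Fin (d + 1) => s p.1 * g.coeff p.2 := by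
    funext p
    rw [ha, coeff_C_mul]
  rw [h6, h.eta_outer hs hg hd] at hm
  have h7 := h.top hc hN H.dc H.dN H.dT
  rw [h5, h.smul _ _ H.ne, h.eta_outer hsν hgν h4, h.pow, h.hp_pow hg, ← mul_add, h3] at h7
  have h8 := (h.eta_span r ν (fun p : T × Fin (γ + δ + 1) × Fin (D + 1) =>
    (((c p.1).map C * N).coeff p.2.1).coeff p.2.2) fun p => H.mem _ _ _).trans
      (mul_le_mul_right hr _)
  have h9 : h.hp (N.coeff 0) + ν * (m : ℝ≥0∞) ≤ ν * h.hp g + ν * (m : ℝ≥0∞) :=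
    (add_le_add_right (mul_le_mul_right hm _) _).trans (h7.trans (add_le_add_right h8 _))
  have h10 := (ENNReal.add_le_add_iff_right
    (ENNReal.mul_ne_top (ENNReal.natCast_ne_top ν) (ENNReal.natCast_ne_top m))).1 h9
  rcases Nat.eq_zero_or_pos n with rfl | hn
  · simp
  have hP0 : P ≠ 0 := by
    rintro rfl
    rw [zero_pow hn.ne', zero_dvd_iff] at hP
    exact H.bot hP
  rw [← h.hp_pow hP0]
  exact (h.hp_dvd H.bot hP).trans h10

theorem lim_le {x y : ℝ≥0∞} {r g : ℕ} (H : ∀ n : ℕ, n * x ≤ (n * r + g : ℕ) * y) (hy : y ≠ ⊤) :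
    x ≤ r * y := by
  have hx : x ≠ ⊤ := by
    have h1 := H 1
    rw [Nat.cast_one, one_mul] at h1
    exact ne_top_of_le_ne_top (ENNReal.mul_ne_top (ENNReal.natCast_ne_top _) hy) h1
  lift x to NNReal using hx
  lift y to NNReal using hy
  have H' : ∀ n : ℕ, (n : ℝ) * x ≤ (n * r + g) * y := fun n => by exact_mod_cast H n
  have key : (x : ℝ) ≤ r * y := by
    by_contra hc
    push Not at hc
    obtain ⟨n, hn⟩ := exists_nat_gt (g * y / ((x : ℝ) - r * y))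
    rw [div_lt_iff₀ (by linarith)] at hn
    have := H' n
    nlinarith
  exact_mod_cast key

end Pool.Agent.Lib.MP_651af7_nt.Gm
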