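import Pool.Agent.Lib.MP_651af7_nt.Gm.HfA
import Pool.Agent.Lib.MP_651af7_nt.Gm.CDefs

/-! Kronecker substitution and the height of the bottom coefficient. -/

namespace Pool.Agent.Lib.MP_651af7_nt.Gm

open Polynomial
open scoped ENNReal

variable {K E : Type} [Field K] [Field E] [Algebra K E] (h : Hf K E)

theorem hfb1_kron {M : E[X][X]} {D : ℕ} (hM : ∀ i, (M.coeff i).natDegree ≤ D) (i : ℕ) {j : ℕ}
    (hj : j ≤ D) : (M.eval (X ^ (D + 1))).coeff (i * (D + 1) + j) = (M.coeff i).coeff j := by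
  rw [eval_eq_sum, sum_def, finsetSum_coeff, Finset.sum_eq_single i]
  · rw [← pow_mul, coeff_mul_X_pow', if_pos (by rw [mul_comm]; omega), mul_comm (D + 1),
      Nat.add_sub_cancel_left]
  · intro a _ ha
    rw [← pow_mul, coeff_mul_X_pow', mul_comm (D + 1)]
    split_ifs with c
    · refine coeff_eq_zero_of_natDegree_lt ((hM a).trans_lt ?_)
      rcases lt_or_gt_of_ne ha with e | e
      · have := Nat.mul_le_mul_right (D + 1) (show a + 1 ≤ i from e)
        rw [add_mul] at this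
        omega
      · have := Nat.mul_le_mul_right (D + 1) (show i + 1 ≤ a from e)
        rw [add_mul] at this
        omega
    · rfl
  · intro hi
    rw [notMem_support_iff.1 hi, zero_mul]
    rfl

theorem hfb1_kron' {M : E[X][X]} {D : ℕ} (hM : ∀ i, (M.coeff i).natDegree ≤ D) (n : ℕ) :
    (M.eval (X ^ (D + 1))).coeff n = (M.coeff (n / (D + 1))).coeff (n % (D + 1)) := by
  rw [← hfb1_kron hM _ (Nat.lt_succ_iff.1 (Nat.mod_lt n D.succ_pos)), Nat.div_add_mod']

theorem Hf.top {T : Type} [Fintype T] {c : T → E[X]} {N : E[X][X]} {γ δ D : ℕ} (hc : c ≠ 0)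
    (hN : N ≠ 0) (dc : ∀ t, (c t).natDegree ≤ γ) (dN : N.natDegree ≤ δ)
    (dT : ∀ i, (N.coeff i).natDegree ≤ D) :
    h.hp (N.coeff 0) + h.η (fun p : T × Fin (D + 1) => (c p.1).coeff γ * (N.coeff δ).coeff p.2) ≤
      h.hp (N.coeff δ) + h.η fun p : T × Fin (γ + δ + 1) × Fin (D + 1) =>
        (((c p.1).map C * N).coeff p.2.1).coeff p.2.2 := by
  have d0 : ∀ t i, (((c t).map C).coeff i).natDegree ≤ D := fun t i => by
    rw [coeff_map, natDegree_C]
    exact Nat.zero_le _
  have d1 : ∀ t i, (((c t).map C * N).coeff i).natDegree ≤ D := fun t i => by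
    rw [coeff_mul]
    refine natDegree_sum_le_of_forall_le _ _ fun x _ => ?_
    rw [coeff_map]
    exact (natDegree_C_mul_le _ _).trans (dT _)
  have e0 : ∀ t i, (((c t).map C).eval (X ^ (D + 1))).coeff (i * (D + 1)) = (c t).coeff i :=
    fun t i => by
      have := hfb1_kron (d0 t) i (Nat.zero_le D)
      rwa [add_zero, coeff_map, coeff_C_zero] at this
  have hdiv : ∀ n, n ≤ (γ + δ) * (D + 1) + D ↔ n / (D + 1) < γ + δ + 1 := fun n => by
    rw [Nat.div_lt_iff_lt_mul (Nat.add_one_pos D), add_mul (γ + δ)]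
    omega
  have g := h.gel ((γ + δ) * (D + 1) + D) (fun t => ((c t).map C).eval (X ^ (D + 1)))
    (N.eval (X ^ (D + 1))) (fun e => hc (funext fun t => Polynomial.ext fun i => by
      rw [← e0, congrFun e t]
      rfl)) (fun e => hN (Polynomial.ext fun i => Polynomial.ext fun j => by
      rcases le_or_gt j D with hj | hj
      · rw [← hfb1_kron dT i hj, e]
        rfl
      · exact coeff_eq_zero_of_natDegree_lt ((dT i).trans_lt hj))) fun t => by
      refine natDegree_le_iff_coeff_eq_zero.2 fun n hn => ?_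
      rw [← eval_mul, hfb1_kron' (d1 t), coeff_eq_zero_of_natDegree_lt (n := n / (D + 1)),
        coeff_zero]
      refine (natDegree_mul_le.trans (add_le_add (natDegree_map_le.trans (dc t)) dN)).trans_lt ?_
      exact not_lt.1 fun e => not_le.2 hn ((hdiv n).2 e)
  have h1 : h.hp (N.coeff 0) ≤ h.η (cv ((γ + δ) * (D + 1) + D) (N.eval (X ^ (D + 1)))) := by
    rw [← h.eta_cv (dT 0)]
    refine h.lin _ _ fun j => Submodule.subset_span ⟨⟨j, by omega⟩, ?_⟩
    have := hfb1_kron dT 0 (Nat.lt_succ_iff.1 j.isLt)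
    rwa [zero_mul, zero_add] at this
  have h2 : (h.η fun t => (c t).coeff γ) ≤
      h.η fun p : T × Fin ((γ + δ) * (D + 1) + D + 1) =>
        (((c p.1).map C).eval (X ^ (D + 1))).coeff p.2 :=
    h.lin _ _ fun t => Submodule.subset_span
      ⟨(t, ⟨γ * (D + 1), by rw [add_mul]; omega⟩), e0 t γ⟩
  have h3 : (h.η fun p : T × Fin ((γ + δ) * (D + 1) + D + 1) =>
      (((c p.1).map C).eval (X ^ (D + 1)) * N.eval (X ^ (D + 1))).coeff p.2) ≤
      h.η fun p : T × Fin (γ + δ + 1) × Fin (D + 1) =>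
        (((c p.1).map C * N).coeff p.2.1).coeff p.2.2 :=
    h.lin _ _ fun p => Submodule.subset_span
      ⟨(p.1, ⟨p.2 / (D + 1), (hdiv _).1 (Nat.lt_succ_iff.1 p.2.isLt)⟩,
        ⟨p.2 % (D + 1), Nat.mod_lt _ D.succ_pos⟩), by rw [← eval_mul, hfb1_kron' (d1 _)]⟩
  have h4 := h.seg (fun t => (c t).coeff γ) (cv D (N.coeff δ))
  rw [h.eta_cv (dT δ)] at h4
  calc _ ≤ h.η (cv ((γ + δ) * (D + 1) + D) (N.eval (X ^ (D + 1)))) +
        ((h.η fun t => (c t).coeff γ) + h.hp (N.coeff δ)) := add_le_add h1 h4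
    _ = h.hp (N.coeff δ) + ((h.η fun t => (c t).coeff γ) +
        h.η (cv ((γ + δ) * (D + 1) + D) (N.eval (X ^ (D + 1))))) := by ring
    _ ≤ _ := add_le_add le_rfl ((add_le_add h2 le_rfl).trans (g.trans h3))

end Pool.Agent.Lib.MP_651af7_nt.Gm
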