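import Pool.Agent.Lib.MP_651af7_nt.Gm.HDefs

/-! Limits of quotients along an ultrafilter. -/

namespace Pool.Agent.Lib.MP_651af7_nt.Gm

open Filter Topology
open scoped ENNReal

variable {α : Type} {U : Ultrafilter α} {H f g : α → ℝ}

theorem ev_tendsto (U : Ultrafilter α) (H f : α → ℝ) :
    Tendsto (fun n => ENNReal.ofReal (f n / H n)) U (𝓝 (ev U H f)) := by
  have h : Tendsto (fun n => ENNReal.ofReal (f n / H n)) U
      (𝓝 (U.map fun n => ENNReal.ofReal (f n / H n)).lim) :=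
    (U.map fun n => ENNReal.ofReal (f n / H n)).le_nhds_lim
  rw [ev, h.limsup_eq]
  exact h

theorem ev_tendsto_mul (U : Ultrafilter α) (H f : α → ℝ) (a : ℕ) :
    Tendsto (fun n => ENNReal.ofReal (a * f n / H n)) U (𝓝 (a * ev U H f)) := by
  refine (ENNReal.Tendsto.const_mul (ev_tendsto U H f)
    (Or.inr (ENNReal.natCast_ne_top a))).congr fun n => ?_
  rw [mul_div_assoc, ENNReal.ofReal_mul (Nat.cast_nonneg a), ENNReal.ofReal_natCast]

theorem ev_congr (h : ∀ᶠ n in U, f n = g n) : ev U H f = ev U H g :=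
  limsup_congr (h.mono fun n hn => by rw [hn])

theorem ev_nat_mul (U : Ultrafilter α) (H f : α → ℝ) (a : ℕ) :
    ev U H (fun n => a * f n) = a * ev U H f :=
  tendsto_nhds_unique (ev_tendsto U H _) (ev_tendsto_mul U H f a)

theorem ev_add (hH : Tendsto H U atTop) (hf0 : ∀ n, 0 ≤ f n) (hg0 : ∀ n, 0 ≤ g n) :
    ev U H (fun n => f n + g n) = ev U H f + ev U H g := by
  refine tendsto_nhds_unique (ev_tendsto U H _)
    (((ev_tendsto U H f).add (ev_tendsto U H g)).congr' ?_)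
  filter_upwards [hH.eventually_gt_atTop 0] with n hn
  rw [add_div, ENNReal.ofReal_add (div_nonneg (hf0 n) hn.le) (div_nonneg (hg0 n) hn.le)]

theorem ev_le_ev (hH : Tendsto H U atTop)
    (h : ∀ ε : ℝ, 0 < ε → ∀ᶠ n in U, f n ≤ g n + ε * H n) : ev U H f ≤ ev U H g := by
  refine ENNReal.le_of_forall_pos_le_add fun ε hε _ => ?_
  refine le_of_tendsto_of_tendsto (ev_tendsto U H f)
    ((ev_tendsto U H g).add_const (ε : ℝ≥0∞)) ?_
  filter_upwards [hH.eventually_gt_atTop 0, h ε hε] with n hn h1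
  rw [← ENNReal.ofReal_coe_nnreal]
  refine (ENNReal.ofReal_le_ofReal ?_).trans ENNReal.ofReal_add_le
  rw [div_add' _ _ _ hn.ne']
  exact div_le_div_of_nonneg_right h1 hn.le

theorem ev_const (hH : Tendsto H U atTop) (c : ℝ) :
    ev U H (fun n => c * H n) = ENNReal.ofReal c := by
  refine tendsto_nhds_unique (ev_tendsto U H _) (tendsto_const_nhds.congr' ?_)
  filter_upwards [hH.eventually_gt_atTop 0] with n hn
  rw [mul_div_assoc, div_self hn.ne', mul_one]

theorem ev_le (hH : Tendsto H U atTop) {c : ℝ}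
    (h : ∀ ε : ℝ, 0 < ε → ∀ᶠ n in U, f n ≤ c * H n + ε * H n) : ev U H f ≤ ENNReal.ofReal c :=
  (ev_le_ev hH h).trans (ev_const hH c).le

theorem le_ev (hH : Tendsto H U atTop) {c : ℝ}
    (h : ∀ ε : ℝ, 0 < ε → ∀ᶠ n in U, c * H n ≤ f n + ε * H n) : ENNReal.ofReal c ≤ ev U H f :=
  (ev_const hH c).ge.trans (ev_le_ev hH h)

theorem of_ev (hH : Tendsto H U atTop) (hg0 : ∀ n, 0 ≤ g n) {a b : ℕ} (hg : ev U H g ≠ ⊤)
    (h : a * ev U H f ≤ b * ev U H g) {ε : ℝ} (hε : 0 < ε) :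
    ∀ᶠ n in U, a * f n ≤ b * g n + ε * H n := by
  have h1 : a * ev U H f < b * ev U H g + ENNReal.ofReal ε :=
    h.trans_lt (ENNReal.lt_add_right (ENNReal.mul_ne_top (ENNReal.natCast_ne_top b) hg)
      (ENNReal.ofReal_pos.2 hε).ne')
  filter_upwards [hH.eventually_gt_atTop 0, (ev_tendsto_mul U H f a).eventually_lt
    ((ev_tendsto_mul U H g b).add_const (ENNReal.ofReal ε)) h1] with n hn h2
  have h3 : 0 ≤ b * g n / H n := div_nonneg (mul_nonneg (Nat.cast_nonneg b) (hg0 n)) hn.le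
  rw [← ENNReal.ofReal_add h3 hε.le, ENNReal.ofReal_lt_ofReal_iff (by linarith),
    div_add' _ _ _ hn.ne', div_lt_div_iff_of_pos_right hn] at h2
  exact h2.le

theorem ev_mono (hH : Tendsto H U atTop) {a b : ℕ} (hf0 : ∀ n, 0 ≤ f n) (hg0 : ∀ n, 0 ≤ g n)
    (h : ∀ ε : ℝ, 0 < ε → ∀ᶠ n in U, a * f n ≤ b * g n + ε * H n) :
    a * ev U H f ≤ b * ev U H g := by
  have _ := hf0
  have _ := hg0
  rw [← ev_nat_mul, ← ev_nat_mul]
  exact ev_le_ev hH h

end Pool.Agent.Lib.MP_651af7_nt.Gm
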