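import Pool.Agent.Lib.MP_651af7_nt.Gm.Gel
import Pool.Agent.Lib.MP_651af7_nt.Gm.HfU1
import Pool.Agent.Lib.MP_651af7_nt.Av.LosB

/-! The height on the ultrapower. -/

namespace Pool.Agent.Lib.MP_651af7_nt.Gm

open Polynomial Height Filter Av
open scoped ENNReal

variable {α : Type} {U : Ultrafilter α} {H f g : α → ℝ}

theorem hfu_tendsto (U : Ultrafilter α) (H f : α → ℝ) :
    Tendsto (fun n => ENNReal.ofReal (f n / H n)) U (nhds (ev U H f)) := by
  have h : Tendsto (fun n => ENNReal.ofReal (f n / H n)) U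
      (nhds (U.map fun n => ENNReal.ofReal (f n / H n)).lim) :=
    (U.map fun n => ENNReal.ofReal (f n / H n)).le_nhds_lim
  rw [ev, h.limsup_eq]
  exact h

theorem hfu_congr (h : ∀ᶠ n in U, f n = g n) : ev U H f = ev U H g :=
  limsup_congr (h.mono fun n hn => by rw [hn])

theorem hfu_add (hH : Tendsto H U atTop) (hf0 : ∀ n, 0 ≤ f n) (hg0 : ∀ n, 0 ≤ g n) :
    ev U H (fun n => f n + g n) = ev U H f + ev U H g := by
  refine tendsto_nhds_unique (hfu_tendsto U H _)
    (((hfu_tendsto U H f).add (hfu_tendsto U H g)).congr' ?_)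
  filter_upwards [hH.eventually_ge_atTop 0] with n hn
  rw [add_div, ENNReal.ofReal_add (div_nonneg (hf0 n) hn) (div_nonneg (hg0 n) hn)]

theorem hfu_le (hH : Tendsto H U atTop) (hf0 : ∀ n, 0 ≤ f n) (hg0 : ∀ n, 0 ≤ g n) {e : α → ℝ}
    (he : Lo U H e) (h : ∀ᶠ n in U, f n ≤ g n + e n) : ev U H f ≤ ev U H g := by
  have := ev_mono (a := 1) (b := 1) hH hf0 hg0 fun ε hε => by
    filter_upwards [h, he ε hε] with n h1 h2
    push_cast
    linarith
  simpa using this

theorem hfu_mul (hH : Tendsto H U atTop) (hf0 : ∀ n, 0 ≤ f n) (m : ℕ) :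
    ev U H (fun n => m * f n) = m * ev U H f := by
  induction m with
  | zero => simp [ev]
  | succ m ih =>
    have e : (fun n => ((m + 1 : ℕ) : ℝ) * f n) = fun n => m * f n + f n := by
      funext n
      push_cast
      ring
    rw [e, hfu_add hH (fun n => mul_nonneg (Nat.cast_nonneg m) (hf0 n)) hf0, ih]
    push_cast
    ring

section

variable {k : Type} [Field k] [NumberField k]

/-- The height of a vector of germs. -/
noncomputable def hfuEta (U : Ultrafilter α) (H : α → ℝ) {J : Type} [Fintype J]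
    (w : J → Up U k) : ℝ≥0∞ :=
  ev U H fun n => logHeight fun j => (germ_surj U (w j)).choose n

theorem hfu_eta {J : Type} [Fintype J] {w : J → Up U k} (z : α → J → k)
    (h : ∀ j, (germ U fun n => z n j) = w j) :
    hfuEta U H w = ev U H fun n => logHeight (z n) := by
  refine hfu_congr ?_
  have h1 : ∀ᶠ n in U, ∀ j, (germ_surj U (w j)).choose n = z n j :=
    eventually_all.2 fun j => (germ_eq U).1 ((germ_surj U (w j)).choose_spec.trans (h j).symm)
  exact h1.mono fun n hn => congrArg logHeight (funext hn)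

omit [NumberField k] in
theorem hfu_rep {J : Type} (w : J → Up U k) :
    ∃ z : α → J → k, ∀ j, (germ U fun n => z n j) = w j := by
  choose z hz using fun j => germ_surj U (w j)
  exact ⟨fun n j => z j n, hz⟩

omit [NumberField k] in
theorem hfu_lift (p : (Up U k)[X]) :
    ∃ q : (α → k)[X], q.map (germ U) = p ∧ q.degree = p.degree :=
  exists_degree_eq_of_mem_lifts ((mem_lifts p).2
    (map_surjective (germ U : (α → k) →+* Up U k) (fun a => germ_surj U a) p))

omit [NumberField k] in
theorem hfu_ne {q : (α → k)[X]} (h : q.map (germ U) ≠ 0) :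
    ∀ᶠ n in U, q.map (Pi.evalRingHom (fun _ => k) n) ≠ 0 := by
  have h1 : germ U (q.coeff (q.map (germ U)).natDegree) ≠ 0 := by
    rw [← coeff_map]
    exact leadingCoeff_ne_zero.2 h
  refine (germ_ne_zero.1 h1).mono fun n hn h0 => hn ?_
  have := congrArg (fun p => p.coeff (q.map (germ U)).natDegree) h0
  simpa using this

theorem hfu_lin (hH : Tendsto H U atTop) {I J : Type} [Fintype I] [Fintype J] (w : J → Up U k)
    (w' : I → Up U k) (hw : ∀ i, w' i ∈ Submodule.span (Sm k hH) (Set.range w)) :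
    hfuEta U H w' ≤ hfuEta U H w := by
  choose a ha using fun i => (Submodule.mem_span_range_iff_exists_fun _).1 (hw i)
  choose b hb hb' using fun p : I × J => (a p.1 p.2).2
  obtain ⟨z, hz⟩ := hfu_rep w
  rw [hfu_eta z hz, hfu_eta (fun n i => ∑ j, b (i, j) n * z n j) fun i => ?_]
  · refine hfu_le hH (fun n => logHeight_nonneg _) (fun n => logHeight_nonneg _)
      ((Lo.const hH (totalWeight k * Real.log (Nat.card J))).add
        (Lo.sum hH Finset.univ fun p _ => hb' p)) (.of_forall fun n => ?_)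
    have h1 := logHeight_linearMap_apply_le (fun p => b p n) (z n)
    have h2 := logHeight_le_sum fun p => b p n
    linarith
  · have e : (fun n => ∑ j, b (i, j) n * z n j) = ∑ j, b (i, j) * fun n => z n j := by
      funext n
      simp
    rw [e, map_sum, ← ha i]
    refine Finset.sum_congr rfl fun j _ => ?_
    rw [map_mul, hz, hb]
    rfl

theorem hfu_smul {J : Type} [Fintype J] (c : Up U k) (w : J → Up U k) (hc : c ≠ 0) :
    hfuEta U H (fun j => c * w j) = hfuEta U H w := by
  obtain ⟨z, hz⟩ := hfu_rep w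
  obtain ⟨d, rfl⟩ := germ_surj U c
  rw [hfu_eta z hz, hfu_eta (fun n j => d n * z n j) fun j => ?_]
  · exact hfu_congr ((germ_ne_zero.1 hc).mono fun n hn => logHeight_smul_eq_logHeight (z n) hn)
  · rw [← hz, ← map_mul]
    rfl

theorem hfu_seg (hH : Tendsto H U atTop) {I J : Type} [Fintype I] [Fintype J] (x : I → Up U k)
    (y : J → Up U k) :
    hfuEta U H (fun p : I × J => x p.1 * y p.2) ≤ hfuEta U H x + hfuEta U H y := by
  obtain ⟨z, hz⟩ := hfu_rep x
  obtain ⟨s, hs⟩ := hfu_rep y
  rw [hfu_eta z hz, hfu_eta s hs, hfu_eta (fun n (p : I × J) => z n p.1 * s n p.2) fun p => ?_,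
    ← hfu_add hH (fun n => logHeight_nonneg _) fun n => logHeight_nonneg _]
  · refine hfu_le hH (fun n => logHeight_nonneg _)
      (fun n => add_nonneg (logHeight_nonneg _) (logHeight_nonneg _)) (Lo.const hH 0)
      (.of_forall fun n => ?_)
    have h0 := add_nonneg (logHeight_nonneg (z n)) (logHeight_nonneg (s n))
    rw [add_zero]
    by_cases h1 : z n = 0
    · have e : (fun p : I × J => z n p.1 * s n p.2) = 0 := by
        funext p
        simp [h1]
      rwa [e, logHeight_zero]
    by_cases h2 : s n = 0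
    · have e : (fun p : I × J => z n p.1 * s n p.2) = 0 := by
        funext p
        simp [h2]
      rwa [e, logHeight_zero]
    exact (logHeight_fun_mul_eq h1 h2).le
  · rw [← hz, ← hs, ← map_mul]
    rfl

theorem hfu_pow (hH : Tendsto H U atTop) {J : Type} [Fintype J] (w : J → Up U k) (m : ℕ) :
    hfuEta U H (fun j => w j ^ m) = m * hfuEta U H w := by
  obtain ⟨z, hz⟩ := hfu_rep w
  rw [hfu_eta z hz, hfu_eta (fun n => z n ^ m) fun j => ?_,
    ← hfu_mul hH fun n => logHeight_nonneg _]
  · exact hfu_congr (.of_forall fun n => logHeight_pow (z n) m)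
  · rw [← hz, ← map_pow]
    rfl

theorem hfu_gel (hH : Tendsto H U atTop) {T : Type} [Fintype T] (D : ℕ) (c : T → (Up U k)[X])
    (N : (Up U k)[X]) (hc : c ≠ 0) (hN : N ≠ 0) (hD : ∀ t, (c t * N).natDegree ≤ D) :
    hfuEta U H (fun p : T × Fin (D + 1) => (c p.1).coeff p.2) + hfuEta U H (cv D N) ≤
      hfuEta U H fun p : T × Fin (D + 1) => (c p.1 * N).coeff p.2 := by
  choose q hq hq' using fun t => hfu_lift (c t)
  obtain ⟨M, rfl, hM⟩ := hfu_lift N
  obtain rfl : c = fun t => (q t).map (germ U) := funext fun t => (hq t).symm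
  obtain ⟨C, hC⟩ := gel_k k T D
  obtain ⟨t₀, ht₀⟩ := Function.ne_iff.1 hc
  rw [hfu_eta (fun n (p : T × Fin (D + 1)) =>
      ((q p.1).map (Pi.evalRingHom (fun _ => k) n)).coeff p.2) fun p => ?_,
    hfu_eta (fun n => cv D (M.map (Pi.evalRingHom (fun _ => k) n))) fun j => ?_,
    hfu_eta (fun n (p : T × Fin (D + 1)) => ((q p.1).map (Pi.evalRingHom (fun _ => k) n) *
      M.map (Pi.evalRingHom (fun _ => k) n)).coeff p.2) fun p => ?_,
    ← hfu_add hH (fun n => logHeight_nonneg _) fun n => logHeight_nonneg _]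
  · refine hfu_le hH (fun n => add_nonneg (logHeight_nonneg _) (logHeight_nonneg _))
      (fun n => logHeight_nonneg _) (Lo.const hH C) ?_
    filter_upwards [hfu_ne ht₀, hfu_ne hN] with n h1 h2
    refine hC (fun t => (q t).map (Pi.evalRingHom (fun _ => k) n)) _
      (Function.ne_iff.2 ⟨t₀, h1⟩) h2 fun t => ?_
    by_cases h0 : (q t).map (germ U) = 0
    · have h3 : q t = 0 := degree_eq_bot.1 ((hq' t).trans (degree_eq_bot.2 h0))
      simp [h3]
    · have h3 := hD t
      rw [natDegree_mul h0 hN, ← natDegree_eq_of_degree_eq (hq' t),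
        ← natDegree_eq_of_degree_eq hM] at h3
      exact natDegree_mul_le.trans ((add_le_add natDegree_map_le natDegree_map_le).trans h3)
  · simp only [← Polynomial.map_mul, coeff_map]
    rfl
  · simp only [cv, coeff_map]
    rfl
  · simp only [coeff_map]
    rfl

end

theorem exists_hf (k : Type) [Field k] [NumberField k] (hH : Tendsto H U atTop) :
    ∃ h : Hf (Sm k hH) (Up U k), ∀ {J : Type} [Fintype J] (z : α → J → k),
      h.η (fun j => germ U fun n => z n j) = ev U H fun n => logHeight (z n) :=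
  ⟨⟨hfuEta U H, hfu_lin hH, hfu_smul, hfu_seg hH, hfu_pow hH, hfu_gel hH⟩,
    fun z => hfu_eta z fun _ => rfl⟩

end Pool.Agent.Lib.MP_651af7_nt.Gm
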