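import Pool.Agent.Lib.MP_651af7_nt.Gm.KyB

/-! Conjugate components have the same height. -/

namespace Pool.Agent.Lib.MP_651af7_nt.Gm

open Polynomial Av
open IntermediateField (adjoin)

variable {k ι E : Type} [Field k] [CharZero k] [Fintype ι] [Field E] [Algebra k E] {B : AV k ι}
  {K : IntermediateField k E} {h : Hf K E} {v : ι → E}

omit [CharZero k] in
theorem Set0.td_eq (H : Set0 B K h v) {F : Type} [Field F] [Algebra k F] [Algebra F E]
    [IsScalarTower k F E] (hF : ∀ x, algebraMap F E x ∈ K) : td F (rat v) = B.dim := by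
  let _ : Algebra F K := ((algebraMap F E).codRestrict K hF).toAlgebra
  have : IsScalarTower F K E := .of_algebraMap_eq fun _ => rfl
  exact le_antisymm (B.td_le_dim H.zero) (H.gen ▸ td_le_of_tower _)

theorem ky_mid (H : Set0 B K h v) {L₁ L₂ : Type} [Field L₁] [Field L₂] [Algebra k L₁]
    [Algebra k L₂] [Algebra L₁ L₂] [Algebra L₁ E] [Algebra L₂ E] [IsScalarTower k L₁ L₂]
    [IsScalarTower k L₁ E] [IsScalarTower k L₂ E] [IsScalarTower L₁ L₂ E] [FiniteDimensional L₁ L₂]
    [Algebra.EssFiniteType k L₁] (hK : ∀ x, algebraMap L₂ E x ∈ K) {g : E[X]} (hg : g.Monic)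
    {e b : ℕ} (he : g.natDegree = e) {ψ : Fin (e + 1) → MvPolynomial ι L₂}
    (hψ : ∀ i, (ψ i).IsHomogeneous b) {q : E} (hq : q ≠ 0)
    (hv : ∀ i, MvPolynomial.aeval v (ψ i) = q * g.coeff i) {p : (adjoin L₁ (Set.range v))[X]}
    (hp : Irreducible p) (hd : g ∣ p.map (algebraMap _ E)) :
    g.natDegree * h.hp (p.map (algebraMap _ E)) ≤ p.natDegree * h.hp g := by
  let _ : Algebra L₂ K := ((algebraMap L₂ E).codRestrict K hK).toAlgebra
  have : IsScalarTower L₂ K E := .of_algebraMap_eq fun _ => rfl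
  have : IsScalarTower k L₂ K := .of_algebraMap_eq fun c =>
    Subtype.ext (IsScalarTower.algebraMap_apply k L₂ E c)
  have hL : RelCl k L₂ := fun c hc => by
    obtain ⟨a, ha⟩ := H.cl _ (hc.algHom (IsScalarTower.toAlgHom k L₂ K))
    exact ⟨a, (algebraMap L₂ K).injective ((IsScalarTower.algebraMap_apply ..).symm.trans ha)⟩
  have hv0 : v ≠ 0 := H.one.elim fun a ha h => zero_ne_one ((congrFun h a).symm.trans ha)
  have hl : g.coeff (Fin.last e) = 1 := by rw [Fin.val_last, ← he]; exact hg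
  obtain ⟨T, _, D, Ψ, h1, h2⟩ := ky_rep B H.pos hψ ⟨Fin.last e, fun h0 => hq (by
    have h3 := B.tr_zero_IK H.zero _ h0
    rwa [hv, hl, mul_one] at h3)⟩
  have h3 : ∀ t i, MvPolynomial.aeval v (Ψ t i) =
      MvPolynomial.aeval v (Ψ t (Fin.last e)) * g.coeff i := fun t i => by
    have h4 := B.tr_zero_IK H.zero _ ((h1 t).prp i (Fin.last e))
    rw [map_sub, map_mul, map_mul, hv, hv, hl, mul_one, sub_eq_zero, mul_left_comm, mul_comm] at h4
    exact mul_left_cancel₀ hq h4
  obtain ⟨t₀, h0⟩ : ∃ t, MvPolynomial.aeval v (Ψ t (Fin.last e)) ≠ 0 := by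
    by_contra h4
    push Not at h4
    have h5 := h2 E v hv0 H.zero fun p => by rw [h3, h4, zero_mul]
    rw [H.td_eq hK] at h5
    have h6 : B.dim + 2 ≤ B.dim := by exact_mod_cast h5
    omega
  obtain ⟨d, α, hα, hfin⟩ := ky_tb k L₁
  have : Algebra.EssFiniteType k L₂ := .comp k L₁ L₂
  let f := IsScalarTower.toAlgHom k L₂ E
  obtain ⟨c, hc, hc'⟩ := H.ind f.fieldRange
    (by
      obtain ⟨s, hs⟩ := IntermediateField.fg_top k L₂
      rw [AlgHom.fieldRange_eq_map, ← hs, IntermediateField.adjoin_map]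
      exact IntermediateField.fg_adjoin_of_finite (s.finite_toSet.image f))
    (by rintro _ ⟨x, rfl⟩; exact hK x) d
  have hc₂ : AlgebraicIndependent L₂ c := .of_ringHom_of_comp_eq
    (f.toRingHom.codRestrict f.fieldRange fun x => ⟨x, rfl⟩) (RingHom.id E) hc'
    (RingHom.injective _) rfl
  let K₁ := adjoin L₂ (Set.range c)
  have : IsScalarTower k K₁ E := .of_algebraMap_eq fun _ => rfl
  have hK₁ : ∀ x : K₁, algebraMap K₁ E x ∈ K := fun x =>
    (IntermediateField.adjoin_le_iff (T := K.toSubfield.toIntermediateField hK)).2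
      (by rintro _ ⟨i, rfl⟩; exact hc i) x.2
  let c₁ : Fin d → K₁ := fun i => ⟨c i, IntermediateField.subset_adjoin _ _ ⟨i, rfl⟩⟩
  let Ω := AlgebraicClosure E
  obtain ⟨p', hp', hp''⟩ := ky_irr ((algebraMap E Ω).comp (algebraMap (adjoin L₁ (Set.range v)) E))
    (algebraMap (adjoin L₁ (Set.range fun a => algebraMap E Ω (v a))) Ω) (by
      have h4 := IntermediateField.adjoin_map L₁ (Set.range v) (IsScalarTower.toAlgHom L₁ E Ω)
      rw [← Set.range_comp] at h4
      ext x
      refine ⟨?_, ?_⟩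
      · rintro ⟨y, rfl⟩
        exact ⟨⟨_, h4.le ⟨y, y.2, rfl⟩⟩, rfl⟩
      · rintro ⟨y, rfl⟩
        obtain ⟨z, h5, h6⟩ := h4.ge y.2
        exact ⟨⟨z, h5⟩, h6⟩) hp
  have : IsScalarTower k K₁ Ω := .of_algebraMap_eq fun _ => rfl
  rw [← natDegree_map (algebraMap _ E) (p := p)]
  refine ky_in (Ω := Ω) hL hα hfin (c := c₁) (.of_comp K₁.val hc₂) (K₁.lift_injective ?_)
    (h.res K₁ fun x => ⟨⟨_, hK₁ x⟩, rfl⟩) H.one H.zero (H.td_eq hK₁) H.le (fun t => (h1 t).hom)
    (t₀ := t₀) (fun t i i' => ?_) hg he.le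
    (s := fun t => MvPolynomial.aeval v (Ψ t (Fin.last e))) h0 (fun t => ?_) ?_ hp' (by rw [hp'', map_map]) hd
  · rw [IntermediateField.lift_adjoin, IntermediateField.lift_top, ← Set.range_comp]
    rfl
  · refine (B.gen_iff hv0 H.zero).2 (H.td_eq hK) _ _ ((((h1 t).hom i).mul ((h1 t₀).hom i')).sub
      (((h1 t).hom i').mul ((h1 t₀).hom i))) ?_
    rw [map_sub, map_mul, map_mul, h3 t i, h3 t i', h3 t₀ i, h3 t₀ i']
    ring
  · conv_rhs => rw [g.as_sum_range, he, Finset.sum_range, Finset.mul_sum]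
    exact Finset.sum_congr rfl fun i _ => by rw [C_mul_monomial, ← h3]
  · have h4 := H.gcd (fun j : T × Fin (e + 1) => MvPolynomial.map (algebraMap L₂ K) (Ψ j.1 j.2)) D
      (fun j => ((h1 j.1).hom j.2).map _) (h2.map (K := K))
    simp only [MvPolynomial.aeval_map_algebraMap] at h4
    exact h4

theorem key (H : Set0 B K h v) (L : IntermediateField k E) (hL : L.FG) (hle : L ≤ K)
    {p : (adjoin L (Set.range v))[X]} (hp : Irreducible p) {g : (adjoin K (Set.range v))[X]}
    (hg : g.Monic) (hd : g.map (algebraMap _ E) ∣ p.map (algebraMap _ E)) :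
    g.natDegree * h.hp (p.map (algebraMap _ E)) ≤ p.natDegree * h.hp (g.map (algebraMap _ E)) := by
  obtain ⟨b, A, Q, hA, -, hQ, hAQ⟩ := Nc.frac H.one fun i : Fin (g.natDegree + 1) => g.coeff i
  let S : Set E := ⋃ i, ((MvPolynomial.map (algebraMap K E) (A i)).coeffs : Set E)
  have hS : S.Finite := Set.finite_iUnion fun i => Finset.finite_toSet _
  have hSK : S ⊆ Set.range (algebraMap K E) := Set.iUnion_subset fun i =>
    MvPolynomial.mem_range_map_iff_coeffs_subset.1 ⟨_, rfl⟩
  have hS' : S ⊆ K := fun x hx => (hSK hx).elim fun y hy => hy ▸ y.2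
  obtain ⟨I, hI, h1, -, h2⟩ := exists_td_basis L S
  have hI' := hS.subset hI
  obtain ⟨a, ha⟩ := H.one
  have hr : ∀ (F : Type) [Field F] [Algebra F E], td F (rat v) = td F (Set.range v) := fun F _ _ => by
    rw [td_rat_eq (b := a) (ha ▸ one_ne_zero)]
    simp only [ha, inv_one, one_mul]
  have h3 : AlgebraicIndependent (adjoin L (Set.range v)) ((↑) : I → E) := by
    let _ : Algebra L K := (IntermediateField.inclusion hle).toAlgebra
    have : IsScalarTower L K E := .of_algebraMap_eq fun _ => rfl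
    have h4 := (td_add_le (K := L) (T := Set.range v) (hI.trans hSK)).trans
      ((td_mono (Set.union_comm _ _).le).trans (td_union_adjoin (K := L) (Set.range v) I))
    rw [← hr, ← hr, H.gen, H.td_eq (F := L) fun x => hle x.2, add_comm,
      show td L I = I.encard from Matroid.Indep.eRk_eq_encard h1] at h4
    exact (Matroid.indep_iff_eRk_eq_encard_of_finite hI').2 (le_antisymm (td_le_encard I)
      ((ENat.add_le_add_iff_left (ENat.natCast_ne_top _)).1 h4))
  let L₁ := adjoin L I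
  let L₂ := adjoin L₁ S
  have : IsScalarTower k L₁ E := .of_algebraMap_eq fun _ => rfl
  have : IsScalarTower k L₂ E := .of_algebraMap_eq fun _ => rfl
  have hK₁ : ∀ x : L₁, algebraMap L₁ E x ∈ K := fun x =>
    (IntermediateField.adjoin_le_iff (T := K.toSubfield.toIntermediateField fun x : L => hle x.2)).2
      (hI.trans hS') x.2
  have hK₂ : ∀ x : L₂, algebraMap L₂ E x ∈ K := fun x =>
    (IntermediateField.adjoin_le_iff (T := K.toSubfield.toIntermediateField hK₁)).2 hS' x.2
  have : Finite S := hS.to_subtype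
  have : FiniteDimensional L₁ L₂ := IntermediateField.finiteDimensional_adjoin fun x hx =>
    (IntermediateField.isAlgebraic_adjoin_iff.2 (h2 x hx)).isIntegral
  have : Algebra.EssFiniteType k L := IntermediateField.essFiniteType_iff.2 hL
  have : Algebra.EssFiniteType L L₁ :=
    IntermediateField.essFiniteType_iff.2 (IntermediateField.fg_adjoin_of_finite hI')
  have : Algebra.EssFiniteType k L₁ := .comp k L L₁
  choose ψ hψ using fun i => (MvPolynomial.mem_range_map_iff_coeffs_subset (f := algebraMap L₂ E)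
    (x := MvPolynomial.map (algebraMap K E) (A i))).2 fun x hx =>
      ⟨⟨x, IntermediateField.subset_adjoin _ _ (Set.mem_iUnion.2 ⟨i, hx⟩)⟩, rfl⟩
  obtain ⟨p', hp', hp''⟩ := ky_irr (algebraMap _ E) (algebraMap (adjoin L₁ (Set.range v)) E) (by
    have h4 := IntermediateField.adjoin_adjoin_comm L (Set.range v) I
    rw [Subtype.range_coe]
    ext x
    exact ⟨fun ⟨y, e⟩ => ⟨⟨x, h4.le (e ▸ y.2)⟩, rfl⟩, fun ⟨y, e⟩ => ⟨⟨x, h4.ge (e ▸ y.2)⟩, rfl⟩⟩)
    (irr_tr h3 hp)
  rw [map_map, ← IsScalarTower.algebraMap_eq] at hp''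
  have h5 := ky_mid H hK₂ (hg.map (algebraMap _ E)) (natDegree_map _) (ψ := ψ) (b := b)
    (fun i => .of_map (algebraMap L₂ E).injective (hψ i ▸ (hA i).map _)) hQ (fun i => by
      rw [← MvPolynomial.aeval_map_algebraMap E, hψ, MvPolynomial.aeval_map_algebraMap, hAQ,
        coeff_map]
      rfl) hp' (hp'' ▸ hd)
  rwa [← natDegree_map (algebraMap _ E) (p := p'), hp'', natDegree_map, natDegree_map] at h5

end Pool.Agent.Lib.MP_651af7_nt.Gm
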