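import Pool.Agent.Lib.MP_651af7_nt.Gm.HDefs
import Pool.Agent.Lib.MP_651af7_nt.Bx.Rep
import Pool.Agent.Lib.MP_651af7_nt.Un.Bc

/-! Tools for the comparison of conjugate components. -/

namespace Pool.Agent.Lib.MP_651af7_nt.Gm

open MvPolynomial Av
open IntermediateField (adjoin)

theorem ky_lie {k ι : Type} [Field k] [CharZero k] [Fintype ι] {A : AV k ι} {r : ℕ}
    {σ : Fin r → ι → k} (hσ : A.LieBasis σ) (hd : 1 ≤ A.dim) : 0 < r := by
  refine Nat.pos_of_ne_zero fun hr => ?_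
  subst hr
  have := A.tr_prime
  obtain ⟨M, _, _, x, hx, h0, h1⟩ : ∃ (M : Type) (_ : Field M) (_ : Algebra k M) (x : ι → M),
      (∀ f ∈ A.I, aeval x f = 0) ∧ x A.ao = 1 ∧ td k (Set.range x) = A.dim := by
    obtain ⟨M, _, _, x, hx, -⟩ := tr_point (K := k) A.I (ι := ι)
    have h0 : x A.ao ≠ 0 := fun h => by
      have h1 := (AV.rep_zero (A := A) (R := k)).zero _ ((hx (X A.ao)).1 (by rw [aeval_X, h]))
      rw [aeval_X, A.o_ao, map_one] at h1
      exact one_ne_zero h1
    have hz : ∀ f ∈ A.I, aeval x f = 0 := fun f hf => (hx f).2 hf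
    obtain ⟨P, hP⟩ := AV.exists_rep (A := A) ⟨_, h0.isUnit⟩ hz
    refine ⟨M, inferInstance, inferInstance, _, (hP.smul h0.isUnit.inv).zero, inv_mul_cancel₀ h0, ?_⟩
    rw [← td_rat_eq h0]
    refine (A.gen_iff (Function.ne_iff.2 ⟨_, h0⟩) hz).1 fun f n _ hf => ?_
    have h5 := (A.mem_IK_iff (K := k)).2 ((hx f).1 hf)
    rwa [Algebra.algebraMap_self, MvPolynomial.map_id] at h5
  obtain ⟨τ, j, -, h2, h3, -⟩ := exists_td_basis_range k x
  have : Nonempty τ := by
    by_contra h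
    rw [not_nonempty_iff] at h
    rw [h1, ENat.card_eq_zero_iff_empty τ |>.2 h] at h3
    have : A.dim = 0 := by exact_mod_cast h3.symm
    omega
  obtain ⟨t⟩ := this
  obtain ⟨D, hD⟩ := exists_derivation h2 fun _ => 1
  obtain ⟨-, w, -, -, -, -, hs, -⟩ := Bx.exists_frame hσ (Function.ne_iff.2 ⟨A.ao, h0 ▸ one_ne_zero⟩) hx
  have h4 : (fun a => D (x a)) ∈ A.Tan x := fun f hf => by
    have := Bx.rep1_chain (R := M) (F := M) D x f
    rw [hx f hf, map_zero] at this
    exact this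
  obtain ⟨c, hc⟩ := (Submodule.mem_span_range_iff_exists_fun M).1 (hs h4)
  rw [Fin.sum_univ_one] at hc
  have h5 := congrFun hc A.ao
  have h6 := congrFun hc (j t)
  simp only [Fin.cons_zero, Pi.smul_apply, smul_eq_mul, h0, mul_one, Derivation.map_one_eq_zero]
    at h5 h6
  rw [h5, zero_mul] at h6
  exact zero_ne_one (h6.trans (hD t))

theorem ky_rep {k ι κ L : Type} [Field k] [CharZero k] [Fintype ι] [Fintype κ] [Field L]
    [Algebra k L] (B : AV k ι) (hd : 1 ≤ B.dim) {ψ : κ → MvPolynomial ι L} {b : ℕ}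
    (hψ : ∀ i, (ψ i).IsHomogeneous b) (h0 : ∃ i, ψ i ∉ B.IK L) :
    ∃ (T : Type) (_ : Fintype T) (D : ℕ) (Ψ : T → κ → MvPolynomial ι L),
      (∀ t, Bx.Prp (B.IK L) ψ (Ψ t) D) ∧ Cd2 B L fun p : T × κ => Ψ p.1 p.2 := by
  have : CharZero L := charZero_of_injective_algebraMap (algebraMap k L).injective
  obtain ⟨r, σ, hσ⟩ := Bx.exists_lieBasis (Un.bc B L)
  obtain ⟨T, _, d, Ψ, h1, h2⟩ := Bx.exists_rep hσ (ky_lie hσ (by rwa [Un.bc_dim])) hψ
    (by rwa [Un.bc_I])
  refine ⟨T, inferInstance, d + 1, Ψ, fun t => Un.bc_I B L ▸ h1 t, fun M _ _ _ _ w hw hz hF => ?_⟩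
  rw [← Un.bc_dim B L]
  exact (Un.bc B L).td_of_height (fun p : T × κ => Ψ p.1 p.2) (fun p => (h1 p.1).hom p.2) h2 hw
    (Un.bc_zero.2 hz) hF

theorem Cd2.map {k ι J L K : Type} [Field k] [Field L] [Field K] [Algebra k L] [Algebra k K]
    [Algebra L K] [IsScalarTower k L K] {B : AV k ι} {F : J → MvPolynomial ι L} (h : Cd2 B L F) :
    Cd2 B K fun j => map (algebraMap L K) (F j) := by
  intro M _ _ _ _ w hw hz hF
  let _ : Algebra L M := ((algebraMap K M).comp (algebraMap L K)).toAlgebra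
  have : IsScalarTower L K M := .of_algebraMap_eq fun _ => rfl
  have : IsScalarTower k L M := .of_algebraMap_eq fun c => by
    rw [IsScalarTower.algebraMap_apply k K M, IsScalarTower.algebraMap_apply k L K]; rfl
  refine le_trans (add_le_add_left (td_le_of_tower (K := L) _) 2) (h M w hw hz fun j => ?_)
  rw [← aeval_map_algebraMap K]
  exact hF j

theorem ky_span {F K E ι : Type} [Field F] [Field K] [Field E] [Algebra F K] [Algebra K E]
    [Algebra F E] [IsScalarTower F K E] (v : ι → E) {f : MvPolynomial ι F} {D : ℕ}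
    (hf : f.IsHomogeneous D) : aeval v f ∈ Submodule.span K (Set.range v) ^ D := by
  classical
  rw [aeval_def, eval₂_eq]
  refine Submodule.sum_mem _ fun μ hμ => ?_
  rw [IsScalarTower.algebraMap_apply F K E, ← Algebra.smul_def]
  refine Submodule.smul_mem _ _ ?_
  have h : ∑ i ∈ μ.support, μ i = D := by
    have := hf (mem_support_iff.1 hμ)
    rwa [Finsupp.weight_apply, Finsupp.sum, Finset.sum_congr rfl fun i _ => by
      rw [Pi.one_apply, smul_eq_mul, mul_one]] at this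
  rw [← h, ← Finset.prod_pow_eq_pow_sum]
  refine Finset.prod_hom_rel (r := fun (a : E) (S : Submodule K E) => a ∈ S) ?_ fun i a S ha => ?_
  · exact Submodule.one_le.1 le_rfl
  · exact Submodule.mul_mem_mul
      (Submodule.pow_mem_pow _ (Submodule.subset_span (Set.mem_range_self i)) _) ha

theorem ky_irr {F₁ F₂ Ω : Type} [Field F₁] [Field F₂] [Field Ω] (f₁ : F₁ →+* Ω) (f₂ : F₂ →+* Ω)
    (h : f₁.fieldRange = f₂.fieldRange) {p : Polynomial F₁} (hp : Irreducible p) :
    ∃ q : Polynomial F₂, Irreducible q ∧ q.map f₂ = p.map f₁ := by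
  let e : F₁ ≃+* F₂ := f₁.rangeRestrictFieldEquiv.trans
    ((RingEquiv.subfieldCongr h).trans f₂.rangeRestrictFieldEquiv.symm)
  refine ⟨Polynomial.mapEquiv e p, (MulEquiv.irreducible_iff _).2 hp, ?_⟩
  rw [Polynomial.mapEquiv_apply, Polynomial.map_map]
  congr 1
  ext x
  exact congrArg Subtype.val (f₂.rangeRestrictFieldEquiv.apply_symm_apply _)

theorem ky_tb (k F : Type) [Field k] [Field F] [Algebra k F] [Algebra.EssFiniteType k F] :
    ∃ (d : ℕ) (α : Fin d → F), IsTranscendenceBasis k α ∧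
      FiniteDimensional (adjoin k (Set.range α)) F := by
  obtain ⟨s, hs⟩ := exists_finset_isTranscendenceBasis k F
  have h := (isTranscendenceBasis_equiv s.equivFin.symm).2 hs
  have := h.isAlgebraic_field
  have : Algebra.EssFiniteType (adjoin k (Set.range (Subtype.val ∘ s.equivFin.symm))) F :=
    .of_comp k _ _
  exact ⟨_, _, h, Algebra.finite_of_essFiniteType_of_isAlgebraic⟩

end Pool.Agent.Lib.MP_651af7_nt.Gm
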