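import Pool.Agent.Lib.MP_651af7_nt.Gm.KyA
import Pool.Agent.Lib.MP_651af7_nt.Gm.HfB
import Pool.Agent.Lib.MP_651af7_nt.Gm.CoD
import Pool.Agent.Lib.MP_651af7_nt.Gm.DfC
import Pool.Agent.Lib.MP_651af7_nt.Gm.FlB

/-! The comparison over a tower of fields. -/

namespace Pool.Agent.Lib.MP_651af7_nt.Gm

open Polynomial Av
open IntermediateField (adjoin)
open scoped ENNReal TensorProduct

theorem ky_ev {k ι L R J : Type} [Field k] [Field L] [CommRing R] [Algebra k L] [Algebra k R]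
    [Fintype J] {B : AV k ι} (f : L →+* R) (hf : ∀ a, f (algebraMap k L a) = algebraMap k R a)
    {w : ι → R} (hw : ∀ g ∈ B.I, MvPolynomial.aeval w g = 0) :
    (∀ P ∈ B.IK L, MvPolynomial.eval₂ f w P = 0) ∧ ∀ (P : MvPolynomial ι L) (x : J → L)
      (r : J → MvPolynomial ι k),
      P - ∑ l, MvPolynomial.C (x l) * MvPolynomial.map (algebraMap k L) (r l) ∈ B.IK L →
      MvPolynomial.eval₂ f w P = ∑ l, MvPolynomial.aeval w (r l) * f (x l) := by
  have h1 : ∀ g : MvPolynomial ι k, MvPolynomial.eval₂Hom f w (MvPolynomial.map (algebraMap k L) g) =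
      MvPolynomial.aeval w g := fun g => by
    rw [MvPolynomial.eval₂Hom_map_hom, show f.comp (algebraMap k L) = algebraMap k R from
      RingHom.ext hf]
    rfl
  have h2 : B.IK L ≤ RingHom.ker (MvPolynomial.eval₂Hom f w) :=
    Ideal.map_le_iff_le_comap.2 fun g hg => (h1 g).trans (hw g hg)
  refine ⟨fun P hP => h2 hP, fun P x r h => ?_⟩
  have h3 : MvPolynomial.eval₂Hom f w _ = 0 := h2 h
  rw [map_sub, sub_eq_zero, map_sum] at h3
  refine h3.trans (Finset.sum_congr rfl fun l _ => ?_)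
  rw [map_mul, h1, MvPolynomial.eval₂Hom_C, mul_comm]

theorem ky_prop {k ι L K E Λ J : Type} [Field k] [Field L] [Field K] [Field E] [Field Λ]
    [Algebra k L] [Algebra k K] [Algebra k E] [Algebra K E] [Algebra K Λ] [IsScalarTower k K E]
    [Fintype J] {B : AV k ι} (j : L →+* Λ)
    (hj : ∀ a, j (algebraMap k L a) = algebraMap K Λ (algebraMap k K a)) {v : ι → E}
    (hv : ∀ g ∈ B.I, MvPolynomial.aeval v g = 0) {r : J → MvPolynomial ι k}
    {P₁ P₂ P₃ P₄ : MvPolynomial ι L} {x₁ x₂ x₃ x₄ : J → L}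
    (h₁ : P₁ - ∑ l, MvPolynomial.C (x₁ l) * MvPolynomial.map (algebraMap k L) (r l) ∈ B.IK L)
    (h₂ : P₂ - ∑ l, MvPolynomial.C (x₂ l) * MvPolynomial.map (algebraMap k L) (r l) ∈ B.IK L)
    (h₃ : P₃ - ∑ l, MvPolynomial.C (x₃ l) * MvPolynomial.map (algebraMap k L) (r l) ∈ B.IK L)
    (h₄ : P₄ - ∑ l, MvPolynomial.C (x₄ l) * MvPolynomial.map (algebraMap k L) (r l) ∈ B.IK L)
    (h : P₁ * P₂ - P₃ * P₄ ∈ B.IK L) :
    (∑ l, MvPolynomial.aeval v (r l) ⊗ₜ[K] j (x₁ l)) * ∑ l, MvPolynomial.aeval v (r l) ⊗ₜ[K] j (x₂ l) =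
      (∑ l, MvPolynomial.aeval v (r l) ⊗ₜ[K] j (x₃ l)) *
        ∑ l, MvPolynomial.aeval v (r l) ⊗ₜ[K] j (x₄ l) := by
  let a : E →ₐ[k] E ⊗[K] Λ := IsScalarTower.toAlgHom k E (E ⊗[K] Λ)
  let b : L →+* E ⊗[K] Λ := (Algebra.TensorProduct.includeRight (R := K) (A := E)).toRingHom.comp j
  have ha : ∀ z, a z = z ⊗ₜ 1 := fun _ => rfl
  have hb : ∀ z, b z = 1 ⊗ₜ j z := fun _ => rfl
  have hl : ∀ f, MvPolynomial.aeval (fun i => a (v i)) f = a (MvPolynomial.aeval v f) := fun f =>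
    (MvPolynomial.comp_aeval_apply v a f).symm
  obtain ⟨h1, h2⟩ := ky_ev (J := J) (B := B) b (fun c => by
      rw [← a.commutes, ha, hb, hj, IsScalarTower.algebraMap_apply k K E]
      exact (Algebra.TensorProduct.tmul_one_eq_one_tmul _).symm)
    (w := fun i => a (v i)) fun f hf => by rw [hl, hv f hf, map_zero]
  have h3 := h1 _ h
  rw [MvPolynomial.eval₂_sub, MvPolynomial.eval₂_mul, MvPolynomial.eval₂_mul, sub_eq_zero,
    h2 _ _ _ h₁, h2 _ _ _ h₂, h2 _ _ _ h₃, h2 _ _ _ h₄] at h3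
  simp only [hl] at h3
  simpa only [ha, hb, Algebra.TensorProduct.tmul_mul_tmul, mul_one, one_mul] using h3

theorem ky_fin {K E : Type} [Field K] [Field E] [Algebra K E] (h : Hf K E) {g P P₁ : E[X]}
    {μ r g₀ : ℕ} (hg : g ≠ 0) (hP : P ≠ 0) (hfin : h.hp g ≠ ⊤) (hr : 0 < r)
    (e : P ^ μ = g * P₁) (hμ : μ * P.natDegree = r * g.natDegree)
    (H : ∀ n : ℕ, ∃ ν : ℕ, ν + n ≤ n * r + g₀ ∧ n * h.hp P₁ ≤ ν * h.hp g) :
    g.natDegree * h.hp P ≤ P.natDegree * h.hp g := by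
  have h1 : P₁ ≠ 0 := fun h0 => pow_ne_zero μ hP (by rw [e, h0, mul_zero])
  have h2 : μ * h.hp P = h.hp g + h.hp P₁ := by rw [← h.hp_pow hP, e, h.hp_mul hg h1]
  have h3 : μ * h.hp P ≤ r * h.hp g := lim_le (g := g₀) (fun n => by
    obtain ⟨ν, h4, h5⟩ := H n
    calc n * (μ * h.hp P) = n * h.hp g + n * h.hp P₁ := by rw [h2, mul_add]
      _ ≤ n * h.hp g + ν * h.hp g := by gcongr
      _ = (ν + n : ℕ) * h.hp g := by push_cast; ring
      _ ≤ _ := by gcongr) hfin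
  have h6 : ((μ : ℝ≥0∞) * P.natDegree) = r * g.natDegree := by exact_mod_cast hμ
  refine (ENNReal.mul_le_mul_iff_right (a := r) (by exact_mod_cast hr.ne') (by simp)).1 ?_
  calc (r : ℝ≥0∞) * (g.natDegree * h.hp P) = P.natDegree * (μ * h.hp P) := by
        rw [← mul_assoc, ← h6]; ring
    _ ≤ P.natDegree * (r * h.hp g) := by gcongr
    _ = _ := by ring

theorem ky_coeff {E : Type} [CommRing E] {e : ℕ} (a : Fin (e + 1) → E) (i : Fin (e + 1)) :
    (∑ j : Fin (e + 1), monomial j (a j)).coeff i = a i := by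
  rw [finsetSum_coeff, Finset.sum_eq_single i, coeff_monomial_same]
  · intro j _ hj
    rw [coeff_monomial, if_neg fun h => hj (Fin.ext h)]
  · simp

theorem ky_in {k ι L₁ L₂ K₁ E Ω T : Type} [Field k] [CharZero k] [Fintype ι] [Field L₁] [Field L₂]
    [Field K₁] [Field E] [Field Ω] [IsAlgClosed Ω] [Algebra k L₁] [Algebra k L₂] [Algebra k K₁]
    [Algebra k E] [Algebra k Ω] [Algebra L₁ L₂] [Algebra L₂ K₁] [Algebra K₁ E] [Algebra E Ω]
    [Algebra L₁ Ω] [Algebra L₂ Ω] [Algebra K₁ Ω] [Algebra L₂ E] [IsScalarTower k L₁ L₂]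
    [IsScalarTower k L₂ K₁] [IsScalarTower k K₁ E] [IsScalarTower k E Ω] [IsScalarTower k L₁ Ω]
    [IsScalarTower k L₂ Ω] [IsScalarTower k K₁ Ω] [IsScalarTower k L₂ E] [IsScalarTower L₁ L₂ Ω]
    [IsScalarTower L₂ K₁ Ω] [IsScalarTower K₁ E Ω] [IsScalarTower L₂ K₁ E] [IsScalarTower L₂ E Ω]
    [FiniteDimensional L₁ L₂] [Fintype T] (hL : RelCl k L₂)
    {d : ℕ} {α : Fin d → L₁} (hα : IsTranscendenceBasis k α)
    (hfin : FiniteDimensional (adjoin k (Set.range α)) L₁) {c : Fin d → K₁}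
    (hc : AlgebraicIndependent L₂ c) (hK : adjoin L₂ (Set.range c) = ⊤) {B : AV k ι} (h : Hf K₁ E)
    {v : ι → E} (one : ∃ a, v a = 1) (zero : ∀ f ∈ B.I, MvPolynomial.aeval v f = 0)
    (gen : td K₁ (rat v) = B.dim) (le : h.η v ≤ 1) {e D : ℕ}
    {Ψ : T → Fin (e + 1) → MvPolynomial ι L₂} (hΨ : ∀ t i, (Ψ t i).IsHomogeneous D) {t₀ : T}
    (prp : ∀ t i i', Ψ t i * Ψ t₀ i' - Ψ t i' * Ψ t₀ i ∈ B.IK L₂) {g : E[X]} (hg : g.Monic)
    (hge : g.natDegree ≤ e) {s : T → E} (h0 : s t₀ ≠ 0)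
    (ha : ∀ t, ∑ i : Fin (e + 1), monomial i (MvPolynomial.aeval v (Ψ t i)) = C (s t) * g)
    (hm : (D : ℝ≥0∞) ≤ h.η fun q : T × Fin (e + 1) => MvPolynomial.aeval v (Ψ q.1 q.2))
    {p : (adjoin L₁ (Set.range fun a => algebraMap E Ω (v a)))[X]} (hp : Irreducible p) {P : E[X]}
    (hP : p.map (algebraMap _ Ω) = P.map (algebraMap E Ω)) (hd : g ∣ P) :
    g.natDegree * h.hp P ≤ P.natDegree * h.hp g := by
  classical
  have : CharZero K₁ := charZero_of_injective_algebraMap (algebraMap k K₁).injective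
  obtain ⟨J, _, r, hr1, hr2, hr3⟩ := exists_forms B D
  choose x hx using fun t i => hr2 L₂ (Ψ t i) (hΨ t i)
  obtain ⟨Λ, _, _, I, M, j, θ, σ, hf, _, hrk, hP', hjk, hj, hσ⟩ :=
    exists_def (Ω := Ω) hL hα hfin hc hK
  let w : ι → Ω := fun a => algebraMap E Ω (v a)
  have hev : ∀ f : MvPolynomial ι k, MvPolynomial.aeval w f =
      algebraMap E Ω (MvPolynomial.aeval v f) := fun f => MvPolynomial.aeval_algebraMap_apply Ω v f
  have hz : ∀ f ∈ B.I, MvPolynomial.aeval w f = 0 := fun f hf => by rw [hev, zero f hf, map_zero]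
  have h1 : ∃ a, w a = 1 := one.imp fun a ha => by simp only [w, ha, map_one]
  have hw0 : w ≠ 0 := h1.elim fun a ha h => zero_ne_one ((congrFun h a).symm.trans ha)
  have hgen : td K₁ (rat w) = B.dim := by
    rw [← gen, ← td_image (IsScalarTower.toAlgHom K₁ E Ω), rat, rat, ← Set.range_comp]
    exact congrArg (fun f => td K₁ (Set.range f)) (funext fun q => (map_div₀ _ _ _).symm)
  have hind : LinearIndependent (algebraicClosure K₁ Ω) fun l =>
      algebraMap E Ω (MvPolynomial.aeval v (r l)) := by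
    have : IsScalarTower k (algebraicClosure K₁ Ω) Ω := .of_algebraMap_eq fun _ => rfl
    have h2 := hr3 (algebraicClosure K₁ Ω) Ω w
      ((B.gen_iff hw0 hz).2 ((td_eq_of_isAlgebraic (K := K₁) _).trans hgen))
    simpa only [hev] using h2
  have hE := (ky_ev (J := J) (algebraMap L₂ E) (fun a => (IsScalarTower.algebraMap_apply ..).symm)
    zero).2
  have hpz : ∀ t, pz (fun l => MvPolynomial.aeval v (r l))
      (fun i l => algebraMap K₁ E ((I.ι (j (x t i l))).coeff 0)) = C (s t) * g := fun t => by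
    rw [← ha t, pz]
    refine Finset.sum_congr rfl fun i _ => congrArg _ ?_
    rw [MvPolynomial.aeval_def v (Ψ t i), hE _ _ _ (hx t i)]
    simp only [(hj _).2, ← IsScalarTower.algebraMap_apply]
  have hg0 : C (s t₀) * g ≠ 0 := mul_ne_zero (C_ne_zero.2 h0) hg.ne_zero
  have hx0 : ∃ i l, x t₀ i l ≠ 0 := by
    by_contra h2
    push Not at h2
    refine hg0 ((hpz t₀).symm.trans ?_)
    simp [pz, h2]
  obtain ⟨g₀, hcore⟩ := core hf hP' hind (y := fun t i l => j (x t i l)) (fun t i l => (hj _).1)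
    (t₀ := t₀) (fun s i l => (hσ s _).1) (fun s => by
      obtain ⟨i, l, h2⟩ := hx0
      exact ⟨i, l, by rw [(hσ s _).2]; exact (_root_.map_ne_zero _).2 h2⟩) (hpz t₀ ▸ hg0)
    fun t i i' => ky_prop j hjk zero (hx t i) (hx t₀ i') (hx t i') (hx t₀ i) (prp t i i')
  have he : ∑ i : Fin (e + 1), monomial i (MvPolynomial.aeval w (Ψ t₀ i)) =
      C (algebraMap E Ω (s t₀)) * g.map (algebraMap E Ω) := by
    rw [← map_C, ← Polynomial.map_mul, ← ha, Polynomial.map_sum]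
    refine Finset.sum_congr rfl fun i _ => ?_
    rw [map_monomial, ← MvPolynomial.aeval_algebraMap_apply]
    rfl
  have h3 : td K₁ (rat w) ≤ td L₁ (rat w) :=
    (td_le_of_tower (K := L₂) _).trans (td_le_of_tower _)
  obtain ⟨μ, c', hc', hμ, hprod⟩ := prod_forms (L₂ := L₂) h1 hz
    (le_antisymm (B.td_le_dim hz) (hgen ▸ h3)) hp (hΨ t₀) ((_root_.map_ne_zero _).2 h0) (hg.map _)
    he (hP ▸ Polynomial.map_dvd _ hd)
  rw [hP, ← Finset.mul_prod_erase _ _ (Finset.mem_univ (IsScalarTower.toAlgHom L₁ L₂ Ω)),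
    Finset.prod_subtype (p := fun τ => τ ≠ IsScalarTower.toAlgHom L₁ L₂ Ω)
      (F := inferInstance) _ (by simp),
    ← Polynomial.map_pow] at hprod
  have h4 : ∀ τ : L₂ →ₐ[L₁] Ω, ∑ i : Fin (e + 1), monomial i (MvPolynomial.eval₂ τ w (Ψ t₀ i)) =
      pz (fun l => algebraMap E Ω (MvPolynomial.aeval v (r l))) fun i l => τ (x t₀ i l) := fun τ =>
    Finset.sum_congr rfl fun i _ => congrArg _ (((ky_ev (J := J) (τ : L₂ →+* Ω) (fun a => by
      rw [IsScalarTower.algebraMap_apply k L₁ L₂, IsScalarTower.algebraMap_apply k L₁ Ω]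
      exact τ.commutes _) hz).2 _ _ _ (hx t₀ i)).trans (by simp only [hev]; rfl))
  set R := ∏ τ : {τ // τ ≠ IsScalarTower.toAlgHom L₁ L₂ Ω}, ∑ i : Fin (e + 1),
    monomial i (MvPolynomial.eval₂ (τ.1 : L₂ →+* Ω) w (Ψ t₀ i)) with hR
  replace hprod : C (algebraMap E Ω (s t₀)) * g.map (algebraMap E Ω) * R =
      C c' * (P ^ μ).map (algebraMap E Ω) := by
    rw [← he]
    exact hprod
  have hu := isUnit_C.2 hc'.isUnit
  obtain ⟨P₁, hP₁⟩ : g ∣ P ^ μ := (map_dvd_map' (algebraMap E Ω)).1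
    (hu.dvd_mul_left.1 (hprod ▸ (dvd_mul_left _ _).mul_right _))
  have h5 : P₁.map (algebraMap E Ω) ∣ R := by
    rw [hP₁, Polynomial.map_mul, mul_left_comm, mul_right_comm, mul_comm] at hprod
    exact (isUnit_C.2 ((_root_.map_ne_zero (algebraMap E Ω)).2 h0).isUnit).dvd_mul_left.1
      (mul_left_cancel₀ (hg.map _).ne_zero hprod ▸ dvd_mul_left _ _)
  have hp0 : P ≠ 0 := fun h6 => hp.ne_zero (by
    rwa [h6, Polynomial.map_zero, Polynomial.map_eq_zero] at hP)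
  have hdeg : p.natDegree = P.natDegree := by
    rw [← natDegree_map (algebraMap _ Ω), hP, natDegree_map]
  have hη : ∀ {J' : Type} [Fintype J'] (z : J' → E),
      (∀ l, z l ∈ Submodule.span K₁ (Set.range v) ^ D) → h.η z ≤ D := fun z hz =>
    (h.eta_span v D z hz).trans (by simpa using mul_le_mul_right le (D : ℝ≥0∞))
  have hco : ∀ t (i : Fin (e + 1)), (C (s t) * g).coeff i = MvPolynomial.aeval v (Ψ t i) :=
    fun t i => by rw [← ha, ky_coeff fun i => MvPolynomial.aeval v (Ψ t i)]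
  refine ky_fin h (g₀ := g₀) hg.ne_zero hp0 ?_ (Module.finrank_pos (R := L₁) (M := L₂)) hP₁
    (by rwa [natDegree_map, hdeg] at hμ) fun n => ?_
  · rw [← h.hp_C_mul h0, ← h.eta_cv ((natDegree_C_mul_le _ _).trans hge)]
    exact ((hη _ fun i => by
      rw [cv, hco]; exact ky_span v (hΨ t₀ i)).trans_lt (ENNReal.natCast_lt_top D)).ne
  obtain ⟨ν, γ, δ, D', κ, c₁, N, h6, h7, h8⟩ := hcore n
  refine ⟨ν, h6.trans (by gcongr), h7.ht h (hη _ fun l => ky_span v (hr1 l)) hg.ne_zero hge h0 hpz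
    (by simpa only [hpz, hco] using hm) ((map_dvd_map' (algebraMap E Ω)).1 ?_)⟩
  rw [Polynomial.map_pow]
  refine (pow_dvd_pow_of_dvd h5 n).trans ?_
  simpa only [hR, h4, (hσ _ _).2] using h8

end Pool.Agent.Lib.MP_651af7_nt.Gm
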