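import Pool.Agent.Lib.MP_651af7_nt.Gm.NmR

/-! The norm: existence, independence of the basis, degree. -/

namespace Pool.Agent.Lib.MP_651af7_nt.Gm

open Polynomial Pool.Agent.HZ Matrix

variable {K O : Type} [Field K] [CommRing O] [Algebra K O] {ν : ℕ} {C : Crv K O} {u : O}
  {b : Fin ν → O} {M : O →ₐ[K] Matrix (Fin ν) (Fin ν) K[X]} {B B' Ω : Type} [CommRing B]
  [Algebra K B] [CommRing B'] [Algebra K B'] [Field Ω] [Algebra K Ω]

theorem na_chg {b' : Fin ν → O} {Q : Matrix (Fin ν) (Fin ν) K[X]}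
    (h : ∀ l, b' l = ∑ j, aeval u (Q j l) * b j) (f : Fin ν → K[X]) :
    ∑ l, aeval u (f l) * b' l = ∑ j, aeval u ((Q *ᵥ f) j) * b j := by
  simp only [h, Matrix.mulVec, dotProduct, map_sum, map_mul, Finset.mul_sum, Finset.sum_mul]
  rw [Finset.sum_comm]
  exact Finset.sum_congr rfl fun j _ => Finset.sum_congr rfl fun l _ => by ring

theorem na_eq (hi : ∀ f : Fin ν → K[X], ∑ i, aeval u (f i) * b i = 0 → f = 0) {f g : Fin ν → K[X]}
    (h : ∑ i, aeval u (f i) * b i = ∑ i, aeval u (g i) * b i) : f = g :=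
  sub_eq_zero.1 (hi _ (by
    simp only [Pi.sub_apply, map_sub, sub_mul, Finset.sum_sub_distrib]
    rw [h, sub_self]))

theorem na_single (i : Fin ν) (p : K[X]) :
    ∑ j, aeval u ((Pi.single i p : Fin ν → K[X]) j) * b j = aeval u p * b i := by
  rw [Finset.sum_eq_single i (fun j _ hj => by simp [Pi.single_eq_of_ne hj]) (by simp),
    Pi.single_eq_same]

theorem na_inv {b' : Fin ν → O} {P Q : Matrix (Fin ν) (Fin ν) K[X]}
    (hi : ∀ f : Fin ν → K[X], ∑ i, aeval u (f i) * b i = 0 → f = 0)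
    (hQ : ∀ l, b' l = ∑ j, aeval u (Q j l) * b j) (hP : ∀ l, b l = ∑ j, aeval u (P j l) * b' j) :
    Q * P = 1 := by
  ext1 j i
  have h1 := na_eq hi (f := Q *ᵥ fun l => P l i) (g := Pi.single i 1)
    (by rw [← na_chg hQ, ← hP, na_single, map_one, one_mul])
  rw [Matrix.one_apply, ← Pi.single_apply, ← h1]
  rfl

theorem na_ind (h : Pol C u ν) (hb : ∀ a, ∃ f : Fin ν → K[X], a = ∑ i, aeval u (f i) * b i)
    (f : Fin ν → K[X]) (hf : ∑ i, aeval u (f i) * b i = 0) : f = 0 := by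
  obtain ⟨b', M', hM', hi, -⟩ := nr_exists h
  choose P hP using fun l => hM'.span (b l)
  choose Q hQ using fun l => hb (b' l)
  have h1 := mul_eq_one_comm.1 (na_inv (P := Matrix.of fun j l => Q l j)
    (Q := Matrix.of fun j l => P l j) hi hP hQ)
  rw [na_chg (Q := Matrix.of fun j l => P l j) hP] at hf
  rw [← Matrix.one_mulVec f, ← h1, ← Matrix.mulVec_mulVec, hi _ hf, Matrix.mulVec_zero]

theorem Bas.vec (hb : Bas u b M) (a : O) (f : Fin ν → K[X]) :
    a * ∑ l, aeval u (f l) * b l = ∑ j, aeval u ((M a *ᵥ f) j) * b j := by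
  rw [← na_chg (hb.mul a), Finset.mul_sum]
  exact Finset.sum_congr rfl fun l _ => mul_left_comm _ _ _

theorem exists_bas (h : Pol C u ν) :
    ∃ (b : Fin ν → O) (M : O →ₐ[K] Matrix (Fin ν) (Fin ν) K[X]), Bas u b M := by
  obtain ⟨b, M, hM, -⟩ := nr_exists h
  exact ⟨b, M, hM⟩

theorem na_mx (h : Pol C u ν) (hb : Bas u b M) (p : B[X]) :
    mx M B (aeval (io K B u) p) = Matrix.scalar (Fin ν) p := by
  have h1 : M u = Matrix.scalar (Fin ν) X := by
    ext1 j i
    have h2 := na_eq (na_ind h hb.span) (f := fun j => M u j i) (g := Pi.single i X)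
      (by rw [← hb.mul, na_single, aeval_X])
    rw [Matrix.scalar_apply, Matrix.diagonal_apply, congrFun h2 j, Pi.single_apply]
  have h2 : mx M B (io K B u) = algebraMap B[X] _ X := by
    rw [mx_io, h1]
    ext1 j i
    rw [Matrix.map_apply, Matrix.scalar_apply, Matrix.diagonal_apply, Matrix.algebraMap_matrix_apply]
    split_ifs
    · exact map_X _
    · exact Polynomial.map_zero _
  rw [← aeval_algHom_apply, h2, aeval_algebraMap_apply, aeval_X_left_apply]
  rfl

theorem na_ob (h : Pol C u ν) (hb : ∀ a, ∃ f : Fin ν → K[X], a = ∑ i, aeval u (f i) * b i)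
    {f : Fin ν → B[X]} (hf : ∑ i, aeval (io K B u) (f i) * io K B (b i) = 0) : f = 0 := by
  obtain ⟨M, hM⟩ := nr_bas hb (na_ind h hb)
  obtain ⟨e, he⟩ := hb 1
  have h1 : ∀ i, mx M B (io K B (b i)) *ᵥ (fun j => (e j).map (algebraMap K B)) = Pi.single i 1 :=
    fun i => by
      have h2 := na_eq (na_ind h hb) (f := M (b i) *ᵥ e) (g := Pi.single i 1)
        (by rw [← hM.vec, ← he, na_single, map_one, one_mul, mul_one])
      funext j
      have h3 := RingHom.map_mulVec (mapRingHom (algebraMap K B)) (M (b i)) e j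
      rw [h2] at h3
      rw [mx_io]
      refine h3.symm.trans ?_
      rw [Pi.single_apply, Pi.single_apply]
      split_ifs
      · exact map_one _
      · exact map_zero _
  have h2 := congrArg (fun z => mx M B z *ᵥ fun j => (e j).map (algebraMap K B)) hf
  simp only [map_sum, map_mul, na_mx h hM, map_zero, Matrix.zero_mulVec, Matrix.sum_mulVec,
    ← Matrix.mulVec_mulVec, h1] at h2
  funext j
  have h3 := congrFun h2 j
  rw [Finset.sum_apply, Finset.sum_eq_single j (fun i _ hi => ?_) (by simp)] at h3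
  · simpa [Matrix.scalar_apply, Matrix.mulVec_diagonal] using h3
  · rw [Matrix.scalar_apply, Matrix.mulVec_diagonal, Pi.single_eq_of_ne hi.symm, mul_zero]

theorem ind_ob (h : Pol C u ν) (hb : ∀ a, ∃ f : Fin ν → K[X], a = ∑ i, aeval u (f i) * b i)
    {f : Fin ν → Polynomial Ω} (hf : ∑ i, aeval (io K Ω u) (f i) * io K Ω (b i) = 0) : f = 0 :=
  na_ob h hb hf

/-- The norm does not depend on the basis. -/
theorem nm_eq (h : Pol C u ν) (hb : Bas u b M) {b' : Fin ν → O}
    {M' : O →ₐ[K] Matrix (Fin ν) (Fin ν) K[X]} (hb' : Bas u b' M') (z : Ob K O B) :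
    nm M z = nm M' z := by
  choose P hP using fun l => hb'.span (b l)
  choose Q0 hQ using fun l => hb.span (b' l)
  let Q : Matrix (Fin ν) (Fin ν) K[X] := Matrix.of fun j l => Q0 l j
  have h1 := na_inv (P := Matrix.of fun j l => P l j) (Q := Q) (na_ind h hb.span) hQ hP
  have h2 : ∀ a, M a * Q = Q * M' a := fun a => by
    ext1 j l
    exact congrFun (na_eq (na_ind h hb.span) (f := M a *ᵥ Q0 l) (g := Q *ᵥ fun j => M' a j l)
      (by rw [← hb.vec, ← hQ, ← na_chg (Q := Q) hQ, ← hb'.mul])) j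
  let φ := (mapRingHom (algebraMap K B)).mapMatrix (m := Fin ν)
  have h3 : mx M B z * φ Q = φ Q * mx M' B z := by
    induction z using ob_ind with
    | h1 a =>
      rw [mx_io, mx_io]
      exact (map_mul φ _ _).symm.trans ((congrArg φ (h2 a)).trans (map_mul φ _ _))
    | h2 x y hx hy => simp only [map_add, add_mul, mul_add, hx, hy]
    | h3 c x hx => simp only [map_smul, smul_mul_assoc, mul_smul_comm, hx]
  have h4 : IsUnit (φ Q).det :=
    Matrix.isUnit_det_of_right_inverse ((map_mul φ _ _).symm.trans (by rw [h1, map_one]))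
  have h5 := congrArg Matrix.det h3
  rw [Matrix.det_mul, Matrix.det_mul, mul_comm] at h5
  exact h4.mul_left_cancel h5

theorem nm_top' (h : Pol C u ν) (hb : Bas u b M) {γ : ℕ} (hγ : C.g0 ≤ γ) :
    ∃ κ : K, κ ≠ 0 ∧ ∀ (B : Type) [CommRing B] [Algebra K B], ∀ z ∈ C.Le B γ,
      (nm M z).natDegree ≤ γ ∧ (nm M z).coeff γ = algebraMap K B κ * C.cf B (-(γ : ℤ)) z ^ ν := by
  obtain ⟨b', M', hM', -, h1⟩ := nr_exists h
  obtain ⟨κ, h2, h3⟩ := h1 γ hγ
  exact ⟨κ, h2, fun B _ _ z hz => nm_eq h hb hM' z ▸ h3 B z hz⟩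

theorem nm_deg (h : Pol C u ν) (hb : Bas u b M) {γ : ℕ} {z : Ob K O Ω} (hz : C.Eg γ z) :
    nm M z ≠ 0 ∧ (nm M z).natDegree = γ := by
  have key : ∀ e, C.g0 ≤ e → ∀ w : Ob K O Ω, C.Eg e w → nm M w ≠ 0 ∧ (nm M w).natDegree = e :=
    fun e he w hw => by
      obtain ⟨κ, h1, h2⟩ := nm_top' h hb he
      obtain ⟨h3, h4⟩ := h2 Ω w hw.1
      have h5 : (nm M w).coeff e ≠ 0 := by
        rw [h4]
        exact mul_ne_zero ((_root_.map_ne_zero _).2 h1) (pow_ne_zero _ hw.2)
      exact ⟨fun h6 => h5 (by rw [h6, coeff_zero]), le_antisymm h3 (le_natDegree_of_ne_zero h5)⟩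
  obtain ⟨a, -, -, h1, h2⟩ := C.cd_mono_elt (Ω := Ω) le_rfl
  have ha : C.Eg C.g0 (io K Ω a) := ⟨h1, by rw [h2]; exact one_ne_zero⟩
  obtain ⟨h3, h4⟩ := key _ le_rfl _ ha
  obtain ⟨h5, h6⟩ := key _ (Nat.le_add_left _ γ) _ (C.cd_Eg_mul hz ha)
  rw [nm_mul] at h5 h6
  rw [natDegree_mul (left_ne_zero_of_mul h5) h3, h4] at h6
  exact ⟨left_ne_zero_of_mul h5, by omega⟩

end Pool.Agent.Lib.MP_651af7_nt.Gm
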