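import Pool.Agent.Lib.MP_651af7_nt.Gm.CDefs

/-! The norm: functoriality. -/

namespace Pool.Agent.Lib.MP_651af7_nt.Gm

open Polynomial Pool.Agent.HZ
open scoped TensorProduct

variable {K O : Type} [Field K] [CommRing O] [Algebra K O] {ν : ℕ} {C : Crv K O} {u : O}
  {b : Fin ν → O} {M : O →ₐ[K] Matrix (Fin ν) (Fin ν) K[X]} {B B' Ω : Type} [CommRing B]
  [Algebra K B] [CommRing B'] [Algebra K B'] [Field Ω] [Algebra K Ω]

theorem mx_io (a : O) : mx M B (io K B a) = (M a).map (Polynomial.map (algebraMap K B)) :=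
  (Algebra.TensorProduct.lift_tmul _ _ _ 1 a).trans (by rw [map_one, one_mul]; rfl)

theorem ob_ind {p : Ob K O B → Prop} (h1 : ∀ a, p (io K B a)) (h2 : ∀ x y, p x → p y → p (x + y))
    (h3 : ∀ (c : B) x, p x → p (c • x)) (z : Ob K O B) : p z := by
  induction z using TensorProduct.induction_on with
  | zero => simpa using h3 0 _ (h1 0)
  | tmul c a =>
    rw [← smul_io]
    exact h3 c _ (h1 a)
  | add x y hx hy => exact h2 x y hx hy

theorem nm_mul (z z' : Ob K O B) : nm M (z * z') = nm M z * nm M z' := by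
  rw [nm, map_mul, Matrix.det_mul]
  rfl

theorem nm_bc (φ : B →ₐ[K] B') (z : Ob K O B) : nm M (bc φ z) = (nm M z).map φ := by
  have h : mx M B' (bc φ z) = (mapRingHom (φ : B →+* B')).mapMatrix (mx M B z) := by
    induction z using ob_ind with
    | h1 a =>
      rw [bc_io, mx_io, mx_io]
      ext1 j i
      simp only [RingHom.mapMatrix_apply, Matrix.map_apply, coe_mapRingHom, Polynomial.map_map]
      rw [φ.comp_algebraMap]
    | h2 x y hx hy => simp only [map_add, hx, hy]
    | h3 c x hx =>
      rw [bc_smul, map_smul, map_smul, hx]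
      ext1 j i
      simp only [RingHom.mapMatrix_apply, Matrix.map_apply, coe_mapRingHom, Matrix.smul_apply,
        Polynomial.map_smul, RingHom.coe_coe]
  rw [nm, h, ← RingHom.map_det]
  rfl

theorem nm_smul (c : B) (z : Ob K O B) : nm M (c • z) = Polynomial.C (c ^ ν) * nm M z := by
  have h : c • mx M B z = (Polynomial.C c : B[X]) • mx M B z := by
    ext1 j i
    rw [Matrix.smul_apply, Matrix.smul_apply, smul_eq_C_mul, smul_eq_mul]
  rw [nm, map_smul, h, Matrix.det_smul, Fintype.card_fin, map_pow]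
  rfl

theorem io_aeval (f : K[X]) :
    io K B (aeval u f) = aeval (io K B u) (f.map (algebraMap K B)) := by
  rw [aeval_map_algebraMap, aeval_algHom_apply]

theorem span_ob (hb : ∀ a, ∃ f : Fin ν → K[X], a = ∑ i, aeval u (f i) * b i) (z : Ob K O B) :
    ∃ f : Fin ν → B[X], z = ∑ i, aeval (io K B u) (f i) * io K B (b i) := by
  induction z using ob_ind with
  | h1 a =>
    obtain ⟨f, rfl⟩ := hb a
    exact ⟨fun i => (f i).map (algebraMap K B), by simp only [map_sum, map_mul, io_aeval]⟩
  | h2 x y hx hy =>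
    obtain ⟨f, rfl⟩ := hx
    obtain ⟨g, rfl⟩ := hy
    exact ⟨f + g, by simp only [Pi.add_apply, map_add, add_mul, Finset.sum_add_distrib]⟩
  | h3 c x hx =>
    obtain ⟨f, rfl⟩ := hx
    exact ⟨c • f, by simp only [Pi.smul_apply, map_smul, smul_mul_assoc, Finset.smul_sum]⟩

theorem Bas.mul_ob (hb : Bas u b M) (z : Ob K O B) (i : Fin ν) :
    z * io K B (b i) = ∑ j, aeval (io K B u) (mx M B z j i) * io K B (b j) := by
  induction z using ob_ind with
  | h1 a =>
    rw [← map_mul, hb.mul, mx_io]
    simp only [map_sum, map_mul, io_aeval, Matrix.map_apply]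
  | h2 x y hx hy =>
    simp only [add_mul, hx, hy, map_add, Matrix.add_apply, Finset.sum_add_distrib]
  | h3 c x hx =>
    simp only [smul_mul_assoc, hx, map_smul, Matrix.smul_apply, Finset.smul_sum]

end Pool.Agent.Lib.MP_651af7_nt.Gm
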