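import Pool.Agent.Lib.MP_651af7_nt.Gm.CDefs

/-! The norm: shape of the coefficients. -/

namespace Pool.Agent.Lib.MP_651af7_nt.Gm

open Polynomial Pool.Agent.HZ

section Ok

variable {K E : Type} [Field K] [Field E] [Algebra K E]

/-- Inner degree at most `D` and all coefficients in `S`. -/
def NmbOk (S : Submodule K E) (D : ℕ) (q : E[X][X]) : Prop :=
  ∀ i, (q.coeff i).natDegree ≤ D ∧ ∀ j, (q.coeff i).coeff j ∈ S

variable {S T : Submodule K E} {D D' : ℕ} {p q : E[X][X]}

theorem nmb_sum {ι : Type} (s : Finset ι) {f : ι → E[X][X]} (h : ∀ a ∈ s, NmbOk S D (f a)) :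
    NmbOk S D (∑ a ∈ s, f a) := fun i => by
  rw [finsetSum_coeff]
  refine ⟨natDegree_sum_le_of_forall_le _ _ fun a ha => (h a ha i).1, fun j => ?_⟩
  rw [finsetSum_coeff]
  exact S.sum_mem fun a ha => (h a ha i).2 j

theorem nmb_neg (h : NmbOk S D p) : NmbOk S D (-p) := fun i => by
  rw [coeff_neg, natDegree_neg]
  refine ⟨(h i).1, fun j => ?_⟩
  rw [coeff_neg]
  exact S.neg_mem ((h i).2 j)

theorem nmb_mul (h : NmbOk S D p) (h' : NmbOk T D' q) : NmbOk (S * T) (D + D') (p * q) :=
  fun i => by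
    rw [coeff_mul]
    refine ⟨natDegree_sum_le_of_forall_le _ _ fun a _ =>
      natDegree_mul_le.trans (add_le_add (h _).1 (h' _).1), fun j => ?_⟩
    rw [finsetSum_coeff]
    refine Submodule.sum_mem _ fun a _ => ?_
    rw [coeff_mul]
    exact Submodule.sum_mem _ fun c _ => Submodule.mul_mem_mul ((h _).2 _) ((h' _).2 _)

theorem nmb_one : NmbOk (1 : Submodule K E) 0 1 := fun i => by
  rw [coeff_one]
  split_ifs
  · refine ⟨natDegree_one.le, fun j => ?_⟩
    rw [coeff_one]
    split_ifs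
    · exact Submodule.one_le.1 le_rfl
    · exact zero_mem _
  · exact ⟨natDegree_zero.le, fun _ => zero_mem _⟩

theorem nmb_prod {ι : Type} (s : Finset ι) {f : ι → E[X][X]} (h : ∀ a ∈ s, NmbOk S D (f a)) :
    NmbOk (S ^ s.card) (s.card * D) (∏ a ∈ s, f a) := by
  classical
  induction s using Finset.induction_on with
  | empty => simpa using nmb_one
  | insert a s ha ih =>
    rw [Finset.prod_insert ha, Finset.card_insert_of_notMem ha, pow_succ', add_mul, one_mul,
      add_comm]
    exact nmb_mul (h a (Finset.mem_insert_self a s))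
      (ih fun c hc => h c (Finset.mem_insert_of_mem hc))

theorem nmb_det {ν : ℕ} {A : Matrix (Fin ν) (Fin ν) E[X][X]} (h : ∀ i j, NmbOk S D (A i j)) :
    NmbOk (S ^ ν) (ν * D) A.det := by
  rw [Matrix.det_apply]
  refine nmb_sum _ fun σ _ => ?_
  have h1 := nmb_prod Finset.univ fun i _ => h (σ i) i
  rw [Finset.card_univ, Fintype.card_fin] at h1
  rcases Int.units_eq_one_or (Equiv.Perm.sign σ) with e | e <;> rw [e]
  · rwa [one_smul]
  · rw [Units.neg_smul, one_smul]
    exact nmb_neg h1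

theorem nmb_term {n : ℕ} (hn : n ≤ D) {r : E} (hr : r ∈ S) (f : K[X]) :
    NmbOk S D (C (monomial n r) * f.map (algebraMap K E[X])) := fun i => by
  rw [coeff_C_mul, coeff_map, mul_comm, ← Algebra.smul_def, smul_monomial]
  refine ⟨(natDegree_monomial_le _).trans hn, fun j => ?_⟩
  rw [coeff_monomial]
  split_ifs
  · exact S.smul_mem _ hr
  · exact zero_mem _

end Ok

variable {K O : Type} [Field K] [CommRing O] [Algebra K O] {ν : ℕ}
  {M : O →ₐ[K] Matrix (Fin ν) (Fin ν) K[X]}

theorem nm_mem {E L : Type} [Field E] [Algebra K E] [Fintype L] {d : ℕ} (r : L → E)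
    (x : Fin (d + 1) → L → O) (i : ℕ) : ((nm M (zz K r x)).coeff i).natDegree ≤ ν * d ∧
      ∀ j, ((nm M (zz K r x)).coeff i).coeff j ∈ Submodule.span K (Set.range r) ^ ν := by
  refine nmb_det (fun a c => ?_) i
  rw [zz, map_sum, Matrix.sum_apply]
  refine nmb_sum _ fun n _ => ?_
  rw [map_sum, Matrix.sum_apply]
  refine nmb_sum _ fun l _ => ?_
  rw [mx, Algebra.TensorProduct.lift_tmul, Algebra.ofId_apply, ← Algebra.smul_def,
    Matrix.smul_apply, smul_eq_C_mul]
  exact nmb_term (Nat.lt_succ_iff.1 n.2) (Submodule.subset_span (Set.mem_range_self l)) _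

end Pool.Agent.Lib.MP_651af7_nt.Gm
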