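import Pool.Agent.Lib.MP_651af7_nt.Gm.NmA
import Pool.Agent.Lib.MP_651af7_nt.Gm.NmB1

/-! The norm: top coefficient. -/

namespace Pool.Agent.Lib.MP_651af7_nt.Gm

open Polynomial Pool.Agent.HZ

variable {K O : Type} [Field K] [CommRing O] [Algebra K O] {ν : ℕ} {C : Crv K O} {u : O}
  {b : Fin ν → O} {M : O →ₐ[K] Matrix (Fin ν) (Fin ν) K[X]}

theorem nm_top (h : Pol C u ν) (hb : Bas u b M) {γ : ℕ} (hγ : C.g0 ≤ γ) (Ω : Type) [Field Ω]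
    [Algebra K Ω] [IsAlgClosed Ω] : ∃ κ : K, κ ≠ 0 ∧ ∀ z ∈ C.Le Ω γ, (nm M z).natDegree ≤ γ ∧
      (nm M z).coeff γ = algebraMap K Ω κ * C.cf Ω (-(γ : ℤ)) z ^ ν := by
  obtain ⟨κ, h1, h2⟩ := nm_top' h hb hγ
  exact ⟨κ, h1, h2 Ω⟩

end Pool.Agent.Lib.MP_651af7_nt.Gm
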