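import Pool.Agent.Lib.MP_651af7_nt.Gm.NmA

/-! The norm: value at zero. -/

namespace Pool.Agent.Lib.MP_651af7_nt.Gm

open Polynomial Pool.Agent.HZ

theorem nmC_det {L U V W : Type} [Field L] [AddCommGroup U] [AddCommGroup V] [AddCommGroup W]
    [Module L U] [Module L V] [Module L W] [FiniteDimensional L V] {ψ : U →ₗ[L] V} {g : V →ₗ[L] W}
    (hψ : Function.Injective ψ) (hg : Function.Surjective g) (hk : g.ker = ψ.range)
    {a : U →ₗ[L] U} {e : V →ₗ[L] V} {c : W →ₗ[L] W} (h1 : ∀ x, e (ψ x) = ψ (a x))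
    (h2 : ∀ x, g (e x) = c (g x)) : e.det = a.det * c.det := by
  have he : g.ker ≤ g.ker.comap e := fun x hx => by
    rw [Submodule.mem_comap, LinearMap.mem_ker, h2, LinearMap.mem_ker.1 hx, map_zero]
  rw [e.det_eq_det_mul_det _ he,
    ← LinearMap.det_conj a ((LinearEquiv.ofInjective ψ hψ).trans (.ofEq _ _ hk.symm)),
    ← LinearMap.det_conj c (g.quotKerEquivOfSurjective hg).symm]
  congr 2
  · ext x
    obtain ⟨y, rfl⟩ := ((LinearEquiv.ofInjective ψ hψ).trans (.ofEq _ _ hk.symm)).surjective x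
    simp only [LinearMap.comp_apply, LinearEquiv.coe_coe, LinearEquiv.symm_apply_apply]
    exact h1 y
  · ext x
    simp only [LinearMap.comp_apply, LinearEquiv.coe_coe, LinearEquiv.symm_symm]
    exact (LinearEquiv.eq_symm_apply _).2 (h2 x)

theorem nmC_mul {L A : Type} [Field L] [CommRing A] [IsDedekindDomain A] [Algebra L A]
    {I J : Ideal A} (hI : I ≠ ⊥) (hJ : J ≠ ⊥) [FiniteDimensional L (A ⧸ I * J)] (z : A) :
    Algebra.norm L (Ideal.Quotient.mk (I * J) z) =
      Algebra.norm L (Ideal.Quotient.mk J z) * Algebra.norm L (Ideal.Quotient.mk I z) := by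
  obtain ⟨a, ha⟩ := IsDedekindDomain.exists_sup_span_eq (I := I * J) (J := I) Ideal.mul_le_left
    (mul_ne_zero hI hJ)
  have haI : a ∈ I := by
    rw [← ha]
    exact Ideal.mem_sup_right (Ideal.mem_span_singleton_self a)
  have key : ∀ c, a * c ∈ I * J ↔ c ∈ J := by
    refine fun c => ⟨fun h => ?_, Ideal.mul_mem_mul haI⟩
    have h1 : I * Ideal.span {c} ≤ I * J := by
      conv_lhs => rw [← ha]
      rw [Ideal.sup_mul, Ideal.span_singleton_mul_span_singleton]
      exact sup_le Ideal.mul_le_left ((Ideal.span_singleton_le_iff_mem _).2 h)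
    rw [← Ideal.dvd_iff_le, mul_dvd_mul_iff_left hI, Ideal.dvd_iff_le] at h1
    exact h1 (Ideal.mem_span_singleton_self c)
  let ψ : (A ⧸ J) →ₗ[L] A ⧸ I * J :=
    (Submodule.mapQ J (I * J) (LinearMap.mulLeft A a) fun c hc => (key c).2 hc).restrictScalars L
  have hψ : ∀ c, ψ (Ideal.Quotient.mk J c) = Ideal.Quotient.mk (I * J) (a * c) := fun c => rfl
  let g : (A ⧸ I * J) →ₗ[L] A ⧸ I := (Ideal.Quotient.factorₐ L Ideal.mul_le_left).toLinearMap
  have hg : ∀ c, g (Ideal.Quotient.mk (I * J) c) = Ideal.Quotient.mk I c := fun c => rfl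
  refine nmC_det (ψ := ψ) (g := g) ?_ (Ideal.Quotient.factor_surjective Ideal.mul_le_left) ?_
    (fun x => ?_) fun x => ?_
  · rw [injective_iff_map_eq_zero]
    intro x hx
    obtain ⟨c, rfl⟩ := Ideal.Quotient.mk_surjective x
    rw [hψ, Ideal.Quotient.eq_zero_iff_mem, key] at hx
    exact Ideal.Quotient.eq_zero_iff_mem.2 hx
  · ext x
    obtain ⟨z, rfl⟩ := Ideal.Quotient.mk_surjective x
    rw [LinearMap.mem_ker, hg, Ideal.Quotient.eq_zero_iff_mem, LinearMap.mem_range]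
    constructor
    · intro hz
      rw [← ha] at hz
      obtain ⟨u, hu, v, hv, rfl⟩ := Submodule.mem_sup.1 hz
      obtain ⟨c, rfl⟩ := Ideal.mem_span_singleton.1 hv
      refine ⟨Ideal.Quotient.mk J c, ?_⟩
      rw [hψ, map_add, Ideal.Quotient.eq_zero_iff_mem.2 hu, zero_add]
    · rintro ⟨y, hy⟩
      obtain ⟨c, rfl⟩ := Ideal.Quotient.mk_surjective y
      rw [hψ, Ideal.Quotient.eq] at hy
      have h2 := I.sub_mem (I.mul_mem_right c haI) (Ideal.mul_le_left hy)
      rwa [sub_sub_cancel] at h2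
  · obtain ⟨c, rfl⟩ := Ideal.Quotient.mk_surjective x
    change Ideal.Quotient.mk (I * J) (z * (a * c)) = Ideal.Quotient.mk (I * J) (a * (z * c))
    rw [mul_left_comm]
  · obtain ⟨c, rfl⟩ := Ideal.Quotient.mk_surjective x
    rfl

theorem norm_quot {L A : Type} [Field L] [IsAlgClosed L] [CommRing A] [IsDedekindDomain A]
    [Algebra L A] {I : Ideal A} (hI : I ≠ ⊥) [FiniteDimensional L (A ⧸ I)] :
    ∃ s : Multiset (A →ₐ[L] L), (s.map fun ρ => RingHom.ker ρ).prod = I ∧
      ∀ z, Algebra.norm L (Ideal.Quotient.mk I z) = (s.map fun ρ => ρ z).prod := by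
  revert hI ‹FiniteDimensional L (A ⧸ I)›
  induction I using UniqueFactorizationMonoid.induction_on_prime with
  | h₁ => exact fun h => (h rfl).elim
  | h₂ I hI =>
    obtain rfl := Ideal.isUnit_iff.1 hI
    have : Subsingleton (A ⧸ (⊤ : Ideal A)) := Ideal.Quotient.subsingleton_iff.2 rfl
    exact fun _ _ => ⟨0, Ideal.one_eq_top, fun z => LinearMap.det_eq_one_of_subsingleton _⟩
  | h₃ J P hJ hP ih =>
    intro _ _
    have : FiniteDimensional L (A ⧸ J) := Module.Finite.of_surjective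
      (Ideal.Quotient.factorₐ L (Ideal.mul_le_right (I := P) (J := J))).toLinearMap
      (Ideal.Quotient.factor_surjective Ideal.mul_le_right)
    have : FiniteDimensional L (A ⧸ P) := Module.Finite.of_surjective
      (Ideal.Quotient.factorₐ L (Ideal.mul_le_left (I := P) (J := J))).toLinearMap
      (Ideal.Quotient.factor_surjective Ideal.mul_le_left)
    obtain ⟨s, h1, h2⟩ := ih hJ
    obtain ⟨h3, ρ, h4⟩ := Crv.cd_gen_max (L := L)
      ((Ideal.isPrime_of_prime hP).isMaximal hP.ne_zero)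
    refine ⟨ρ ::ₘ s, ?_, fun z => ?_⟩
    · rw [Multiset.map_cons, Multiset.prod_cons, h1]
      exact congrArg (· * J) (Ideal.ext h4)
    · have h5 : Ideal.Quotient.mk P z = algebraMap L _ (ρ z) :=
        Ideal.Quotient.eq.2 ((h4 (z - algebraMap L A (ρ z))).1 (by simp))
      rw [nmC_mul hP.ne_zero hJ, h2, h5, Algebra.norm_algebraMap, h3, pow_one, Multiset.map_cons,
        Multiset.prod_cons, mul_comm]

variable {K O : Type} [Field K] [CommRing O] [Algebra K O] {ν : ℕ} {C : Crv K O} {u : O}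
  {b : Fin ν → O} {M : O →ₐ[K] Matrix (Fin ν) (Fin ν) K[X]}

theorem nm_zero [PerfectField K] (h : Pol C u ν) (hb : Bas u b M) (Ω : Type) [Field Ω]
    [Algebra K Ω] [IsAlgClosed Ω] : ∃ s : Multiset (Ob K O Ω →ₐ[Ω] Ω),
      (s.map fun ρ => RingHom.ker ρ).prod = Ideal.span {io K Ω u} ∧
      ∀ z, (nm M z).coeff 0 = (s.map fun ρ => ρ z).prod := by
  have := C.ded Ω
  have hu : C.Eg ν (io K Ω u) := ⟨C.io_mem_Le h.le, by
    rw [C.cf_io]
    exact (_root_.map_ne_zero _).2 h.ne⟩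
  have h0 : Ideal.span {io K Ω u} ≠ ⊥ := mt Ideal.span_singleton_eq_bot.1 (C.cd_Eg_ne hu)
  have := C.fin_quot h0
  obtain ⟨s, h1, h2⟩ := norm_quot (L := Ω) h0
  refine ⟨s, h1, fun z => (h2 z ▸ ?_ : _ = _)⟩
  let π := Ideal.Quotient.mkₐ Ω (Ideal.span {io K Ω u})
  have e1 : ∀ f : Fin ν → Polynomial Ω, π (∑ i, aeval (io K Ω u) (f i) * io K Ω (b i)) =
      ∑ i, (f i).coeff 0 • π (io K Ω (b i)) := fun f => by
    have e0 : π (io K Ω u) = 0 :=
      Ideal.Quotient.eq_zero_iff_mem.2 (Ideal.mem_span_singleton_self _)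
    simp only [map_sum, map_mul, ← aeval_algHom_apply, e0, ← coeff_zero_eq_aeval_zero']
    exact Finset.sum_congr rfl fun i _ => (Algebra.smul_def _ _).symm
  have e2 : ⊤ ≤ Submodule.span Ω (Set.range fun i => π (io K Ω (b i))) := fun x _ => by
    obtain ⟨y, rfl⟩ := Ideal.Quotient.mkₐ_surjective Ω _ x
    obtain ⟨f, rfl⟩ := span_ob hb.span y
    exact e1 f ▸ Submodule.sum_mem _ fun i _ =>
      Submodule.smul_mem _ _ (Submodule.subset_span ⟨i, rfl⟩)
  let β := basisOfTopLeSpanOfCardEqFinrank _ e2 ((Fintype.card_fin ν).trans (C.cd_span hu).symm)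
  have hβ : ∀ i, β i = π (io K Ω (b i)) :=
    congrFun (coe_basisOfTopLeSpanOfCardEqFinrank _ _ _)
  rw [Algebra.norm_eq_matrix_det β, nm, ← constantCoeff_apply, RingHom.map_det]
  congr 1
  ext j i
  have e3 : π z * β i = ∑ j, (mx M Ω z j i).coeff 0 • β j := by
    simp only [hβ]
    rw [← map_mul, hb.mul_ob, e1]
  rw [Algebra.leftMulMatrix_eq_repr_mul]
  exact (congrFun (β.repr_sum_self _) j).symm.trans (congrArg (β.repr · j) e3.symm)

end Pool.Agent.Lib.MP_651af7_nt.Gm
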