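import Pool.Agent.Lib.MP_651af7_nt.Gm.NmA1

/-! A reduced basis, and the degree and top coefficient of the norm. -/

namespace Pool.Agent.Lib.MP_651af7_nt.Gm

open Polynomial Pool.Agent.HZ
open scoped TensorProduct

theorem nr_prod {R α : Type} [CommRing R] (s : Finset α) (f : α → R[X]) (d : α → ℕ)
    (h : ∀ i, (f i).natDegree ≤ d i) : (∏ i ∈ s, f i).natDegree ≤ ∑ i ∈ s, d i ∧
      (∏ i ∈ s, f i).coeff (∑ i ∈ s, d i) = ∏ i ∈ s, (f i).coeff (d i) := by
  classical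
  induction s using Finset.induction_on with
  | empty => simp
  | insert a s ha ih =>
    simp only [Finset.prod_insert ha, Finset.sum_insert ha]
    exact ⟨natDegree_mul_le.trans (add_le_add (h a) ih.1),
      by rw [coeff_mul_add_eq_of_natDegree_le (h a) ih.1, ih.2]⟩

theorem nr_det {R : Type} [CommRing R] {ν : ℕ} (A : Matrix (Fin ν) (Fin ν) R[X]) (d : Fin ν → ℕ)
    (h : ∀ j i, (A j i).natDegree ≤ d i) : A.det.natDegree ≤ ∑ i, d i ∧
      A.det.coeff (∑ i, d i) = (Matrix.of fun j i => (A j i).coeff (d i)).det := by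
  rw [Matrix.det_apply', Matrix.det_apply']
  refine ⟨natDegree_sum_le_of_forall_le _ _ fun σ _ => ?_, ?_⟩
  · rw [← C_eq_intCast]
    exact (natDegree_C_mul_le _ _).trans (nr_prod _ _ d fun i => h _ i).1
  · rw [finsetSum_coeff]
    refine Finset.sum_congr rfl fun σ _ => ?_
    rw [← C_eq_intCast, coeff_C_mul, (nr_prod _ _ d fun i => h _ i).2]
    rfl

theorem nr_w0 {R : Type} [CommRing R] {ν : ℕ} (hν : 0 < ν) (n N : ℕ) (p : R[X])
    (h : ∀ m, ν * m + n = N → p.coeff m = 0) : (X ^ n * expand R ν p).coeff N = 0 := by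
  rw [coeff_X_pow_mul', coeff_expand hν]
  split_ifs with h1 h2
  · exact h _ (by rw [Nat.mul_div_cancel' h2]; omega)
  · rfl
  · rfl

theorem nr_w1 {R : Type} [CommRing R] {ν : ℕ} (hν : 0 < ν) (n m : ℕ) (p : R[X]) :
    (X ^ n * expand R ν p).coeff (ν * m + n) = p.coeff m := by
  rw [coeff_X_pow_mul, coeff_expand hν, if_pos (dvd_mul_right _ _), Nat.mul_div_cancel_left _ hν]

/-- Weighted degrees of the entries bound the degree of the determinant. -/
theorem nr_wdet {K R : Type} [Field K] [CommRing R] [Algebra K R] {ν : ℕ} (hν : 0 < ν)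
    (n : Fin ν → ℕ) (γ : ℕ) (l : K) (c : R) (A : Matrix (Fin ν) (Fin ν) R[X])
    (h0 : ∀ j i m, γ + n i < ν * m + n j → (A j i).coeff m = 0)
    (h1 : ∀ j i m, ν * m + n j = γ + n i → (A j i).coeff m = algebraMap K R (l ^ m) * c) :
    A.det.natDegree ≤ γ ∧ A.det.coeff γ = algebraMap K R (Matrix.of fun j i =>
      (X ^ n j * expand K ν (∑ m ∈ Finset.range (γ + n i + 1), monomial m (l ^ m))).coeff
        (γ + n i)).det * c ^ ν := by
  let A' : Matrix (Fin ν) (Fin ν) R[X] := Matrix.of fun j i => X ^ n j * expand R ν (A j i)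
  have hd : A'.det = X ^ (∑ j, n j) * expand R ν A.det := by
    rw [AlgHom.map_det, ← Finset.prod_pow_eq_pow_sum, ← Matrix.det_diagonal, ← Matrix.det_mul]
    congr 1
    ext1 j i
    rw [Matrix.diagonal_mul]
    rfl
  obtain ⟨h2, h3⟩ := nr_det A' (fun i => γ + n i) fun j i =>
    natDegree_le_iff_coeff_eq_zero.2 fun N hN => nr_w0 hν _ _ _ fun m hm => h0 j i m (by omega)
  have hs : ∑ i, (γ + n i) = ν * γ + ∑ j, n j := by
    rw [Finset.sum_add_distrib, Finset.sum_const, Finset.card_fin, smul_eq_mul]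
  rw [hs, hd] at h2 h3
  refine ⟨natDegree_le_iff_coeff_eq_zero.2 fun N hN => ?_, ?_⟩
  · rw [← nr_w1 hν (∑ j, n j) N]
    refine natDegree_le_iff_coeff_eq_zero.1 h2 _ ?_
    have := Nat.mul_lt_mul_of_pos_left hN hν
    omega
  · have h5 := fun T : Matrix (Fin ν) (Fin ν) R => Matrix.det_smul T c
    rw [Fintype.card_fin] at h5
    rw [← nr_w1 hν (∑ j, n j) γ, h3, RingHom.map_det, mul_comm _ (c ^ ν), ← h5]
    congr 1
    ext1 j i
    simp only [A', Matrix.of_apply, Matrix.smul_apply, RingHom.mapMatrix_apply, Matrix.map_apply,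
      smul_eq_mul]
    by_cases hm : ∃ m, ν * m + n j = γ + n i
    · obtain ⟨m, hm⟩ := hm
      have h4 : m ≤ ν * m := Nat.le_mul_of_pos_left m hν
      rw [← hm, nr_w1 hν, nr_w1 hν, h1 j i m hm, mul_comm, finsetSum_coeff]
      simp only [coeff_monomial]
      rw [Finset.sum_ite_eq', if_pos (Finset.mem_range.2 (by omega))]
    · rw [nr_w0 hν _ _ _ fun m h => absurd ⟨m, h⟩ hm, nr_w0 hν _ _ _ fun m h => absurd ⟨m, h⟩ hm,
        map_zero, mul_zero]

theorem nr_kappa {K : Type} [Field K] {ν : ℕ} (hν : 0 < ν) {n : Fin ν → ℕ} (hn : ∀ i, n i % ν = i)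
    {γ : ℕ} (hγ : ∀ i, ∃ j m, ν * m + n j = γ + n i) {l : K} (hl : l ≠ 0) :
    (Matrix.of fun j i =>
      (X ^ n j * expand K ν (∑ m ∈ Finset.range (γ + n i + 1), monomial m (l ^ m))).coeff
        (γ + n i)).det ≠ 0 := by
  intro h
  obtain ⟨v, hv, h0⟩ := Matrix.exists_mulVec_eq_zero_iff.2 h
  refine hv (funext fun i => ?_)
  obtain ⟨j, m, hm⟩ := hγ i
  have h1 := congrFun h0 j
  have h4 : m ≤ ν * m := Nat.le_mul_of_pos_left m hν
  rw [Matrix.mulVec, dotProduct, Finset.sum_eq_single i (fun i' _ hi => ?_) (by simp),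
    Matrix.of_apply, ← hm, nr_w1 hν, finsetSum_coeff] at h1
  · simp only [coeff_monomial] at h1
    rw [Finset.sum_ite_eq', if_pos (Finset.mem_range.2 (by omega))] at h1
    exact (mul_eq_zero.1 h1).resolve_left (pow_ne_zero _ hl)
  · rw [Matrix.of_apply, nr_w0 hν _ _ _ fun m' hm' => absurd (Fin.ext ?_) hi, zero_mul]
    have h2 : n i' + ν * m = n i + ν * m' := by omega
    rw [← hn, ← hn, ← Nat.add_mul_mod_self_left (n i') ν m, h2, Nat.add_mul_mod_self_left]

variable {K O : Type} [Field K] [CommRing O] [Algebra K O] {C : Crv K O} {ν : ℕ} {u : O}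

theorem nr_mul {e e' : ℕ} {a a' : O} (h : a ∈ C.Le0 e) (h' : a' ∈ C.Le0 e') :
    a * a' ∈ C.Le0 (e + e') ∧
      C.c0 (-((e + e' : ℕ) : ℤ)) (a * a') = C.c0 (-(e : ℤ)) a * C.c0 (-(e' : ℤ)) a' := by
  have h1 := p7_mul (x := C.ι a) (y := C.ι a') (C.mem_Le0.1 h) (C.mem_Le0.1 h')
  rw [← map_mul, ← neg_add, ← Nat.cast_add] at h1
  exact ⟨C.mem_Le0.2 h1.1, h1.2⟩

theorem nr_pow (hu : u ∈ C.Le0 ν) (m : ℕ) : u ^ m ∈ C.Le0 (ν * m) ∧
    C.c0 (-((ν * m : ℕ) : ℤ)) (u ^ m) = C.c0 (-(ν : ℤ)) u ^ m := by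
  induction m with
  | zero =>
    have h1 : ∀ i, C.c0 i 1 = (1 : HahnSeries ℤ K).coeff i := fun i =>
      congrArg (fun x => x.coeff i) (map_one C.ι)
    rw [pow_zero, pow_zero, mul_zero]
    refine ⟨C.mem_Le0.2 fun i hi => ?_, ?_⟩
    · rw [h1, HahnSeries.coeff_one, if_neg (by omega)]
    · rw [h1, HahnSeries.coeff_one, if_pos (by omega)]
  | succ m ih =>
    rw [pow_succ, pow_succ, Nat.mul_succ, ← ih.2]
    exact nr_mul ih.1 hu

/-- `b i` has the least pole order in the class of `i`. -/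
structure Red (C : Crv K O) (n : Fin ν → ℕ) (b : Fin ν → O) : Prop where
  md : ∀ i, n i % ν = i
  le : ∀ i, b i ∈ C.Le0 (n i)
  one : ∀ i, C.c0 (-(n i : ℤ)) (b i) = 1
  min : ∀ (e : ℕ) (a : O), a ∈ C.Le0 e → C.c0 (-(e : ℤ)) a ≠ 0 → ∃ i m, ν * m + n i = e

theorem exists_red (C : Crv K O) (hν : 0 < ν) : ∃ (n : Fin ν → ℕ) (b : Fin ν → O), Red C n b := by
  classical
  have h : ∀ i : Fin ν, ∃ e, e % ν = i ∧ ∃ a ∈ C.Le0 e, C.c0 (-(e : ℤ)) a = 1 := fun i =>
    ⟨i + ν * C.g0, by rw [Nat.add_mul_mod_self_left, Nat.mod_eq_of_lt i.2],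
      C.exists_mono (by have := Nat.le_mul_of_pos_left C.g0 hν; omega)⟩
  choose h1 b h2 h3 using fun i => Nat.find_spec (h i)
  refine ⟨_, b, h1, h2, h3, fun e a ha h0 => ?_⟩
  let i : Fin ν := ⟨e % ν, Nat.mod_lt _ hν⟩
  have h4 : Nat.find (h i) ≤ e := Nat.find_min' _ ⟨rfl, (C.c0 (-(e : ℤ)) a)⁻¹ • a,
    Submodule.smul_mem _ _ ha, by rw [map_smul, smul_eq_mul, inv_mul_cancel₀ h0]⟩
  obtain ⟨m, hm⟩ := (Nat.modEq_iff_dvd' h4).1 (h1 i)
  exact ⟨i, m, by omega⟩

variable {n : Fin ν → ℕ} {b : Fin ν → O}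

theorem nr_mono (hu : u ∈ C.Le0 ν) (hr : Red C n b) (i : Fin ν) (m : ℕ) :
    u ^ m * b i ∈ C.Le0 (ν * m + n i) ∧
      C.c0 (-((ν * m + n i : ℕ) : ℤ)) (u ^ m * b i) = C.c0 (-(ν : ℤ)) u ^ m := by
  have h := nr_mul (nr_pow hu m).1 (hr.le i)
  rwa [hr.one, mul_one, (nr_pow hu m).2] at h

theorem nr_span (hu : Pol C u ν) (hr : Red C n b) (e : ℕ) :
    ∀ a : O, (∀ i ≤ -(e : ℤ), C.c0 i a = 0) → ∃ f : Fin ν → K[X],
      a = ∑ i, aeval u (f i) * b i ∧ ∀ i m, e ≤ ν * m + n i → (f i).coeff m = 0 := by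
  classical
  induction e with
  | zero => exact fun a ha => ⟨0, by simpa using C.neg a fun i hi => ha i (by omega), fun _ _ _ => rfl⟩
  | succ e ih =>
    intro a ha
    have hle : a ∈ C.Le0 e := C.mem_Le0.2 fun i hi => ha i (by omega)
    have key : ∀ a' ∈ C.Le0 e, C.c0 (-(e : ℤ)) a' = 0 → ∀ i ≤ -(e : ℤ), C.c0 i a' = 0 :=
      fun a' h1 h2 i hi => hi.eq_or_lt.elim (fun h => h ▸ h2) (C.mem_Le0.1 h1 i)
    by_cases h0 : C.c0 (-(e : ℤ)) a = 0
    · obtain ⟨f, h1, h2⟩ := ih a (key a hle h0)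
      exact ⟨f, h1, fun i m h => h2 i m (by omega)⟩
    · obtain ⟨i, m, hm⟩ := hr.min e a hle h0
      obtain ⟨h1, h2⟩ := nr_mono hu.le hr i m
      rw [hm] at h1 h2
      obtain ⟨c, hc⟩ : ∃ c, c * C.c0 (-(ν : ℤ)) u ^ m = C.c0 (-(e : ℤ)) a :=
        ⟨_, div_mul_cancel₀ _ (pow_ne_zero m hu.ne)⟩
      obtain ⟨f, h3, h4⟩ := ih (a - c • (u ^ m * b i)) (key _
        (sub_mem hle (Submodule.smul_mem _ _ h1))
        (by rw [map_sub, map_smul, h2, smul_eq_mul, hc, sub_self]))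
      refine ⟨f + Pi.single i (monomial m c), ?_, fun j m' h => ?_⟩
      · simp only [Pi.add_apply, map_add, add_mul, Finset.sum_add_distrib]
        rw [← h3, Finset.sum_eq_single i (fun j _ hj => by simp [Pi.single_eq_of_ne hj]) (by simp),
          Pi.single_eq_same, aeval_monomial, mul_assoc, ← Algebra.smul_def, sub_add_cancel]
      · rw [Pi.add_apply, coeff_add, h4 j m' (by omega), zero_add]
        by_cases hj : j = i
        · subst hj
          rw [Pi.single_eq_same, coeff_monomial, if_neg (by rintro rfl; omega)]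
        · rw [Pi.single_eq_of_ne hj, coeff_zero]

theorem nr_top (hu : Pol C u ν) (hr : Red C n b) {e : ℕ} {f : Fin ν → K[X]}
    (hf : ∀ i m, e < ν * m + n i → (f i).coeff m = 0) {i : Fin ν} {m : ℕ} (hm : ν * m + n i = e) :
    C.c0 (-(e : ℤ)) (∑ j, aeval u (f j) * b j) = (f i).coeff m * C.c0 (-(ν : ℤ)) u ^ m := by
  have key : ∀ j m', ¬ (j = i ∧ m' = m) →
      (f j).coeff m' * C.c0 (-(e : ℤ)) (u ^ m' * b j) = 0 := fun j m' h => by
    rcases lt_trichotomy e (ν * m' + n j) with h1 | h1 | h1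
    · rw [hf j m' h1, zero_mul]
    · have h2 : j = i := Fin.ext (by
        rw [← hr.md, ← hr.md, ← Nat.mul_add_mod ν m', ← h1, ← hm, Nat.mul_add_mod])
      subst h2
      exact absurd ⟨rfl, Nat.eq_of_mul_eq_mul_left hu.pos (by omega)⟩ h
    · rw [C.mem_Le0.1 (nr_mono hu.le hr j m').1 _ (by omega), mul_zero]
  have h1 : ∀ j, C.c0 (-(e : ℤ)) (aeval u (f j) * b j) =
      ∑ m' ∈ (f j).support, (f j).coeff m' * C.c0 (-(e : ℤ)) (u ^ m' * b j) := fun j => by
    rw [aeval_def, eval₂_eq_sum, sum_def, Finset.sum_mul, map_sum]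
    exact Finset.sum_congr rfl fun m' _ => by
      rw [mul_assoc, ← Algebra.smul_def, map_smul, smul_eq_mul]
  rw [map_sum, Finset.sum_eq_single i (fun j _ hj => ?_) (by simp), h1,
    Finset.sum_eq_single m (fun m' _ h => key i m' fun h' => h h'.2)
      (fun h => by rw [notMem_support_iff.1 h, zero_mul]), ← hm, (nr_mono hu.le hr i m).2]
  rw [h1]
  exact Finset.sum_eq_zero fun m' _ => key j m' fun h' => hj h'.1

theorem nr_ind (hu : Pol C u ν) (hr : Red C n b) {f : Fin ν → K[X]}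
    (hf : ∑ j, aeval u (f j) * b j = 0) : f = 0 := by
  have key : ∀ e, (∀ i m, e ≤ ν * m + n i → (f i).coeff m = 0) → f = 0 := fun e => by
    induction e with
    | zero => exact fun h => funext fun i => Polynomial.ext fun m => h i m (Nat.zero_le _)
    | succ e ih =>
      refine fun h => ih fun i m hm => hm.eq_or_lt.elim (fun h1 => ?_) (h i m)
      have h2 := nr_top hu hr h h1.symm
      rw [hf, map_zero] at h2
      exact (mul_eq_zero.1 h2.symm).resolve_right (pow_ne_zero _ hu.ne)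
  refine key (∑ i, (ν * (f i).natDegree + n i) + 1) fun i m hm => coeff_eq_zero_of_natDegree_lt ?_
  have h1 : ν * (f i).natDegree + n i ≤ ∑ i, (ν * (f i).natDegree + n i) :=
    Finset.single_le_sum (f := fun i => ν * (f i).natDegree + n i) (fun _ _ => Nat.zero_le _)
      (Finset.mem_univ i)
  exact Nat.lt_of_mul_lt_mul_left (a := ν) (by omega)

theorem nr_all (hu : Pol C u ν) (hr : Red C n b) (a : O) :
    ∃ f : Fin ν → K[X], a = ∑ i, aeval u (f i) * b i := by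
  obtain ⟨e, he⟩ := C.exists_Le0 a
  obtain ⟨f, h1, -⟩ := nr_span hu hr (e + 1) a fun i hi => C.mem_Le0.1 he i (by omega)
  exact ⟨f, h1⟩

theorem nr_bas (hsp : ∀ a, ∃ f : Fin ν → K[X], a = ∑ i, aeval u (f i) * b i)
    (hi : ∀ f : Fin ν → K[X], ∑ i, aeval u (f i) * b i = 0 → f = 0) :
    ∃ M : O →ₐ[K] Matrix (Fin ν) (Fin ν) K[X], Bas u b M := by
  let _ : Algebra K[X] O := (aeval u : K[X] →ₐ[K] O).toRingHom.toAlgebra
  have _ : IsScalarTower K K[X] O := IsScalarTower.of_algebraMap_eq fun c =>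
    ((aeval u : K[X] →ₐ[K] O).commutes c).symm
  let β : Module.Basis (Fin ν) K[X] O := Module.Basis.mk (v := b)
    (Fintype.linearIndependent_iff.2 fun f hf i => congrFun (hi f hf) i) fun a _ => by
      obtain ⟨f, rfl⟩ := hsp a
      exact sum_mem fun i _ => Submodule.smul_mem _ (f i) (Submodule.subset_span ⟨i, rfl⟩)
  have hβ : ∀ i, β i = b i := fun i => Module.Basis.mk_apply _ _ i
  refine ⟨(Algebra.leftMulMatrix β).restrictScalars K, fun a i => ?_, hsp⟩
  rw [← hβ i, ← β.sum_repr (a * β i)]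
  refine Finset.sum_congr rfl fun j _ => ?_
  rw [AlgHom.restrictScalars_apply, Algebra.leftMulMatrix_eq_repr_mul, hβ j]
  rfl

/-- A basis over `K[u]` for which the norm has controlled degree and top coefficient. -/
theorem nr_exists (hu : Pol C u ν) :
    ∃ (b : Fin ν → O) (M : O →ₐ[K] Matrix (Fin ν) (Fin ν) K[X]), Bas u b M ∧
      (∀ f : Fin ν → K[X], ∑ i, aeval u (f i) * b i = 0 → f = 0) ∧
      ∀ γ, C.g0 ≤ γ → ∃ κ : K, κ ≠ 0 ∧ ∀ (B : Type) [CommRing B] [Algebra K B] (z : Ob K O B),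
        z ∈ C.Le B γ → (nm M z).natDegree ≤ γ ∧
          (nm M z).coeff γ = algebraMap K B κ * C.cf B (-(γ : ℤ)) z ^ ν := by
  obtain ⟨n, b, hr⟩ := exists_red C hu.pos
  obtain ⟨M, hM⟩ := nr_bas (nr_all hu hr) fun _ => nr_ind hu hr
  refine ⟨b, M, hM, fun _ => nr_ind hu hr, fun γ hγ => ⟨_, nr_kappa hu.pos hr.md (γ := γ) (fun i => ?_)
    (inv_ne_zero hu.ne), fun B _ _ z hz => ?_⟩⟩
  · obtain ⟨a, h1, h2⟩ := C.exists_mono (s := γ + n i) (by omega)
    exact hr.min _ a h1 (by rw [h2]; exact one_ne_zero)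
  have key : ∀ a ∈ C.Le0 γ, ∀ i, (∀ j m, γ + n i < ν * m + n j → (M a j i).coeff m = 0) ∧
      ∀ j m, ν * m + n j = γ + n i →
        (M a j i).coeff m = (C.c0 (-(ν : ℤ)) u)⁻¹ ^ m * C.c0 (-(γ : ℤ)) a := fun a ha i => by
    obtain ⟨h1, h2⟩ := nr_mul ha (hr.le i)
    obtain ⟨f, h3, h4⟩ := nr_span hu hr (γ + n i + 1) _ fun j hj => C.mem_Le0.1 h1 j (by omega)
    have h5 : (fun j => M a j i) - f = 0 := nr_ind hu hr (by
      simp only [Pi.sub_apply, map_sub, sub_mul, Finset.sum_sub_distrib]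
      rw [← h3, ← hM.mul, sub_self])
    obtain rfl := sub_eq_zero.1 h5
    refine ⟨h4, fun j m hm => ?_⟩
    have h6 := nr_top hu hr h4 hm
    rw [← h3, h2, hr.one, mul_one] at h6
    rw [h6, inv_pow, mul_comm, mul_inv_cancel_right₀ (pow_ne_zero _ hu.ne)]
  rw [C.Le_eq_span] at hz
  refine nr_wdet hu.pos n γ _ _ _ (fun j i m hm => ?_) fun j i m hm => ?_
  · induction hz using Submodule.span_induction with
    | mem x hx =>
      obtain ⟨a, ha, rfl⟩ := hx
      rw [mx_io, Matrix.map_apply, coeff_map, (key a ha i).1 j m hm, map_zero]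
    | zero => rw [map_zero, Matrix.zero_apply, coeff_zero]
    | add x y _ _ hx hy => rw [map_add, Matrix.add_apply, coeff_add, hx, hy, add_zero]
    | smul c x _ hx => rw [map_smul, Matrix.smul_apply, coeff_smul, hx, smul_zero]
  · induction hz using Submodule.span_induction with
    | mem x hx =>
      obtain ⟨a, ha, rfl⟩ := hx
      rw [mx_io, Matrix.map_apply, coeff_map, (key a ha i).2 j m hm, map_mul, C.cf_io]
    | zero => rw [map_zero, Matrix.zero_apply, coeff_zero, map_zero, mul_zero]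
    | add x y _ _ hx hy => rw [map_add, Matrix.add_apply, coeff_add, hx, hy, map_add, mul_add]
    | smul c x _ hx =>
      rw [map_smul, Matrix.smul_apply, coeff_smul, hx, map_smul, smul_eq_mul, smul_eq_mul,
        mul_left_comm]

end Pool.Agent.Lib.MP_651af7_nt.Gm
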