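import Pool.Agent.Lib.MP_651af7_nt.Nc.IDefs
import Pool.Agent.Lib.MP_651af7_nt.Av.PtA
import Pool.Agent.Lib.MP_651af7_nt.Gm.HDefs

/-! Independence over the field of a generic point; limits along an ultrafilter. -/

namespace Pool.Agent.Lib.MP_651af7_nt.Gm

open MvPolynomial Av Finset
open IntermediateField (adjoin)

/-- Independent elements of `N` stay independent over `F (v)` for `v` generic over `N`. -/
theorem t_irv {k ι F N E σ : Type} [Field k] [Fintype ι] [Field F] [Field N] [Field E] [Algebra k F]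
    [Algebra k N] [Algebra k E] [Algebra F N] [Algebra F E] [Algebra N E] [IsScalarTower k F N]
    [IsScalarTower k F E] [IsScalarTower k N E] [IsScalarTower F N E] {B : AV k ι} {v : ι → E}
    (h1 : ∃ a, v a = 1) (h0 : ∀ f ∈ B.I, aeval v f = 0) (hg : td N (rat v) = B.dim) {b : σ → N}
    (hb : LinearIndependent F b) :
    LinearIndependent (adjoin F (Set.range v)) fun i => algebraMap N E (b i) := by
  classical
  rw [linearIndependent_iff_finset_linearIndependent]
  intro s
  rw [Fintype.linearIndependent_iff]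
  intro r hr i
  obtain ⟨e, A, Q, hA, -, hQ, hc⟩ := Nc.frac (k := F) h1 r
  have h2 : ∑ j : s, C (b j) * map (algebraMap F N) (A j) ∈ B.IK N := by
    obtain ⟨a, ha⟩ := h1
    refine (B.gen_iff (fun h => one_ne_zero (ha.symm.trans (congrFun h a))) h0).2 hg _ e
      (IsHomogeneous.sum _ _ _ fun j _ => ((hA j).map _).C_mul _) ?_
    simp only [map_sum, map_mul, aeval_C, aeval_map_algebraMap, hc]
    rw [← mul_zero (aeval v Q), ← hr, mul_sum]
    exact sum_congr rfl fun j _ => by
      rw [Function.comp_apply, IntermediateField.smul_def, smul_eq_mul]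
      ring
  obtain ⟨l, hl⟩ := LinearMap.exists_extend ((Finsupp.lapply (i : σ)).comp hb.repr)
  have h3 : ∀ j : s, l (b j) = if j = i then 1 else 0 := fun j => by
    have h4 := LinearMap.congr_fun hl ⟨b j, Submodule.subset_span ⟨_, rfl⟩⟩
    rw [LinearMap.comp_apply, LinearMap.comp_apply, hb.repr_eq_single j _ rfl,
      Finsupp.lapply_apply, Finsupp.single_apply] at h4
    simpa only [Subtype.val_inj, Submodule.subtype_apply] using h4
  have h4 : B.IK N = (B.IK F).map (MvPolynomial.map (algebraMap F N)) := by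
    rw [AV.IK, AV.IK, Ideal.map_map]
    exact congrArg (B.I.map ·) (RingHom.ext fun f => by
      rw [RingHom.comp_apply, MvPolynomial.map_map, ← IsScalarTower.algebraMap_eq])
  have h5 := cf_mem (h4 ▸ h2) l
  have h6 : cf l (∑ j : s, C (b j) * map (algebraMap F N) (A j)) = A i := by
    ext μ
    have : ∀ j : s, b j * algebraMap F N (coeff μ (A j)) = coeff μ (A j) • b j := fun j => by
      rw [Algebra.smul_def, mul_comm]
    simp only [coeff_cf, coeff_sum, coeff_C_mul, coeff_map, map_sum, this, map_smul, h3,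
      smul_eq_mul, mul_ite, mul_one, mul_zero, sum_ite_eq', mem_univ, if_true]
  rw [h6] at h5
  have h7 := B.tr_zero_IK h0 _ h5
  rw [hc] at h7
  exact Subtype.ext ((mul_eq_zero.1 h7).resolve_left hQ)

/-- A polynomial whose degree is at most the degree of one of its roots is irreducible. -/
theorem t_irr {L E : Type} [Field L] [Field E] [Algebra L E] {p : Polynomial L} {t : E}
    {d : ℕ} (hd : p.natDegree = d + 1) (ht : Polynomial.aeval t p = 0)
    (h : LinearIndependent L fun j : Fin (d + 1) => t ^ (j : ℕ)) : Irreducible p := by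
  have hp : p ≠ 0 := fun e => by simp [e] at hd
  have hi : IsIntegral L t := IsAlgebraic.isIntegral ⟨p, hp, ht⟩
  refine (Polynomial.associated_of_dvd_of_natDegree_le (minpoly.dvd L t ht) hp ?_).irreducible
    (minpoly.irreducible hi)
  by_contra hc
  have h1 := minpoly.aeval L t
  rw [Polynomial.aeval_eq_sum_range' (n := d + 1) (by omega), sum_range] at h1
  have h2 := Fintype.linearIndependent_iff.1 h _ h1 ⟨(minpoly L t).natDegree, by omega⟩
  exact one_ne_zero ((minpoly.monic hi).coeff_natDegree.symm.trans h2)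

theorem t_indep {L E : Type} [Field L] [Field E] [Algebra L E] {p : Polynomial L} {t : E}
    {d : ℕ} (hp : Irreducible p) (hd : p.natDegree = d + 1) (ht : Polynomial.aeval t p = 0) :
    LinearIndependent L fun j : Fin (d + 1) => t ^ (j : ℕ) := by
  have h1 := linearIndependent_pow (K := L) t
  rwa [← minpoly.eq_of_irreducible hp ht, Polynomial.natDegree_mul_C
    (inv_ne_zero (Polynomial.leadingCoeff_ne_zero.2 hp.ne_zero)), hd] at h1

open Filter Topology

variable {α : Type} {U : Ultrafilter α} {H f g : α → ℝ}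

theorem t_tendsto (U : Ultrafilter α) (H f : α → ℝ) :
    Tendsto (fun n => ENNReal.ofReal (f n / H n)) U (𝓝 (ev U H f)) := by
  obtain ⟨l, -, hl⟩ := isCompact_univ.ultrafilter_le_nhds
    (U.map fun n => ENNReal.ofReal (f n / H n)) (by simp)
  have h1 : Tendsto (fun n => ENNReal.ofReal (f n / H n)) U (𝓝 l) := hl
  rw [ev, h1.limsup_eq]
  exact h1

theorem t_of_ev (hH : Tendsto H U atTop) {d e : ℕ} (h : d * ev U H f ≤ e * ev U H g)
    (h0 : ∀ n, 0 ≤ g n) {C : ℝ} (hC : ∀ᶠ n in U, g n ≤ C * H n) {ε : ℝ} (hε : 0 < ε) :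
    ∀ᶠ n in U, d * f n ≤ e * g n + ε * H n := by
  by_contra hc
  have h1 : ev U H g ≤ ENNReal.ofReal C := le_of_tendsto (t_tendsto U H g) (by
    filter_upwards [hC, hH.eventually_gt_atTop 0] with n g1 g2
    exact ENNReal.ofReal_le_ofReal ((div_le_iff₀ g2).2 g1))
  have h2 : e * ev U H g + ENNReal.ofReal ε ≤ d * ev U H f := le_of_tendsto_of_tendsto
    ((ENNReal.Tendsto.const_mul (t_tendsto U H g) (.inr (ENNReal.natCast_ne_top e))).add_const _)
    (ENNReal.Tendsto.const_mul (t_tendsto U H f) (.inr (ENNReal.natCast_ne_top d))) (by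
      filter_upwards [Ultrafilter.eventually_not.2 hc, hH.eventually_gt_atTop 0] with n g1 g2
      rw [← ENNReal.ofReal_natCast, ← ENNReal.ofReal_natCast, ← ENNReal.ofReal_mul e.cast_nonneg,
        ← ENNReal.ofReal_mul d.cast_nonneg, ← ENNReal.ofReal_add
          (mul_nonneg e.cast_nonneg (div_nonneg (h0 n) g2.le)) hε.le]
      refine ENNReal.ofReal_le_ofReal ?_
      rw [← mul_div_assoc, ← mul_div_assoc, div_add' _ _ _ g2.ne']
      exact div_le_div_of_nonneg_right (not_le.1 g1).le g2.le)
  have h3 := (ENNReal.add_le_add_iff_left (ENNReal.mul_ne_top (ENNReal.natCast_ne_top e)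
    (ne_top_of_le_ne_top ENNReal.ofReal_ne_top h1))).1 ((h2.trans h).trans_eq (add_zero _).symm)
  exact (ENNReal.ofReal_pos.2 hε).not_ge h3

end Pool.Agent.Lib.MP_651af7_nt.Gm
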