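import Pool.Agent.Lib.MP_651af7_nt.Av.SeqB
import Pool.Agent.Lib.MP_651af7_nt.Av.PtA
import Pool.Agent.Lib.MP_651af7_nt.Av.Tr

/-! Small points that are generic over a countable field. -/

namespace Pool.Agent.Lib.MP_651af7_nt.Gm

open MvPolynomial Height Filter Av Av.AV Finset

variable {k ι α : Type} [Field k] [NumberField k] [Fintype ι] {U : Ultrafilter α} {B : AV k ι}

/-- Points of bounded height test the forms of one degree. -/
theorem t_test (hD : B.Dense) (d : ℕ) : ∃ C : ℕ, ∀ f : MvPolynomial ι k, f.IsHomogeneous d →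
    f ∉ B.I → ∃ P : B.Pt k, ht P ≤ C ∧ eval P.co f ≠ 0 := by
  have : Module.Finite k (homogeneousSubmodule ι k d) :=
    Module.Finite.iff_fg.2 (homogeneousSubmodule_fg ι k d)
  let W : ℕ → Submodule k (homogeneousSubmodule ι k d) := fun n =>
    { carrier := {f | ∀ P : B.Pt k, ht P ≤ n → eval P.co f.1 = 0}
      add_mem' := fun ha hb P hP => by
        rw [Submodule.coe_add, map_add, ha P hP, hb P hP, add_zero]
      zero_mem' := fun P _ => map_zero _
      smul_mem' := fun c f hf P hP => by rw [Submodule.coe_smul, smul_eval, hf P hP, mul_zero] }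
  obtain ⟨_, ⟨n, rfl⟩, hn⟩ := (wellFounded_lt (α := Submodule k (homogeneousSubmodule ι k d))).has_min
    (Set.range W) ⟨_, 0, rfl⟩
  refine ⟨n, fun f hf h => ?_⟩
  by_contra! hc
  refine h (hD f d hf fun P => ?_)
  obtain ⟨m, hm⟩ := exists_nat_ge (ht P)
  have h1 : W (max n m) ≤ W n := fun g hg Q hQ =>
    hg Q (hQ.trans (Nat.cast_le.2 (le_max_left _ _)))
  have h2 : (⟨f, hf⟩ : homogeneousSubmodule ι k d) ∈ W (max n m) :=
    (eq_of_le_of_not_lt h1 (hn _ ⟨_, rfl⟩)).ge hc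
  exact h2 P (hm.trans (Nat.cast_le.2 (le_max_right _ _)))

/-- The diagonal choice. -/
theorem t_sat (hD : B.Dense) {H : α → ℝ} (hH : Tendsto H U atTop) (d : ℕ → ℕ)
    (P : ℕ → α → MvPolynomial ι k) (hP : ∀ i n, (P i n).IsHomogeneous (d i) ∧ P i n ∉ B.I) :
    ∃ c : α → B.Pt k, Lo U H (fun n => ht (c n)) ∧ ∀ i, ∀ᶠ n in U, eval (c n).co (P i n) ≠ 0 := by
  classical
  have hp := B.isPrime
  choose C hC using t_test hD
  choose c h1 h2 using fun m n => hC (∑ i ∈ range m, d i) (∏ i ∈ range m, P i n)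
    (IsHomogeneous.prod _ _ _ fun i _ => (hP i n).1) fun h => by
      obtain ⟨i, -, hi⟩ := Ideal.IsPrime.prod_mem_iff.1 h
      exact (hP i n).2 hi
  let q : α → ℕ → Prop := fun n m => (m : ℝ) * C (∑ i ∈ range m, d i) ≤ H n
  have h3 : ∀ N : ℕ, ∀ᶠ n in U, N ≤ Nat.findGreatest (q n) ⌊H n⌋₊ ∧
      q n (Nat.findGreatest (q n) ⌊H n⌋₊) := fun N => by
    filter_upwards [hH.eventually_ge_atTop N,
      hH.eventually_ge_atTop ((N : ℝ) * C (∑ i ∈ range N, d i))] with n g1 g2
    have g3 := (Nat.le_floor_iff ((Nat.cast_nonneg N).trans g1)).2 g1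
    exact ⟨Nat.le_findGreatest g3 g2, Nat.findGreatest_spec (P := q n) g3 g2⟩
  refine ⟨fun n => c (Nat.findGreatest (q n) ⌊H n⌋₊) n, fun ε hε => ?_, fun i => ?_⟩
  · obtain ⟨N, hN⟩ := exists_nat_ge ε⁻¹
    filter_upwards [h3 N] with n ⟨g1, g2⟩
    refine (h1 _ _).trans (le_trans ?_ (mul_le_mul_of_nonneg_left g2 hε.le))
    rw [← mul_assoc]
    refine le_mul_of_one_le_left (Nat.cast_nonneg _) ?_
    rw [← mul_inv_cancel₀ hε.ne']
    exact mul_le_mul_of_nonneg_left (hN.trans (Nat.cast_le.2 g1)) hε.le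
  · filter_upwards [h3 (i + 1)] with n ⟨g1, _⟩
    have g2 := h2 (Nat.findGreatest (q n) ⌊H n⌋₊) n
    rw [map_prod, prod_ne_zero_iff] at g2
    exact g2 i (mem_range.2 g1)

omit [Fintype ι] in
theorem t_countable (N : IntermediateField k (Up U k)) (hN : N.FG) : Countable N := by
  obtain ⟨s, rfl⟩ := hN
  have : Countable k := (Module.finBasis ℚ k).equivFun.injective.countable
  rw [← Cardinal.mk_le_aleph0_iff]
  exact (IntermediateField.cardinalMk_adjoin_le _ _).trans
    (sup_le (sup_le Cardinal.mk_le_aleph0 Cardinal.mk_le_aleph0) le_rfl)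

/-- A small point that is generic over `N`. -/
theorem t_small (hD : B.Dense) {H : α → ℝ} (hH : Tendsto H U atTop)
    (N : IntermediateField k (Up U k)) (hN : N.FG) : ∃ (c : α → B.Pt k),
      Lo U H (fun n => ht (c n)) ∧ ∀ C, IsGerm U C c → td N (rat C.co) = B.dim := by
  classical
  have := t_countable N hN
  have : Countable (MvPolynomial ι N) := by
    rw [← Cardinal.mk_le_aleph0_iff]
    exact cardinalMk_le_max.trans
      (sup_le (sup_le Cardinal.mk_le_aleph0 Cardinal.mk_le_aleph0) le_rfl)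
  have : Nonempty {t : MvPolynomial ι N × ℕ // t.1.IsHomogeneous t.2} :=
    ⟨⟨(0, 0), isHomogeneous_zero _ _ _⟩⟩
  obtain ⟨e, he⟩ := exists_surjective_nat {t : MvPolynomial ι N × ℕ // t.1.IsHomogeneous t.2}
  choose p hp hs using fun i => exists_repr' (map (algebraMap N (Up U k)) (e i).1.1)
  have hh : ∀ i n, (p i n).IsHomogeneous (e i).1.2 := fun i n m hm =>
    ((e i).2.map (algebraMap N (Up U k))) (mem_support_iff.1 (hs i n (mem_support_iff.2 hm)))
  obtain ⟨a, ha⟩ := (rep_co (0 : B.Pt k)).unit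
  have hX : ∀ m : ℕ, (X a ^ m : MvPolynomial ι k) ∉ B.I := fun m h => by
    have h1 := (rep_co (0 : B.Pt k)).zero _ h
    rw [map_pow, aeval_X] at h1
    exact pow_ne_zero _ ha.ne_zero h1
  obtain ⟨c, h1, h2⟩ := t_sat hD hH (fun i => (e i).1.2)
    (fun i n => if p i n ∈ B.I then X a ^ (e i).1.2 else p i n) fun i n => by
      split_ifs with h
      exacts [⟨isHomogeneous_X_pow _ _, hX _⟩, ⟨hh i n, h⟩]
  refine ⟨c, h1, fun C hC => ?_⟩
  obtain ⟨l, hl⟩ := hC.unit
  rw [B.tr_rat_rep hC]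
  refine (B.gen_iff (fun h => hl.ne_zero (congrFun h l)) hC.zero).1 fun f d hf h0 => ?_
  obtain ⟨i, hi⟩ := he ⟨(f, d), hf⟩
  have h3 := hp i
  have h4 := h2 i
  rw [hi] at h3 h4
  rw [h3.aeval' fun n => (c n).co, germ_eq_zero] at h0
  have h5 : ∀ᶠ n in U, p i n ∈ B.I := by
    filter_upwards [h0, h4] with n g1 g2
    by_contra g3
    rw [if_neg g3] at g2
    exact g2 g1
  refine mem_map_of_cf fun m => hD _ d (fun μ hμ => hf fun h => hμ ?_) fun P => ?_
  · rw [coeff_cf, h, map_zero]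
  · have h6 := h3.aeval' fun _ => P.co
    rw [germ_eq_zero.2 (h5.mono fun n g => (rep_co P).zero _ g)] at h6
    have h7 : aeval (fun a => algebraMap N (Up U k) (algebraMap k N (P.co a))) f = 0 := h6
    rw [aeval_alg, map_eq_zero, aeval_eq_eval] at h7
    rw [eval_cf, h7, map_zero]

end Pool.Agent.Lib.MP_651af7_nt.Gm
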