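import Pool.Agent.Lib.MP_651af7_nt.Gm.TSat

/-! A coset decomposition whose large part is generic over a given field. -/

namespace Pool.Agent.Lib.MP_651af7_nt.Gm

open MvPolynomial Height Filter Av Av.AV
open IntermediateField (adjoin)

variable {k ι α : Type} [Field k] [NumberField k] [Fintype ι] {U : Ultrafilter α}

omit [NumberField k] [Fintype ι] in
theorem t_gens {K E : Type} [Field K] [Field E] [Algebra k K] [Algebra k E] [Algebra K E]
    [IsScalarTower k K E] {B : AV k ι} {Y : B.Pt E} (h : B.Gens K Y) (s : B.Pt K) :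
    B.Gens K (Y - B.map (IsScalarTower.toAlgHom k K E) s) := by
  obtain ⟨F, _, _, _, _, N, i, i', hg⟩ := h
  have e : ∀ j : E →ₐ[K] F, B.map (j.restrictScalars k) (B.map (IsScalarTower.toAlgHom k K E) s) =
      B.map (IsScalarTower.toAlgHom k K F) s := fun j => by
    rw [AV.map_map]
    exact AV.map_congr (rep_co s) fun c => j.commutes _
  refine ⟨F, _, _, _, inferInstance, N, i, i', ?_⟩
  simpa only [map_sub, e, sub_sub_sub_cancel_right] using hg

theorem exists_coset_gen (A : AV k ι) (x : α → A.Pt k) (hx : Tendsto (fun n => ht (x n)) U atTop)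
    (N : IntermediateField k (Up U k)) (hN : N.FG) :
    ∃ (B : AV k ι) (h : Sub A B) (y : α → B.Pt k) (a : α → A.Pt k)
      (hH : Tendsto (fun n => ht (y n)) U atTop) (X : A.Pt (Up U k)) (Y : B.Pt (Up U k))
      (aK : A.Pt (Sm k hH)) (a' : α → ι → k),
      Coset h x y a hH X Y aK a' ∧ td N (rat Y.co) = B.dim := by
  obtain ⟨B, h, y, a, hH, Z, Y, aK, a', H⟩ := A.exists_coset x hx
  have hD : B.Dense := B.dense_of_gens H.gens fun f n hf h =>
    (aeval_germ_co H.gY hf).2 (.of_forall fun l => h _)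
  obtain ⟨c, hc, hC⟩ := t_small hD hH (N ⊔ adjoin k (Set.range Y.co))
    (IntermediateField.fg_sup hN (IntermediateField.fg_adjoin_of_finite (Set.finite_range _)))
  obtain ⟨γ, -, gγ, -⟩ := A.exists_germ U
  obtain ⟨β, -, gβ, -⟩ := B.exists_germ U
  obtain rfl : Y = β y := AV.Rep.inj H.gY (gβ y)
  obtain rfl : Z = γ x := AV.Rep.inj H.gX (gγ x)
  have hinc : ∀ z, h.inc _ (β z) = γ fun n => h.inc k (z n) := fun z =>
    (h.rep_inc (gβ z)).inj ((gγ _).rep (.of_forall fun n => h.rep_inc (rep_co _)))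
  obtain ⟨b, hb⟩ : ∃ b : α → A.Pt k, b = fun n => a n + h.inc k (c n) := ⟨_, rfl⟩
  have e1 : ∀ n, x n = h.inc k ((y - c) n) + b n := fun n => by
    simp only [hb, H.add n, Pi.sub_apply, map_sub]
    abel
  obtain ⟨C, hC0, hadd⟩ := A.ht_add_le one_half_pos
  obtain ⟨C', hC1, hadd'⟩ := B.ht_add_le one_half_pos
  have err : ∀ {f : α → ℝ} {D : ℝ}, Lo U (fun n => ht (y n)) f → (∀ n, 0 ≤ f n) → 0 ≤ D →
      Lo U (fun n => ht (y n)) fun n => D * (f n + 1) := fun {f D} h1 h2 h3 =>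
    ((h1.add (Lo.const hH 1)).const_mul (c := D + 1) (by linarith)).mono
      (.of_forall fun n => by have := h2 n; nlinarith)
  have hlb : Lo U (fun n => ht (y n)) fun n => ht (b n) := by
    refine ((H.lo.const_mul (c := 1 + 1 / 2) (by norm_num)).add
      (err hc (fun n => ht_nonneg _) hC0)).mono (.of_forall fun n => ?_)
    have := (hadd (a n) (h.inc k (c n))).1
    rwa [ht_inc, ← congrFun hb n] at this
  have h0 := err hc (fun n => ht_nonneg _) hC1 (1 / 4) (by norm_num)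
  have h1 : ∀ᶠ n in U, ht ((y - c) n) ≤ 2 * ht (y n) := h0.mono fun n hn => by
    have := (hadd' (y n) (c n)).2
    have := ht_nonneg (y n)
    rw [Pi.sub_apply]
    linarith
  have h2 : ∀ᶠ n in U, ht (y n) ≤ 2 * ht ((y - c) n) := h0.mono fun n hn => by
    have := (hadd' (y n - c n) (c n)).1
    rw [sub_add_cancel] at this
    rw [Pi.sub_apply]
    linarith
  have h3 : ∀ᶠ n in U, ht ((y - c) n) ≤ 2 * ht (x n) := by
    filter_upwards [err hlb (fun n => ht_nonneg _) hC0 (1 / 4) (by norm_num), H.le] with n g1 g2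
    have := (hadd (x n) (b n)).2
    rw [← eq_sub_iff_add_eq.2 (e1 n).symm, ht_inc] at this
    linarith
  have hH' : Tendsto (fun n => ht ((y - c) n)) U atTop :=
    tendsto_atTop_mono' _ (h2.mono fun n hn => by
      change 1 / 2 * ht (y n) ≤ ht ((y - c) n)
      linarith) (hH.const_mul_atTop one_half_pos)
  have hY : h.inc _ (β (y - c)) = γ x - γ b := by
    rw [hinc, ← map_sub]
    exact congrArg γ (funext fun n => eq_sub_iff_add_eq.2 (e1 n).symm)
  have key : ∃ bK : A.Pt (Sm k hH'), B.Gens (Sm k hH') (β (y - c)) ∧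
      A.map (IsScalarTower.toAlgHom k (Sm k hH') (Up U k)) bK = γ b := by
    rw [← sm_congr hH hH' h2 h1]
    obtain ⟨bK, hbK⟩ := (small_pt_iff hH (gγ b)).2 hlb
    obtain ⟨s, hs⟩ := (small_pt_iff hH (gβ c)).2 hc
    exact ⟨bK, by rw [map_sub, ← hs]; exact t_gens H.gens s, hbK⟩
  obtain ⟨bK, hg, hbK⟩ := key
  choose f hf hf' using fun c => (bK.co c).2
  refine ⟨B, h, y - c, b, hH', γ x, β (y - c), bK, fun n c => f c n, ⟨gγ x, gβ _, hg, H.dim, e1,
    hbK ▸ hY, fun c => (hf c).symm, (gγ b).of_rep ?_, hf', hlb.of_le h2, h3⟩,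
    le_antisymm (B.td_le_dim (rep_co _).zero) ?_⟩
  · have h4 := (rep_co bK).map (IsScalarTower.toAlgHom k (Sm k hH') (Up U k))
    rw [hbK] at h4
    exact (funext hf : (fun c => germ U (f c)) = _) ▸ h4
  obtain ⟨M, hM⟩ : ∃ M, M = N ⊔ adjoin k (Set.range (β y).co) := ⟨_, rfl⟩
  rw [← hM] at hC
  have h4 : N ≤ M := hM ▸ le_sup_left
  have h5 : ∀ l, (β y).co l ∈ M := fun l =>
    hM ▸ SetLike.le_def.1 le_sup_right (IntermediateField.subset_adjoin k _ ⟨l, rfl⟩)
  let _ : Algebra N M := (IntermediateField.inclusion h4).toRingHom.toAlgebra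
  have : IsScalarTower N M (Up U k) := IsScalarTower.of_algebraMap_eq fun _ => rfl
  have h6 : td M (rat (β y).co) ≤ 0 := by
    obtain ⟨L, hL, -⟩ := tr_cl (K := M) (∅ : Set (Up U k))
    refine (tr_td_le (S := ∅) ?_).trans (Matroid.eRk_empty _).le
    rintro _ ⟨p, rfl⟩
    rw [← hL]
    exact L.div_mem (L.algebraMap_mem ⟨_, h5 _⟩) (L.algebraMap_mem ⟨_, h5 _⟩)
  rw [← hC _ (gβ c), show β c = β y - β (y - c) by rw [map_sub, sub_sub_cancel]]
  refine ((tr_td_le (B.rat_add_sub _ _).2).trans (td_union_le _ _)).trans ?_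
  exact (add_le_add h6 (td_le_of_tower (K := N) _)).trans_eq (zero_add _)

end Pool.Agent.Lib.MP_651af7_nt.Gm
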