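import Pool.Agent.Lib.MP_651af7_nt.Nc.Rel
import Pool.Agent.Lib.MP_651af7_nt.Gm.TShf
import Pool.Agent.Lib.MP_651af7_nt.Gm.TIrv
import Pool.Agent.Lib.MP_651af7_nt.Gm.Gcd
import Pool.Agent.Lib.MP_651af7_nt.Gm.Key

/-! The share of the height over the field of a sequence of points. -/

namespace Pool.Agent.Lib.MP_651af7_nt.Gm

open MvPolynomial Height Filter Av As Av.AV
open IntermediateField (adjoin)

/-- Normalised coordinates of a sum or a difference lie in the field of those of the terms. -/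
theorem t_mem {k ι E : Type} [Field k] [Field E] [Algebra k E] {A : AV k ι}
    (L : IntermediateField k E) {P Q R : A.Pt E} {x y z : ι → E} (hx : Rep P x) (hy : Rep Q y)
    (hz : Rep R z) (h : R = P + Q ∨ R = P - Q) (h1 : ∃ a, z a = 1) (h2 : ∀ a, x a ∈ L)
    (h3 : ∀ a, y a ∈ L) (c : ι) : z c ∈ L := by
  obtain ⟨a, b, hu⟩ := exists_unit_ph hx hy
  obtain ⟨l, hl⟩ := h1
  have hm : ∀ c d, A.ph c d x y ∈ L := fun c d => tr_aeval_mem (K := k) L (by
    rintro (e | e)
    exacts [h2 e, h3 e]) _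
  have key : ∀ s : ι → E, Rep R s → (∀ a, s a ∈ L) → z c ∈ L := fun s hs h4 => by
    obtain ⟨u, hu⟩ := hs.exists_smul hz
    have h5 : (u : E) = (s l)⁻¹ := eq_inv_of_mul_eq_one_left ((hu l).symm.trans hl)
    rw [hu, h5]
    exact L.mul_mem (L.inv_mem (h4 _)) (h4 _)
  rcases h with rfl | rfl
  exacts [key _ (rep_add hx hy hu) fun _ => hm _ _, key _ (rep_sub hx hy hu) fun _ => hm _ _]

/-- An irreducible polynomial over `F` stays irreducible over `L (v) = F (v)`. -/
theorem t_lift {k ι E : Type} [Field k] [Fintype ι] [Field E] [Algebra k E] {B : AV k ι}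
    {F L N : IntermediateField k E} {v : ι → E} (h1 : ∃ a, v a = 1)
    (h0 : ∀ f ∈ B.I, aeval v f = 0) (hg : td N (rat v) = B.dim) (h4 : F ≤ N) {t : E} (h5 : t ∈ N)
    (m2 : L ≤ (adjoin F (Set.range v)).restrictScalars k)
    (m4 : F ≤ (adjoin L (Set.range v)).restrictScalars k) {p : Polynomial F} {d : ℕ}
    (hp : Irreducible p) (hd : p.natDegree = d + 1) (ht : Polynomial.aeval t p = 0) :
    ∃ q : Polynomial (adjoin L (Set.range v)), q.map (algebraMap _ E) = p.map (algebraMap _ E) ∧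
      Irreducible q := by
  have m3 : ∀ z ∈ adjoin L (Set.range v), z ∈ adjoin F (Set.range v) := fun z hz => by
    induction hz using IntermediateField.adjoin_induction with
    | mem x hx => exact IntermediateField.subset_adjoin _ _ hx
    | algebraMap x => exact m2 x.2
    | add x z _ _ hx hz => exact add_mem hx hz
    | inv x _ hx => exact inv_mem hx
    | mul x z _ _ hx hz => exact mul_mem hx hz
  obtain ⟨q, hq⟩ : ∃ q : Polynomial (adjoin L (Set.range v)),
      q.map (algebraMap _ E) = p.map (algebraMap _ E) :=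
    (Polynomial.lifts_iff_coeff_lifts _).2 fun j => ⟨⟨_, m4 (p.coeff j).2⟩, by
      rw [Polynomial.coeff_map]; rfl⟩
  let _ : Algebra F N := (IntermediateField.inclusion h4).toRingHom.toAlgebra
  have : IsScalarTower F N E := IsScalarTower.of_algebraMap_eq fun _ => rfl
  have : IsScalarTower k F N := IsScalarTower.of_algebraMap_eq fun _ => rfl
  have h6 := t_irv (N := N) h1 h0 hg (t_indep (t := (⟨_, h5⟩ : N)) hp hd
    ((algebraMap N E).injective (by
      rw [← Polynomial.aeval_algebraMap_apply, map_zero]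
      exact ht)))
  refine ⟨q, hq, t_irr (t := t) (d := d) ?_ ?_ (Fintype.linearIndependent_iff.2 fun r hr j => ?_)⟩
  · rw [← Polynomial.natDegree_map (algebraMap _ E), hq, Polynomial.natDegree_map, hd]
  · rw [← Polynomial.eval_map_algebraMap, hq, Polynomial.eval_map_algebraMap, ht]
  · have h7 : ∀ j : Fin (d + 1), algebraMap N E ((⟨t, h5⟩ : N) ^ (j : ℕ)) = t ^ (j : ℕ) :=
      fun j => map_pow _ _ _
    simp only [h7] at h6
    have h8 := Fintype.linearIndependent_iff.1 h6 (fun j => ⟨r j, m3 _ (r j).2⟩) (by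
      simp only [IntermediateField.smul_def, smul_eq_mul] at hr ⊢
      exact hr) j
    have h9 : (r j : E) = 0 := (ZeroMemClass.coe_eq_zero
      (x := (⟨r j, m3 _ (r j).2⟩ : adjoin F (Set.range v)))).2 h8
    exact ZeroMemClass.coe_eq_zero.1 h9

variable {k ι α : Type} [Field k] [NumberField k] [Fintype ι] {U : Ultrafilter α}

/-- The share over a finitely generated subfield of the small field. -/
theorem share_sub {B : AV k ι} {y : α → B.Pt k} {hH : Tendsto (fun n => ht (y n)) U atTop}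
    {v : α → ι → k} {a₁ : ι} {Y : B.Pt (Up U k)} (hY : IsGerm U Y y) (hg : B.Gens (Sm k hH) Y)
    (hd : 1 ≤ B.dim) (hv : ∀ᶠ n in U, Rep (y n) (v n) ∧ v n a₁ = 1)
    (hgen : td (Sm k hH) (rat (gv U v)) = B.dim) (L : IntermediateField k (Up U k)) (hL : L.FG)
    (hle : L ≤ Sm k hH) :
    Nc.Shr (k := k) U (fun n => ht (y n)) (adjoin L (Set.range (gv U v))) := by
  intro d p t a hp hd' ht' ha ε hε
  obtain ⟨h, hh⟩ := exists_hf k hH
  have h1 : ∀ z ∈ adjoin L (Set.range (gv U v)), z ∈ adjoin (Sm k hH) (Set.range (gv U v)) :=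
    fun z hz => by
      induction hz using IntermediateField.adjoin_induction with
      | mem x hx => exact IntermediateField.subset_adjoin _ _ hx
      | algebraMap x => exact IntermediateField.algebraMap_mem _ (⟨x, hle x.2⟩ : Sm k hH)
      | add x z _ _ hx hz => exact add_mem hx hz
      | inv x _ hx => exact inv_mem hx
      | mul x z _ _ hx hz => exact mul_mem hx hz
  obtain ⟨q, hq⟩ : ∃ q : Polynomial (adjoin (Sm k hH) (Set.range (gv U v))),
      q.map (algebraMap _ (Up U k)) = p.map (algebraMap _ (Up U k)) :=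
    (Polynomial.lifts_iff_coeff_lifts _).2 fun j => ⟨⟨_, h1 _ (p.coeff j).2⟩, by
      rw [Polynomial.coeff_map]; rfl⟩
  have q0 : Polynomial.aeval (germ U t) q = 0 := by
    rw [← Polynomial.eval_map_algebraMap, hq, Polynomial.eval_map_algebraMap, ht']
  have hi : IsIntegral (adjoin (Sm k hH) (Set.range (gv U v))) (germ U t) :=
    IsAlgebraic.isIntegral ⟨q, fun e => hp.ne_zero (Polynomial.map_eq_zero_iff
      (algebraMap _ (Up U k)).injective |>.1 (by rw [← hq, e, Polynomial.map_zero])), q0⟩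
  obtain ⟨g, hg'⟩ : ∃ g, g = minpoly (adjoin (Sm k hH) (Set.range (gv U v))) (germ U t) := ⟨_, rfl⟩
  obtain ⟨e, he⟩ : ∃ e, g.natDegree = e + 1 :=
    Nat.exists_eq_succ_of_ne_zero (hg' ▸ (minpoly.natDegree_pos hi).ne')
  choose b hb using fun j : Fin (e + 2) => germ_surj U (algebraMap _ (Up U k) (g.coeff j))
  have h2 := key (set0 hY hg hd hv hgen hh) L hL hle hp (g := g) (hg' ▸ minpoly.monic hi)
    (hq ▸ Polynomial.map_dvd _ (hg' ▸ minpoly.dvd _ _ q0))
  have e1 : cv (d + 1) (p.map (algebraMap _ (Up U k))) = fun j => germ U fun n => a n j :=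
    funext fun j => (Polynomial.coeff_map _ _).trans (ha j)
  have e2 : cv (e + 1) (g.map (algebraMap _ (Up U k))) = fun j => germ U fun n => b j n :=
    funext fun j => (Polynomial.coeff_map _ _).trans (hb j).symm
  rw [Hf.hp, Hf.hp, Polynomial.natDegree_map, Polynomial.natDegree_map, hd', he, e1, e2, hh,
    hh fun n j => b j n] at h2
  choose C hC using fun j : Fin (e + 2) => Nc.bd (hH := hH) hv (g.coeff j) _ (hb j).symm
  have d0 : (0 : ℝ) < d + 1 := by positivity
  filter_upwards [t_of_ev hH h2 (fun n => logHeight_nonneg _) (C := ∑ j, C j)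
    ((eventually_all.2 hC).mono fun n g1 => (logHeight_le_sum _).trans
      ((Finset.sum_le_sum fun j _ => g1 j).trans_eq (Finset.sum_mul _ _ _).symm)) (half_pos hε),
    Nc.share hv hgen e g t (fun n j => b j n) (hg' ▸ minpoly.irreducible hi) he
      (hg' ▸ minpoly.aeval _ _) (fun j => (hb j).symm) _ (div_pos (half_pos hε) d0)] with n g1 g2
  have g3 := mul_le_mul_of_nonneg_left g2 d0.le
  have g4 := mul_nonneg (Nat.cast_nonneg (α := ℝ) e) (mul_nonneg hε.le (ht_nonneg (y n)))
  rw [mul_add, ← mul_assoc _ (ε / 2 / _), mul_div_cancel₀ _ d0.ne'] at g3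
  push_cast at g1
  refine le_of_mul_le_mul_left ?_ (show (0 : ℝ) < e + 1 by positivity)
  linarith

theorem share_A (A : AV k ι) (x : α → A.Pt k) (hx : Tendsto (fun n => ht (x n)) U atTop)
    {w : α → ι → k} {a₀ : ι} (hw : ∀ᶠ n in U, Rep (x n) (w n) ∧ w n a₀ = 1) :
    Nc.Shr (k := k) U (fun n => ht (x n)) (adjoin k (Set.range (gv U w))) := by
  intro d p t a hp hd ht' ha ε hε
  obtain ⟨N, hN⟩ : ∃ N, N = adjoin k (insert (germ U t) (Set.range (gv U w))) := ⟨_, rfl⟩
  obtain ⟨B, h, y, s, hH, Z, Y, aK, a', H, hY'⟩ := exists_coset_gen A x hx N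
    (hN ▸ IntermediateField.fg_adjoin_of_finite ((Set.finite_range _).insert _))
  have hY : td (Sm k hH) (rat Y.co) = B.dim := Cn.Cos.gen (h := h) ⟨H.gX, H.gY, H.gens, H.add,
    H.sub, H.co, H.rep, H.small, H.lo, 1, .of_forall fun n => (one_mul _).ge⟩
  obtain ⟨a₁, b₀, v, hv⟩ := Sh.exists_norm H
  have hv' : ∀ᶠ n in U, Rep (y n) (v n) ∧ v n a₁ = 1 := hv.mono fun n g => ⟨g.1, g.2.1⟩
  have hYv : Rep Y (gv U v) := H.gY.rep (hv.mono fun n g => g.1)
  have hXw : Rep Z (gv U w) := H.gX.rep (hw.mono fun n g => g.1)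
  have v1 : gv U v a₁ = 1 := ((germ_eq U).2 (hv'.mono fun n g => g.2)).trans (map_one (germ U))
  have w1 : gv U w a₀ = 1 := ((germ_eq U).2 (hw.mono fun n g => g.2)).trans (map_one (germ U))
  rw [B.tr_rat_rep hYv] at hY hY'
  obtain ⟨z, c, hz, z1⟩ := exists_rep_one aK
  have hz' := hz.map (IsScalarTower.toAlgHom k (Sm k hH) (Up U k))
  obtain ⟨L, hL⟩ : ∃ L, L = adjoin k (Set.range fun l =>
    IsScalarTower.toAlgHom k (Sm k hH) (Up U k) (z l)) := ⟨_, rfl⟩
  have m1 : ∀ l, gv U w l ∈ adjoin L (Set.range (gv U v)) := fun l =>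
    t_mem ((adjoin L (Set.range (gv U v))).restrictScalars k) (h.rep_inc hYv) hz' hXw
      (.inl (eq_sub_iff_add_eq.1 H.sub).symm) ⟨_, w1⟩
      (fun l => IntermediateField.subset_adjoin L _ ⟨l, rfl⟩) (fun l =>
        IntermediateField.algebraMap_mem _ (⟨_, hL ▸ IntermediateField.subset_adjoin k _
          ⟨l, rfl⟩⟩ : L)) l
  have m2 : L ≤ (adjoin (adjoin k (Set.range (gv U w))) (Set.range (gv U v))).restrictScalars k := by
    rw [hL, IntermediateField.adjoin_le_iff]
    rintro _ ⟨l, rfl⟩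
    exact t_mem ((adjoin (adjoin k (Set.range (gv U w))) (Set.range (gv U v))).restrictScalars k)
      hXw (h.rep_inc hYv) hz' (.inr (by rw [H.sub, sub_sub_cancel])) ⟨c, by rw [z1, map_one]⟩
      (fun l => IntermediateField.algebraMap_mem (adjoin _ (Set.range (gv U v)))
        (⟨_, IntermediateField.subset_adjoin k _ ⟨l, rfl⟩⟩ : adjoin k (Set.range (gv U w))))
      (fun l => IntermediateField.subset_adjoin (adjoin k (Set.range (gv U w))) _ ⟨l, rfl⟩) l
  obtain ⟨q, hq, h7⟩ := t_lift ⟨_, v1⟩ hYv.zero hY'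
    (hN ▸ IntermediateField.adjoin.mono k _ _ (Set.subset_insert _ _))
    (hN ▸ IntermediateField.subset_adjoin k _ (Set.mem_insert _ _)) m2
    (IntermediateField.adjoin_le_iff.2 (Set.range_subset_iff.2 m1)) hp hd ht'
  have q0 : Polynomial.aeval (germ U t) q = 0 := by
    rw [← Polynomial.eval_map_algebraMap, hq, Polynomial.eval_map_algebraMap, ht']
  have q1 : q.natDegree = d + 1 := by
    rw [← Polynomial.natDegree_map (algebraMap _ (Up U k)), hq, Polynomial.natDegree_map, hd]
  filter_upwards [share_sub H.gY H.gens H.dim hv' hY L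
    (hL ▸ IntermediateField.fg_adjoin_of_finite (Set.finite_range _))
    (hL ▸ IntermediateField.adjoin_le_iff.2 (Set.range_subset_iff.2 fun l => (z l).2))
    d q t a h7 q1 q0 (fun j => by
      rw [← Polynomial.coeff_map, hq, Polynomial.coeff_map, ha]) _ (half_pos hε), H.le]
    with n g1 g2
  have := mul_le_mul_of_nonneg_left g2 (half_pos hε).le
  linarith

end Pool.Agent.Lib.MP_651af7_nt.Gm
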