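import Pool.Agent.Lib.MP_651af7_nt.Gm.TShare
import Pool.Agent.Lib.MP_651af7_nt.Sh.ASim
import Pool.Agent.Lib.MP_651af7_nt.Sh.OIrr

/-! The share of the height for an equation that is irreducible over the function field. -/

namespace Pool.Agent.Lib.MP_651af7_nt.Gm

open MvPolynomial Height Filter
open Pool.Agent.Lib.MP_651af7_nt.Av Pool.Agent.Lib.MP_651af7_nt.Av.AV
open Pool.Agent.Lib.MP_651af7_nt.Sh Pool.Agent.Lib.MP_8865d3_nt.Sv
open Pool.Agent.Lib.MP_651af7_nt.As (gv)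
open Pool.Agent.Lib.MP_651af7_nt.Jn (rr rr_coeff)
open IntermediateField (adjoin)

variable {k ι : Type} [Field k] [NumberField k] [Fintype ι] {α : Type} {U : Ultrafilter α}
  {e μ : ℕ} {A : AV k ι} {ρ : Fin (e + 2) → MvPolynomial ι k}

theorem bd_k {x : α → A.Pt k} (hx : Tendsto (fun n => ht (x n)) U atTop) {w : α → ι → k} {a₀ : ι}
    (hw : ∀ᶠ n in U, Rep (x n) (w n) ∧ w n a₀ = 1) :
    Nc.Bdd (k := k) U (fun n => ht (x n)) (adjoin k (Set.range (gv U w))) := by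
  intro b f hf
  have h1 : adjoin k (Set.range (gv U w)) ≤
      (adjoin (Sm k hx) (Set.range (gv U w))).restrictScalars k :=
    IntermediateField.adjoin_le_iff.2 fun z hz =>
      (IntermediateField.mem_restrictScalars k).2 (IntermediateField.subset_adjoin _ _ hz)
  exact Nc.bd (hH := hx) hw ⟨b, (IntermediateField.mem_restrictScalars k).1 (h1 b.2)⟩ f hf

theorem seqM (hρ : ∀ j, (ρ j).IsHomogeneous μ) (hl : ρ (Fin.last _) ∉ A.I) (hG : Nc.MinG A ρ)
    (x : α → A.Pt k) (g : α → Polynomial k) {d : ℕ} (hx : Tendsto (fun n => ht (x n)) U atTop)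
    (hgen : ∀ (f : MvPolynomial ι k) (n : ℕ), f.IsHomogeneous n → f ∉ A.I →
      ∀ᶠ l in U, eval (x l).co f ≠ 0)
    (h0 : ∀ᶠ n in U, (g n).Monic ∧ (g n).natDegree = d ∧ g n ∣ fx ρ (x n).co) {ε : ℝ}
    (hε : 0 < ε) : ∀ᶠ n in U, d * logHeight (fun j => eval (x n).co (ρ j)) ≤
      (e + 1) * logHeight (fun j : Fin (d + 1) => (g n).coeff j) + ε * ht (x n) := by
  obtain ⟨a₀, h1⟩ := Ultrafilter.eventually_exists_iff.1
    (Eventually.of_forall (f := U) fun n => (rep_co (x n)).unit)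
  obtain ⟨w, hw⟩ : ∃ w : α → ι → k, w = fun n l => ((x n).co a₀)⁻¹ * (x n).co l := ⟨_, rfl⟩
  have h2 : ∀ᶠ n in U, Rep (x n) (w n) ∧ w n a₀ = 1 := h1.mono fun n g =>
    hw ▸ ⟨(rep_co (x n)).div g.ne_zero, inv_mul_cancel₀ g.ne_zero⟩
  have h3 : ∀ n (G : MvPolynomial ι k) (m : ℕ), G.IsHomogeneous m →
      eval (w n) G = ((x n).co a₀)⁻¹ ^ m * eval (x n).co G := fun n G m hG =>
    hw ▸ eval_mul_of_hom hG _ _
  have e1 : ∀ f : MvPolynomial ι k, aeval (gv U w) f = germ U fun n => eval (w n) f :=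
    fun f => aeval_germ f w
  have h4 : Gen A.I (gv U w) := fun f n hf h => by
    by_contra h5
    rw [e1, germ_eq_zero] at h
    obtain ⟨l, ⟨g1, g2⟩, g3⟩ := ((h.and (hgen f n hf h5)).and h1).exists
    rw [h3 l f n hf] at g1
    exact mul_ne_zero (pow_ne_zero _ (inv_ne_zero g3.ne_zero)) g2 g1
  have h5 : gv U w a₀ = 1 := ((germ_eq U).2 (h2.mono fun n g => g.2)).trans (map_one (germ U))
  have h6 : ∀ f : MvPolynomial ι k, aeval (fun a => algebraMap _ (AlgebraicClosure (Up U k))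
      (gv U w a)) f = 0 ↔ aeval (gv U w) f = 0 := fun f =>
    (congrArg (· = 0) (aeval_algebraMap_apply _ (gv U w) f)).to_iff.trans (map_eq_zero _)
  have hlead : aeval (gv U w) (ρ (Fin.last _)) ≠ 0 := fun h => hl (h4 _ _ (hρ _) h)
  have h7 : algebraMap _ (AlgebraicClosure (Up U k)) (gv U w a₀) = 1 := by rw [h5, map_one]
  have hI : Nc.Irp ρ (gv U w) := Nc.Irp.iso h6 (Nc.irp_of_min ⟨a₀, h7⟩
    (fun h => hlead ((h6 _).1 h)) (hG _ _ (fun h => one_ne_zero (h7.symm.trans (congrFun h a₀)))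
      (fun f hf => (h6 f).2 (by
        rw [e1, germ_eq_zero]
        exact h2.mono fun n g => aeval_eq_eval (w n) ▸ g.1.zero f hf))
      fun f n hf h => h4 f n hf ((h6 f).1 h)))
  obtain ⟨p, hp, hd⟩ := exists_lift_rr ρ (gv U w)
  have c1 : ∀ j : Fin (e + 2), algebraMap _ (Up U k) (p.coeff j) = aeval (gv U w) (ρ j) :=
    fun j => by rw [← Polynomial.coeff_map, hp, rr_coeff]
  filter_upwards [shr_factor (share_A A x hx h2) (bd_k hx h2) hx (hI p hp) (Nc.iso_deg hp hlead)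
    (a := fun n j => eval (w n) (ρ j)) (fun j => (c1 j).trans (e1 _)) (g := g) (d := d)
    (h0.mono fun n g5 => by
      rw [fx_mul fun j => h3 n _ _ (hρ j)]
      exact ⟨g5.1, g5.2.1, g5.2.2.mul_left _⟩) hε, h1] with n g1 g2
  simpa only [h3 n _ _ (hρ _), logHeight_mul_left (pow_ne_zero μ (inv_ne_zero g2.ne_zero))] using g1

theorem coreA_min (hρ : ∀ j, (ρ j).IsHomogeneous μ) (hl : ρ (Fin.last _) ∉ A.I)
    (hG : Nc.MinG A ρ) : CoreA A ρ := by
  intro ε hε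
  by_contra hcon
  have hp := A.isPrime
  let β := {z : A.Pt k × Polynomial k // z.2.Monic ∧ z.2 ∣ fx ρ z.1.co}
  let T := {t : MvPolynomial ι k × ℕ × ℝ // t.1.IsHomogeneous t.2.1 ∧ t.1 ∉ A.I}
  let S : T → Set β := fun t => {z | eval z.1.1.co t.1.1 ≠ 0 ∧
    (e + 1) * logHeight (fun j : Fin (z.1.2.natDegree + 1) => z.1.2.coeff j) + ε * ht z.1.1 +
      t.1.2.2 < z.1.2.natDegree * logHeight fun j => eval z.1.1.co (ρ j)}
  have hS : ∀ t, (S t).Nonempty := fun t => by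
    by_contra h
    refine hcon ⟨t.1.1, t.1.2.1, t.1.2.2, t.2.1, t.2.2, fun x s h0 hz h1 hm h2 =>
      not_lt.1 fun h3 => h ?_⟩
    obtain ⟨P, u, hu⟩ := exists_rep_of_ne (A := A) h0 (by simpa only [aeval_eq_eval] using hz)
    obtain rfl : x = fun a => u * P.co a := funext hu
    simp only [eval_mul_of_hom (hρ _), logHeight_mul_left u.ne_zero,
      logHeight_mul_left (pow_ne_zero μ u.ne_zero)] at h3
    rw [eval_mul_of_hom t.2.1] at h1
    rw [fx, fx_mul fun j => eval_mul_of_hom (hρ j) _ _,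
      (Polynomial.isUnit_C.2 (u.isUnit.pow μ)).dvd_mul_left] at h2
    exact ⟨⟨(P, s), hm, h2⟩, right_ne_zero_of_mul h1, h3⟩
  have hdir : Directed (· ≥ ·) fun t => 𝓟 (S t) := fun t t' =>
    ⟨⟨(t.1.1 * t'.1.1, t.1.2.1 + t'.1.2.1, max t.1.2.2 t'.1.2.2), t.2.1.mul t'.2.1,
      fun h => (hp.mem_or_mem h).elim t.2.2 t'.2.2⟩,
      principal_mono.2 fun z hz => ⟨left_ne_zero_of_mul (map_mul (eval z.1.1.co) _ _ ▸ hz.1),
        lt_of_le_of_lt (by gcongr; exact le_max_left _ _) hz.2⟩,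
      principal_mono.2 fun z hz => ⟨right_ne_zero_of_mul (map_mul (eval z.1.1.co) _ _ ▸ hz.1),
        lt_of_le_of_lt (by gcongr; exact le_max_right _ _) hz.2⟩⟩
  have h1 : (1 : MvPolynomial ι k) ∉ A.I := (Ideal.ne_top_iff_one _).1 hp.ne_top
  have : Nonempty β := (hS ⟨(1, 0, 0), isHomogeneous_one _ _, h1⟩).to_type
  have hne := iInf_neBot_of_directed hdir fun t => principal_neBot_iff.2 (hS t)
  obtain ⟨V, hU⟩ : ∃ V : Ultrafilter β, ∀ t, ∀ᶠ z in V, z ∈ S t :=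
    ⟨Ultrafilter.of (⨅ t, 𝓟 (S t)), fun t =>
      (Ultrafilter.of_le _).trans (iInf_le _ t) (mem_principal_self _)⟩
  have hd : ∀ᶠ z : β in V, z.1.2.natDegree ≤ e + 1 :=
    (hU ⟨(_, μ, 0), hρ _, hl⟩).mono fun z hz => (Polynomial.natDegree_le_of_dvd z.2.2 fun h =>
      hz.1 (by rw [← coeff_fin (fun j => eval z.1.1.co (ρ j)), ← fx, h]; rfl)).trans
        (natDegree_fin _)
  obtain ⟨d, h2⟩ := Ultrafilter.eventually_exists_iff.1 (hd.mono fun z hz =>
    (⟨⟨_, Nat.lt_succ_of_le hz⟩, rfl⟩ : ∃ d : Fin (e + 2), z.1.2.natDegree = d))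
  obtain ⟨C₀, hC₀⟩ := logHeight_eval_le' hρ
  have e0 : (0 : ℝ) < e + 1 := by positivity
  have h3 := seqM hρ hl hG (U := V) (fun z => z.1.1) (fun z => z.1.2) (tendsto_atTop.2 fun W => ?_)
    (fun f n hf h => (hU ⟨(f, n, 0), hf, h⟩).mono fun _ h => h.1)
    (h2.mono fun z hz => ⟨z.2.1, hz, z.2.2⟩) hε
  · obtain ⟨z, ⟨g1, g2⟩, g3⟩ :=
      ((h3.and (hU ⟨(1, 0, 0), isHomogeneous_one _ _, h1⟩)).and h2).exists
    rw [← g3] at g1
    exact g2.2.not_ge (by simpa only [add_zero] using g1)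
  filter_upwards [hd, hU ⟨(1, 0, (e + 1) * (C₀ + μ * W)), isHomogeneous_one _ _, h1⟩] with z g1 g2
  have g3 : _ + ε * ht z.1.1 + (e + 1) * (C₀ + μ * W) < _ := g2.2
  have g4 : _ ≤ C₀ + μ * ht z.1.1 := hC₀ z.1.1.co
  have g5 := mul_nonneg hε.le (ht_nonneg z.1.1)
  have g6 := mul_nonneg e0.le
    (logHeight_nonneg fun j : Fin (z.1.2.natDegree + 1) => z.1.2.coeff j)
  have g7 := mul_le_mul (show (z.1.2.natDegree : ℝ) ≤ e + 1 by exact_mod_cast g1) g4
    (logHeight_nonneg _) e0.le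
  have g8 := lt_of_mul_lt_mul_left
    (by linarith : (e + 1 : ℝ) * (C₀ + μ * W) < (e + 1) * (C₀ + μ * ht z.1.1)) e0.le
  exact (lt_of_mul_lt_mul_left (by linarith : (μ : ℝ) * W < μ * ht z.1.1) μ.cast_nonneg).le

theorem core_free (hρ : ∀ j, (ρ j).IsHomogeneous μ) (hl : ρ (Fin.last _) ∉ A.I)
    (h : Nc.MinG A ρ) : Core A ρ := fun ε hε => by
  obtain ⟨Θ, d, C, h1, h2, h3⟩ := coreA_min hρ hl h ε hε
  refine ⟨Θ, d, C, h1, h2, fun x t hx hz h0 ht => ?_⟩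
  have h4 := h3 x _ hx hz h0 (Polynomial.monic_X_sub_C t) (Polynomial.dvd_iff_isRoot.2 (by
    simpa only [Polynomial.IsRoot, fx, Polynomial.eval_finsetSum, Polynomial.eval_monomial]
      using ht))
  rw [af_ht (Polynomial.natDegree_X_sub_C t), Polynomial.natDegree_X_sub_C, Nat.cast_one,
    one_mul] at h4
  rw [← logHeight₁_neg, logHeight₁_eq_logHeight]
  refine h4.trans_eq (congrArg (fun z => (e + 1) * logHeight z + ε * logHeight x + C)
    (funext fun j => ?_))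
  fin_cases j <;> simp [Polynomial.coeff_X]

variable {a l : ℕ}

omit [NumberField k] [Fintype ι] in
theorem minG_of_irr (hρ : ∀ j : Fin (e + 2), (ρ j).IsHomogeneous (a + (e + 1 - j) * l))
    (h1 : ρ (Fin.last _) ∉ A.I) (h : Irreducible (fq ρ A.I)) {L : MvPolynomial ι k}
    (hL : L.IsHomogeneous 1) (hL' : L ∉ A.I) : Nc.MinG A fun j => ρ j * L ^ (l * j) := by
  intro F _ _ v _ hz hv
  have h2 : idl k v = A.I := Ideal.ext fun f => ⟨fun h => by
    rw [← sum_homogeneousComponent f]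
    exact Ideal.sum_mem _ fun n _ => hv _ n (homogeneousComponent_isHomogeneous n f) (mem_idl.1 h n),
    fun h => mem_idl.2 fun n => hz _ (A.hom f h n)⟩
  exact min_of_irr hρ hL (fun h => hL' (hv _ _ hL h)) (fun h => h1 (hv _ _ (hρ _) h)) (h2 ▸ h)

theorem finalM (A : AV k ι) {ρ : Fin (e + 2) → MvPolynomial ι k}
    (hρ : ∀ j : Fin (e + 2), (ρ j).IsHomogeneous (a + (e + 1 - j) * l))
    (h0 : ρ 0 ∉ A.I) (h1 : ρ (Fin.last _) ∉ A.I) (h : Irreducible (fq ρ A.I)) {ε : ℝ} (hε : 0 < ε) :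
    ∃ (Θ : MvPolynomial ι k) (d : ℕ), Θ.IsHomogeneous d ∧ Θ ∉ A.I ∧
      ∀ T : Finset (AbsoluteValue k ℝ), ∃ C : ℝ, ∀ (x : ι → k) (g : Polynomial k), x ≠ 0 →
        (∀ f ∈ A.I, eval x f = 0) → eval x Θ ≠ 0 → eval x (ρ (Fin.last _)) ≠ 0 ∧ (g.Monic →
          g ∣ fx ρ x → |g.natDegree * a * logHeight x - osum T (locA a l ρ x g)| ≤
            ε * logHeight x + C) :=
  finalB A hρ h0 h1 (fun L hL hL' => coreA_min (μ := a + (e + 1) * l) (fun j => by
      have h : a + (e + 1 - j) * l + 1 * (l * j) = a + (e + 1) * l := by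
        rw [one_mul, add_assoc, mul_comm l, ← add_mul, Nat.sub_add_cancel (Nat.lt_succ_iff.1 j.2)]
      exact h ▸ (hρ j).mul (hL.pow (l * j)))
    (fun h => (A.isPrime.mem_or_mem h).elim h1 fun h => hL' (A.isPrime.mem_of_pow_mem _ h))
    (minG_of_irr hρ h1 h hL hL')) hε

end Pool.Agent.Lib.MP_651af7_nt.Gm
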